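import Pool.Agent.Lib.MP_dadc30_coR.Defs

set_option linter.all false
set_option autoImplicit false

/-!
# Module Cong: `M3` only depends on the three distances
-/

open MeasureTheory Filter Topology
open scoped Real ComplexConjugate

namespace Dadc30.Rec

open Dadc30.Gap

namespace Cong_aux

theorem exists_uu (u : ℂ) (hu : ‖u‖ = 1) : ∃ ψ : ℝ, u = uu ψ := by
  refine ⟨Complex.arg u, ?_⟩
  have h := Complex.norm_mul_exp_arg_mul_I u
  rw [hu, Complex.ofReal_one, one_mul] at h
  exact h.symm

theorem geo (a b a' b' : ℂ) (h1 : ‖a‖ = ‖a'‖) (h2 : ‖b‖ = ‖b'‖) (h3 : ‖a - b‖ = ‖a' - b'‖) :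
    ∃ u : ℂ, ‖u‖ = 1 ∧ ((a' = u * a ∧ b' = u * b) ∨ (a' = u * conj a ∧ b' = u * conj b)) := by
  rcases eq_or_ne a 0 with ha | ha
  · subst ha
    have ha' : a' = 0 := by
      rw [← norm_eq_zero, ← h1, norm_zero]
    subst ha'
    rcases eq_or_ne b 0 with hb | hb
    · subst hb
      have hb' : b' = 0 := by
        rw [← norm_eq_zero, ← h2, norm_zero]
      subst hb'
      exact ⟨1, by simp, Or.inl (by simp)⟩
    · refine ⟨b' / b, ?_, Or.inl ⟨by simp, ?_⟩⟩
      · rw [norm_div, ← h2, div_self (norm_ne_zero_iff.mpr hb)]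
      · rw [div_mul_cancel₀ _ hb]
  · have ha' : a' ≠ 0 := by
      rw [← norm_ne_zero_iff, ← h1, norm_ne_zero_iff]
      exact ha
    have hca : conj a ≠ 0 := by simpa using ha
    have hca' : conj a' ≠ 0 := by simpa using ha'
    have e1 : a' * conj a' = a * conj a := by
      rw [Complex.mul_conj, Complex.mul_conj, Complex.normSq_eq_norm_sq, Complex.normSq_eq_norm_sq, h1]
    have s1 : ‖a‖ ^ 2 = ‖a'‖ ^ 2 := by rw [h1]
    have s2 : ‖b‖ ^ 2 = ‖b'‖ ^ 2 := by rw [h2]
    have s3 : ‖a - b‖ ^ 2 = ‖a' - b'‖ ^ 2 := by rw [h3]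
    simp only [← Complex.normSq_eq_norm_sq, Complex.normSq_apply, Complex.sub_re, Complex.sub_im] at s1 s2 s3
    -- the real parts of `b conj a` and `b' conj a'`
    have hre : (b * conj a).re = (b' * conj a').re := by
      simp only [Complex.mul_re, Complex.conj_re, Complex.conj_im]
      nlinarith
    have hns : Complex.normSq (b * conj a) = Complex.normSq (b' * conj a') := by
      rw [Complex.normSq_mul, Complex.normSq_mul, Complex.normSq_conj, Complex.normSq_conj,
        Complex.normSq_eq_norm_sq, Complex.normSq_eq_norm_sq, Complex.normSq_eq_norm_sq,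
        Complex.normSq_eq_norm_sq, h1, h2]
    have him : (b * conj a).im = (b' * conj a').im ∨ (b * conj a).im = -(b' * conj a').im := by
      rw [Complex.normSq_apply, Complex.normSq_apply, hre] at hns
      have : (b * conj a).im ^ 2 = (b' * conj a').im ^ 2 := by nlinarith
      exact sq_eq_sq_iff_eq_or_eq_neg.mp this
    rcases him with him | him
    · have hc : b * conj a = b' * conj a' := Complex.ext hre him
      refine ⟨a' / a, ?_, Or.inl ⟨?_, ?_⟩⟩
      · rw [norm_div, ← h1, div_self (norm_ne_zero_iff.mpr ha)]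
      · rw [div_mul_cancel₀ _ ha]
      · field_simp
        apply mul_right_cancel₀ hca'
        linear_combination a * (-hc) - b * e1
    · have hc : b * conj a = conj (b' * conj a') := by
        apply Complex.ext
        · rw [Complex.conj_re, hre]
        · rw [Complex.conj_im, him]
      have hc' : conj b * a = b' * conj a' := by
        have := congrArg conj hc
        simpa using this
      refine ⟨a' / conj a, ?_, Or.inr ⟨?_, ?_⟩⟩
      · rw [norm_div, Complex.norm_conj, ← h1, div_self (norm_ne_zero_iff.mpr ha)]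
      · rw [div_mul_cancel₀ _ hca]
      · field_simp
        apply mul_right_cancel₀ hca'
        linear_combination (conj a) * (-hc') - (conj b) * e1

theorem M3_conj (T : ℝ) (B : Set Tor) (p q r : ℂ) :
    M3 T B (conj p) (conj q) (conj r) = M3 T B p q r := by
  simp only [M3, Complex.conj_conj]
  ring

theorem M3_trans (h : TriStmt) (T : ℝ) (B : Set Tor) (hB : MeasurableSet B) (p q r v : ℂ) :
    M3 T B (p + v) (q + v) (r + v) = M3 T B p q r := by
  simp only [M3, map_add]
  rw [(h T B hB).2.1, (h T B hB).2.1]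

theorem M3_rot (h : TriStmt) (T : ℝ) (B : Set Tor) (hB : MeasurableSet B) (p q r u : ℂ) (hu : ‖u‖ = 1) :
    M3 T B (u * p) (u * q) (u * r) = M3 T B p q r := by
  obtain ⟨ψ, hψ⟩ := exists_uu u hu
  obtain ⟨ψ', hψ'⟩ := exists_uu (conj u) (by rw [Complex.norm_conj, hu])
  simp only [M3, map_mul]
  rw [hψ', hψ, (h T B hB).2.2.1, (h T B hB).2.2.1]

end Cong_aux

open Cong_aux in
theorem congStmt : CongStmt := by
  intro h T B hB p q r p' q' r' h1 h2 h3
  have e1 : M3 T B p q r = M3 T B 0 (q - p) (r - p) := by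
    rw [← M3_trans h T B hB p q r (-p)]
    simp only [add_neg_cancel, sub_eq_add_neg]
  have e2 : M3 T B p' q' r' = M3 T B 0 (q' - p') (r' - p') := by
    rw [← M3_trans h T B hB p' q' r' (-p')]
    simp only [add_neg_cancel, sub_eq_add_neg]
  obtain ⟨u, hu, hh⟩ := geo (q - p) (r - p) (q' - p') (r' - p')
    (by rw [norm_sub_rev, h1, norm_sub_rev]) (by rw [norm_sub_rev, h2, norm_sub_rev])
    (by rw [sub_sub_sub_cancel_right, sub_sub_sub_cancel_right, h3])
  rcases hh with ⟨hq, hr⟩ | ⟨hq, hr⟩
  · rw [e1, e2, hq, hr, ← M3_rot h T B hB 0 (q - p) (r - p) u hu, mul_zero]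
  · rw [e1, e2, hq, hr, ← M3_conj T B 0 (q - p) (r - p), map_zero,
      ← M3_rot h T B hB 0 (conj (q - p)) (conj (r - p)) u hu, mul_zero]

end Dadc30.Rec
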