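import Pool.Agent.Lib.MP_dadc30_coR.Defs

set_option autoImplicit false

/-!
# Mos: norms in the Moser lattice
-/

open MeasureTheory Filter Topology
open scoped Real ComplexConjugate

namespace Dadc30.Rec

namespace Mos_aux

theorem norm_form (a b c d : ℤ) :
    6 * ‖pt a b c d‖ ^ 2 = nN a b c d + nM a b c d * √33 := by
  have e1 : √(3 : ℝ) ^ 2 = 3 := Real.sq_sqrt (by norm_num)
  have e2 : √(11 : ℝ) ^ 2 = 11 := Real.sq_sqrt (by norm_num)
  have e3 : √(33 : ℝ) = √3 * √11 := by
    rw [← Real.sqrt_mul (by norm_num)]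
    norm_num
  have hre : (pt a b c d).re = a + b / 2 + 5 * c / 6 + d * (5 - √3 * √11) / 12 := by
    simp only [pt, w1, w3, Complex.add_re, Complex.mul_re, Complex.mul_im, Complex.intCast_re,
      Complex.intCast_im]
    ring
  have him : (pt a b c d).im = b * √3 / 2 + c * √11 / 6 + d * (√11 + 5 * √3) / 12 := by
    simp only [pt, w1, w3, Complex.add_im, Complex.mul_re, Complex.mul_im, Complex.intCast_re,
      Complex.intCast_im]
    ring
  rw [Complex.sq_norm, Complex.normSq_apply, hre, him, e3]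
  simp only [nN, nM]
  push_cast
  linear_combination (6 * ((d : ℝ) ^ 2 / 144 * √11 ^ 2 + ((b : ℝ) / 2 + 5 * d / 12) ^ 2)) * e1 +
    (6 * ((d : ℝ) ^ 2 / 144 * 3 + ((c : ℝ) / 6 + d / 12) ^ 2)) * e2

theorem irr : Irrational √(33 : ℝ) := by
  have h : Irrational √((33 : ℕ) : ℝ) := by
    rw [irrational_sqrt_natCast_iff]
    rintro ⟨r, hr⟩
    have h1 : r < 6 := by nlinarith
    interval_cases r <;> omega
  exact_mod_cast h

end Mos_aux

open Mos_aux in
theorem mosStmt : MosStmt := by
  refine ⟨norm_form, fun a b c d => ?_⟩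
  have h := norm_form a b c d
  have h0 : 0 ≤ ‖pt a b c d‖ := norm_nonneg _
  constructor
  · intro h1
    rw [h1] at h
    have hM : nM a b c d = 0 := by
      by_contra hM
      have h2 : √(33 : ℝ) = (((6 - nN a b c d : ℤ) : ℚ) / ((nM a b c d : ℤ) : ℚ) : ℚ) := by
        have h3 : ((nM a b c d : ℤ) : ℝ) ≠ 0 := by exact_mod_cast hM
        push_cast
        rw [eq_div_iff h3]
        linarith
      exact irr ⟨_, h2.symm⟩
    refine ⟨?_, hM⟩
    rw [hM] at h
    have h4 : ((nN a b c d : ℤ) : ℝ) = 6 := by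
      push_cast at h ⊢
      linarith
    exact_mod_cast h4
  · rintro ⟨hN, hM⟩
    rw [hN, hM] at h
    have h5 : ‖pt a b c d‖ ^ 2 = 1 := by
      push_cast at h
      linarith
    nlinarith

end Dadc30.Rec
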