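import Pool.Agent.Lib.MP_dadc30_coR.Defs
import Pool.Agent.Lib.MP_dadc30_coG.CS1

set_option linter.all false
set_option autoImplicit false

/-!
# MP_dadc30_co, Theorem R, module Tri: the three point function
-/

open MeasureTheory Filter Topology
open scoped Real ComplexConjugate

namespace Dadc30.Rec

open Dadc30.Gap

namespace Tri_aux

theorem uu_add (φ ψ : ℝ) : uu (φ + ψ) = uu φ * uu ψ := by
  unfold uu
  rw [← Complex.exp_add]
  congr 1
  push_cast
  ring

theorem uu_two_pi : uu (2 * π) = 1 := by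
  unfold uu
  push_cast
  exact Complex.exp_two_pi_mul_I

theorem uu_period (φ : ℝ) : uu (φ + 2 * π) = uu φ := by
  rw [uu_add, uu_two_pi, mul_one]

theorem ind_meas {B : Set Tor} (hB : MeasurableSet B) : Measurable (ind B) :=
  measurable_const.indicator hB

theorem ind_bd (B : Set Tor) (z : Tor) : 0 ≤ ind B z ∧ ind B z ≤ 1 := CS1_ind B z

/-- joint measurability -/
theorem meas1 (T : ℝ) {B : Set Tor} (hB : MeasurableSet B) (s : ℂ) :
    Measurable fun x : ℝ × Tor => ind B (x.2 + prj T (uu x.1 * s)) :=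
  (ind_meas hB).comp (measurable_snd.add ((measurable_prj T).comp
    ((continuous_uu.measurable.comp measurable_fst).mul_const s)))

/-- the average over the torus is measurable in the angle -/
theorem int_of_meas {G : ℝ × Tor → ℝ} (hG : Measurable G) (hb : ∀ x, |G x| ≤ 1) (a b : ℝ) :
    IntervalIntegrable (fun φ => ∫ z, G (φ, z) ∂haarT) volume a b := by
  have h1 : StronglyMeasurable fun φ : ℝ => ∫ z, G (φ, z) ∂haarT :=
    hG.stronglyMeasurable.integral_prod_right'
  have h2 : ∀ φ : ℝ, ‖∫ z, G (φ, z) ∂haarT‖ ≤ 1 := by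
    intro φ
    have h := norm_integral_le_of_norm_le_const (μ := haarT) (f := fun z => G (φ, z)) (C := 1)
      (Eventually.of_forall fun z => hb (φ, z))
    simpa using h
  rw [intervalIntegrable_iff]
  refine Measure.integrableOn_of_bounded (M := 1) ?_ h1.aestronglyMeasurable
    (Eventually.of_forall h2)
  simp [Set.uIoc]

theorem abs_mul3_le {a b c : ℝ} (ha : 0 ≤ a ∧ a ≤ 1) (hb : 0 ≤ b ∧ b ≤ 1) (hc : 0 ≤ c ∧ c ≤ 1) :
    |a * b * c| ≤ 1 := by
  rw [abs_of_nonneg (mul_nonneg (mul_nonneg ha.1 hb.1) hc.1)]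
  exact mul_le_one₀ (mul_le_one₀ ha.2 hb.1 hb.2) hc.1 hc.2

end Tri_aux

open Tri_aux

theorem triStmt : TriStmt := by
  intro T B hB
  refine ⟨fun p q r => ⟨?_, ?_⟩, fun p q r v => ?_, fun p q r ψ => ?_, fun p q r => ?_⟩
  · unfold m3
    congr 1
    funext φ
    refine integral_congr_ae (Eventually.of_forall fun z => ?_)
    show ind B _ * ind B _ * ind B _ = ind B _ * ind B _ * ind B _
    ring
  · unfold m3
    congr 1
    funext φ
    refine integral_congr_ae (Eventually.of_forall fun z => ?_)
    show ind B _ * ind B _ * ind B _ = ind B _ * ind B _ * ind B _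
    ring
  · unfold m3
    congr 1
    funext φ
    rw [← integral_translate (fun z => ind B (z + prj T (uu φ * p)) * ind B (z + prj T (uu φ * q)) *
      ind B (z + prj T (uu φ * r))) (prj T (uu φ * v))]
    refine integral_congr_ae (Eventually.of_forall fun z => ?_)
    have e : ∀ s : ℂ, z + prj T (uu φ * (s + v)) = z + prj T (uu φ * v) + prj T (uu φ * s) := by
      intro s
      rw [mul_add, prj_add]
      abel
    simp only [e]
  · have h := cavg_shift (f := fun φ => ∫ z, ind B (z + prj T (uu φ * p)) *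
      ind B (z + prj T (uu φ * q)) * ind B (z + prj T (uu φ * r)) ∂haarT)
      (fun φ => by simp only [uu_period]) ψ
    unfold m3
    rw [← h]
    congr 1
    funext φ
    have e : ∀ s : ℂ, uu φ * (uu ψ * s) = uu (φ + ψ) * s := by
      intro s
      rw [uu_add, mul_assoc]
    simp only [e]
  · exact int_of_meas (G := fun x : ℝ × Tor => ind B (x.2 + prj T (uu x.1 * p)) *
      ind B (x.2 + prj T (uu x.1 * q)) * ind B (x.2 + prj T (uu x.1 * r)))
      (((meas1 T hB p).mul (meas1 T hB q)).mul (meas1 T hB r))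
      (fun x => abs_mul3_le (ind_bd B _) (ind_bd B _) (ind_bd B _)) 0 (2 * π)

end Dadc30.Rec
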