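import Pool.Agent.Lib.MP_dadc30_coR.Defs
import Pool.Agent.Lib.MP_dadc30_coG.Cor
import Pool.Agent.Lib.MP_dadc30_coG.Cnt
import Pool.Agent.Lib.MP_dadc30_coG.Spe

set_option linter.all false
set_option autoImplicit false

/-!
# MP_dadc30_co, Theorem R, module Two: the two point function of a random copy (helper27)
-/

open MeasureTheory Filter Topology
open scoped Real ComplexConjugate

namespace Dadc30.Rec

open Dadc30.Gap

namespace Two_aux

theorem inner_eq (T : ℝ) (B : Set Tor) (hB : MeasurableSet B) (v w : ℂ) :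
    ∫ z, ind B (z + prj T v) * ind B (z + prj T w) ∂haarT = cor T B (w - v) := by
  have h1 : ∀ z : Tor, ind B (z + prj T v) * ind B (z + prj T w) =
      (fun z => ind B z * ind B (z + prj T (w - v))) (z + prj T v) := by
    intro z
    have h2 : z + prj T v + prj T (w - v) = z + prj T w := by
      rw [add_assoc, ← prj_add, add_sub_cancel]
    simp only [h2]
  simp only [h1]
  rw [integral_translate (fun z => ind B z * ind B (z + prj T (w - v))) (prj T v)]
  have h3 : (fun z : Tor => ind B z * ind B (z + prj T (w - v))) =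
      {z | z ∈ B ∧ z + prj T (w - v) ∈ B}.indicator (fun _ => (1 : ℝ)) := by
    funext z
    unfold ind
    by_cases h4 : z ∈ B
    · by_cases h5 : z + prj T (w - v) ∈ B
      · have h6 : z ∈ {z : Tor | z ∈ B ∧ z + prj T (w - v) ∈ B} := Set.mem_setOf_eq ▸ ⟨h4, h5⟩
        rw [Set.indicator_of_mem h4, Set.indicator_of_mem h5, Set.indicator_of_mem h6, one_mul]
      · rw [Set.indicator_of_notMem h5, mul_zero, Set.indicator_of_notMem]
        exact fun h => h5 h.2
    · rw [Set.indicator_of_notMem h4, zero_mul, Set.indicator_of_notMem]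
      exact fun h => h4 h.1
  rw [h3]
  have hS : MeasurableSet {z : Tor | z ∈ B ∧ z + prj T (w - v) ∈ B} := hB.inter (Cor_meas hB _)
  rw [integral_indicator_const _ hS]
  simp only [smul_eq_mul, mul_one]
  rfl

theorem cor_cont (T : ℝ) (B : Set Tor) (hB : MeasurableSet B) : Continuous (cor T B) := by
  obtain ⟨a, ξ, h⟩ := speStmt T B hB
  exact cntStmt _ a ξ h

end Two_aux

open Two_aux

theorem twoStmt : TwoStmt := by
  intro T B hB
  have hcor := corStmt T B hB
  have hin : ∀ (p q : ℂ) (φ : ℝ), ∫ z, ind B (z + prj T (uu φ * p)) * ind B (z + prj T (uu φ * q)) ∂haarT =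
      cor T B (uu φ * (q - p)) := by
    intro p q φ
    rw [inner_eq T B hB, mul_sub]
  refine ⟨?_, ?_, ?_, ?_⟩
  · unfold F2
    simp only [Complex.ofReal_zero, zero_mul]
    rw [cavg_const]
    exact hcor.1
  · intro hU
    unfold F2
    have h1 : ∀ φ : ℝ, cor T B (((1 : ℝ) : ℂ) * uu φ) = 0 := by
      intro φ
      rw [Complex.ofReal_one, one_mul]
      exact hcor.2.2.2.2.2.2 hU _ (norm_uu φ)
    simp only [h1]
    exact cavg_const 0
  · intro p q
    simp only [hin]
    set ρ : ℝ := ‖p - q‖ with hρ
    set ψ : ℝ := Complex.arg (q - p) with hψ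
    have h1 : q - p = (ρ : ℂ) * uu ψ := by
      have h2 := Complex.norm_mul_exp_arg_mul_I (q - p)
      rw [hρ, norm_sub_rev, uu]
      exact h2.symm
    have huu : ∀ a b : ℝ, uu (a + b) = uu a * uu b := by
      intro a b
      unfold uu
      rw [← Complex.exp_add]
      congr 1
      push_cast
      ring
    have h2pi : ∀ a : ℝ, uu (a + 2 * π) = uu a := by
      intro a
      unfold uu
      have : ((a + 2 * π : ℝ) : ℂ) * Complex.I = (a : ℂ) * Complex.I + 2 * (π : ℂ) * Complex.I := by
        push_cast
        ring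
      rw [this]
      exact Complex.exp_periodic _
    have h3 : ∀ φ : ℝ, cor T B (uu φ * (q - p)) = (fun φ => cor T B ((ρ : ℂ) * uu φ)) (φ + ψ) := by
      intro φ
      show cor T B (uu φ * (q - p)) = cor T B ((ρ : ℂ) * uu (φ + ψ))
      rw [h1, huu]
      congr 1
      ring
    simp only [h3]
    have h4 := cavg_shift (f := fun φ => cor T B ((ρ : ℂ) * uu φ)) (fun φ => by
      show cor T B ((ρ : ℂ) * uu (φ + 2 * π)) = cor T B ((ρ : ℂ) * uu φ)
      rw [h2pi]) ψ
    exact h4
  · intro p q
    simp only [hin]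
    have h1 : Continuous fun φ : ℝ => cor T B (uu φ * (q - p)) :=
      (cor_cont T B hB).comp (continuous_uu.mul continuous_const)
    exact h1.intervalIntegrable _ _

end Dadc30.Rec
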