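import Pool.Agent.Lib.MP_dadc30_coR.Blk
import Pool.Agent.Lib.MP_dadc30_coR.Cong
import Pool.Agent.Lib.MP_dadc30_coR.Mos
import Pool.Agent.Lib.MP_dadc30_coR.Two
import Pool.Agent.Lib.MP_dadc30_coR.Tri

set_option linter.all false

/-!
# MP_dadc30_co, Theorem R: grouping of the pairs and triples of a patch by congruence classes
-/

open MeasureTheory Filter Topology
open scoped Real ComplexConjugate

namespace Dadc30.Rec

open Dadc30.Gap

/-! ## A. Computable functions -/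

/-- lattice coordinates -/
abbrev Lp := ℤ × ℤ × ℤ × ℤ

/-- `nN` without powers (quick in the kernel) -/
def nf (a b c d : ℤ) : ℤ := 6 * (a * a + a * b + b * b + c * c + c * d + d * d) +
  10 * (a * c + b * d) + 5 * (b * c + a * d)

/-- rational part of six times the squared distance -/
def kN (p q : Lp) : ℤ := nf (p.1 - q.1) (p.2.1 - q.2.1) (p.2.2.1 - q.2.2.1) (p.2.2.2 - q.2.2.2)

/-- coefficient of `√33` -/
def kM (p q : Lp) : ℤ := nM (p.1 - q.1) (p.2.1 - q.2.1) (p.2.2.1 - q.2.2.1) (p.2.2.2 - q.2.2.2)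

/-- code of the distance -/
def kd (p q : Lp) : ℕ := (kN p q * 64 + kM p q + 32).toNat

/-- the code is faithful -/
def okd (p q : Lp) : Bool := decide (0 ≤ kN p q) && decide (kN p q < 64) &&
  decide (0 ≤ kM p q + 32) && decide (kM p q + 32 < 64)

/-- all codes are faithful -/
def okP (L : List Lp) : Bool := L.all fun p => L.all fun q => okd p q

/-- code of a sorted triple of distances -/
def srt (a b c : ℕ) : ℕ :=
  bif Nat.ble a b then
    (bif Nat.ble b c then (a * 4096 + b) * 4096 + c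
      else bif Nat.ble a c then (a * 4096 + c) * 4096 + b else (c * 4096 + a) * 4096 + b)
  else
    (bif Nat.ble a c then (b * 4096 + a) * 4096 + c
      else bif Nat.ble b c then (b * 4096 + c) * 4096 + a else (c * 4096 + b) * 4096 + a)

/-- code of the congruence class of a triple of points -/
def k3 (p q r : Lp) : ℕ := srt (kd p q) (kd p r) (kd q r)

/-- addition of two sparse vectors (sorted by the key) -/
def mrg : ℕ → List (ℕ × ℤ) → List (ℕ × ℤ) → List (ℕ × ℤ)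
  | 0, a, b => a ++ b
  | _ + 1, [], b => b
  | _ + 1, x :: a, [] => x :: a
  | n + 1, x :: a, y :: b =>
    bif Nat.ble x.1 y.1 then
      (bif Nat.ble y.1 x.1 then (x.1, x.2 + y.2) :: mrg n a b else x :: mrg n a (y :: b))
    else y :: mrg n (x :: a) b

/-- one round of the merge sort -/
def prs (f : ℕ) : List (List (ℕ × ℤ)) → List (List (ℕ × ℤ))
  | a :: b :: r => mrg f a b :: prs f r
  | r => r

/-- `n` rounds -/
def rnd (f : ℕ) : ℕ → List (List (ℕ × ℤ)) → List (List (ℕ × ℤ))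
  | 0, L => L
  | n + 1, L => rnd f n (prs f L)

/-- sum of all entries, grouped by the key, without zeros -/
def grp (f n : ℕ) (L : List (ℕ × ℤ)) : List (ℕ × ℤ) :=
  ((rnd f n (L.map fun e => [e])).flatten).filter fun e => decide (e.2 ≠ 0)

/-- point number `i` -/
def gp (L : List Lp) (i : ℕ) : Lp := L.getD i (0, 0, 0, 0)

/-- keys of the pairs -/
def ky2 (L : List Lp) (be : List (ℕ × ℕ × ℤ)) : List (ℕ × ℤ) :=
  be.map fun e => (kd (gp L e.1) (gp L e.2.1), e.2.2)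

/-- keys of the triples -/
def ky3 (L : List Lp) (ta : List (ℕ × ℕ × ℕ × ℤ)) : List (ℕ × ℤ) :=
  ta.map fun e => (k3 (gp L e.1) (gp L e.2.1) (gp L e.2.2.1), e.2.2.2)

/-- decoding of a list of `n` entries `(i, j, k, v)` -/
def dT : ℕ → ℕ → List (ℕ × ℕ × ℕ × ℤ)
  | 0, _ => []
  | n + 1, N => (N % 64, N / 64 % 64, N / 4096 % 64, ((N / 262144 % 16777216 : ℕ) : ℤ) - 8388608) ::
      dT n (N / 4398046511104)

/-- decoding of a list of `n` entries `(i, j, v)` -/
def dB : ℕ → ℕ → List (ℕ × ℕ × ℤ)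
  | 0, _ => []
  | n + 1, N => (N % 64, N / 64 % 64, ((N / 4096 % 1099511627776 : ℕ) : ℤ) - 549755813888) ::
      dB n (N / 4503599627370496)

/-! ## B. Sums over keys -/

/-- weighted sum -/
noncomputable def sg (g : ℕ → ℝ) (L : List (ℕ × ℤ)) : ℝ := (L.map fun e => (e.2 : ℝ) * g e.1).sum

theorem sg_nil (g : ℕ → ℝ) : sg g [] = 0 := rfl

theorem sg_cons (g : ℕ → ℝ) (e : ℕ × ℤ) (L : List (ℕ × ℤ)) :
    sg g (e :: L) = (e.2 : ℝ) * g e.1 + sg g L := by simp [sg]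

theorem sg_append (g : ℕ → ℝ) (L M : List (ℕ × ℤ)) : sg g (L ++ M) = sg g L + sg g M := by
  simp [sg, List.sum_append]

theorem ble_t {a b : ℕ} (h : a ≤ b) : Nat.ble a b = true := by rw [Nat.ble_eq]; exact h

theorem ble_f {a b : ℕ} (h : ¬ a ≤ b) : Nat.ble a b = false := by
  rw [← Bool.not_eq_true, Nat.ble_eq]; exact h

theorem sg_mrg (g : ℕ → ℝ) : ∀ (n : ℕ) (a b : List (ℕ × ℤ)), sg g (mrg n a b) = sg g a + sg g b
  | 0, a, b => by rw [mrg, sg_append]
  | n + 1, [], b => by simp [mrg, sg_nil]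
  | n + 1, x :: a, [] => by simp [mrg, sg_nil]
  | n + 1, x :: a, y :: b => by
    rw [mrg]
    by_cases h1 : x.1 ≤ y.1
    · have h1' := ble_t h1
      rw [h1', cond_true]
      by_cases h2 : y.1 ≤ x.1
      · have h2' := ble_t h2
        have h3 : x.1 = y.1 := le_antisymm h1 h2
        rw [h2', cond_true, sg_cons, sg_mrg g n, sg_cons, sg_cons, ← h3]
        push_cast; ring
      · have h2' := ble_f h2
        rw [h2', cond_false, sg_cons, sg_mrg g n, sg_cons, sg_cons]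
        ring
    · have h1' := ble_f h1
      rw [h1', cond_false, sg_cons, sg_mrg g n, sg_cons, sg_cons]
      ring

theorem sg_prs (g : ℕ → ℝ) (f : ℕ) : ∀ L : List (List (ℕ × ℤ)),
    sg g (prs f L).flatten = sg g L.flatten
  | [] => rfl
  | [a] => rfl
  | a :: b :: r => by
    rw [prs, List.flatten_cons, List.flatten_cons, List.flatten_cons, sg_append, sg_append,
      sg_append, sg_mrg, sg_prs g f r]
    ring

theorem sg_rnd (g : ℕ → ℝ) (f : ℕ) : ∀ (n : ℕ) (L : List (List (ℕ × ℤ))),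
    sg g (rnd f n L).flatten = sg g L.flatten
  | 0, L => rfl
  | n + 1, L => by rw [rnd, sg_rnd g f n, sg_prs]

theorem sg_filter (g : ℕ → ℝ) : ∀ L : List (ℕ × ℤ),
    sg g (L.filter fun e => decide (e.2 ≠ 0)) = sg g L
  | [] => rfl
  | e :: L => by
    by_cases h : e.2 = 0
    · rw [List.filter_cons_of_neg (by simpa using h), sg_cons, sg_filter g L, h]
      simp
    · rw [List.filter_cons_of_pos (by simpa using h), sg_cons, sg_cons, sg_filter g L]

theorem sg_grp (g : ℕ → ℝ) (f n : ℕ) (L : List (ℕ × ℤ)) : sg g (grp f n L) = sg g L := by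
  rw [grp, sg_filter, sg_rnd]
  congr 1
  induction L with
  | nil => rfl
  | cons e L ih => rw [List.map_cons, List.flatten_cons, ih]; rfl

/-! ## C. Geometry of the keys -/

/-- the point of the plane -/
noncomputable def ptL (p : Lp) : ℂ := pt p.1 p.2.1 p.2.2.1 p.2.2.2

/-- the distance belonging to a code -/
noncomputable def rd (κ : ℕ) : ℝ := √((((κ / 64 : ℕ) : ℝ) + (((κ % 64 : ℕ) : ℝ) - 32) * √33) / 6)

theorem ptL_sub (p q : Lp) : ptL p - ptL q =
    pt (p.1 - q.1) (p.2.1 - q.2.1) (p.2.2.1 - q.2.2.1) (p.2.2.2 - q.2.2.2) := by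
  unfold ptL pt
  push_cast
  ring

theorem nf_eq (a b c d : ℤ) : nf a b c d = nN a b c d := by unfold nf nN; ring

theorem kN_comm (p q : Lp) : kN p q = kN q p := by unfold kN nf; ring

theorem kM_comm (p q : Lp) : kM p q = kM q p := by unfold kM nM; ring

theorem kd_comm (p q : Lp) : kd p q = kd q p := by rw [kd, kd, kN_comm, kM_comm]

theorem okd_iff (p q : Lp) : okd p q = true ↔
    (0 ≤ kN p q ∧ kN p q < 64 ∧ 0 ≤ kM p q + 32 ∧ kM p q + 32 < 64) := by
  simp only [okd, Bool.and_eq_true, decide_eq_true_eq]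
  tauto

theorem kd_lt {p q : Lp} (h : okd p q = true) : kd p q < 4096 := by
  obtain ⟨h1, h2, h3, h4⟩ := (okd_iff p q).1 h
  unfold kd
  omega

theorem norm_eq_rd {p q : Lp} (h : okd p q = true) : ‖ptL p - ptL q‖ = rd (kd p q) := by
  obtain ⟨h1, h2, h3, h4⟩ := (okd_iff p q).1 h
  have hm := mosStmt.1 (p.1 - q.1) (p.2.1 - q.2.1) (p.2.2.1 - q.2.2.1) (p.2.2.2 - q.2.2.2)
  rw [← ptL_sub, ← nf_eq] at hm
  change 6 * ‖ptL p - ptL q‖ ^ 2 = (kN p q : ℝ) + (kM p q : ℝ) * √33 at hm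
  have e1 : ((kd p q / 64 : ℕ) : ℤ) = kN p q := by unfold kd; omega
  have e2 : ((kd p q % 64 : ℕ) : ℤ) = kM p q + 32 := by unfold kd; omega
  have e1' : ((kd p q / 64 : ℕ) : ℝ) = (kN p q : ℝ) := by rw [← e1, Int.cast_natCast]
  have e2' : ((kd p q % 64 : ℕ) : ℝ) = (kM p q : ℝ) + 32 := by
    have h : (((kd p q % 64 : ℕ) : ℤ) : ℝ) = ((kM p q + 32 : ℤ) : ℝ) := by rw [e2]
    rw [Int.cast_natCast] at h
    rw [h]; push_cast; ring
  rw [rd, e1', e2']
  have : ((kN p q : ℝ) + ((kM p q : ℝ) + 32 - 32) * √33) / 6 = ‖ptL p - ptL q‖ ^ 2 := by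
    linarith
  rw [this, Real.sqrt_sq (norm_nonneg _)]

/-- two codes -/
theorem srt_cases (a b c : ℕ) :
    (srt a b c = (a * 4096 + b) * 4096 + c ∧ a ≤ b ∧ b ≤ c) ∨
    (srt a b c = (a * 4096 + c) * 4096 + b ∧ a ≤ c ∧ c ≤ b) ∨
    (srt a b c = (c * 4096 + a) * 4096 + b ∧ c ≤ a ∧ a ≤ b) ∨
    (srt a b c = (b * 4096 + a) * 4096 + c ∧ b ≤ a ∧ a ≤ c) ∨
    (srt a b c = (b * 4096 + c) * 4096 + a ∧ b ≤ c ∧ c ≤ a) ∨
    (srt a b c = (c * 4096 + b) * 4096 + a ∧ c ≤ b ∧ b ≤ a) := by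
  unfold srt
  by_cases h1 : a ≤ b
  · by_cases h2 : b ≤ c
    · left; rw [ble_t h1, ble_t h2]; exact ⟨rfl, h1, h2⟩
    · by_cases h3 : a ≤ c
      · right; left; rw [ble_t h1, ble_f h2, ble_t h3]; exact ⟨rfl, h3, by omega⟩
      · right; right; left; rw [ble_t h1, ble_f h2, ble_f h3]; exact ⟨rfl, by omega, h1⟩
  · by_cases h2 : a ≤ c
    · right; right; right; left; rw [ble_f h1, ble_t h2]; exact ⟨rfl, by omega, h2⟩
    · by_cases h3 : b ≤ c
      · right; right; right; right; left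
        rw [ble_f h1, ble_f h2, ble_t h3]; exact ⟨rfl, h3, by omega⟩
      · right; right; right; right; right
        rw [ble_f h1, ble_f h2, ble_f h3]; exact ⟨rfl, by omega, by omega⟩

/-- symmetry of `M3` -/
theorem M3_perm (T : ℝ) (B : Set Tor) (hB : MeasurableSet B) (p q r : ℂ) :
    M3 T B p q r = M3 T B q p r ∧ M3 T B p q r = M3 T B p r q := by
  have h := (triStmt T B hB).1
  unfold M3
  refine ⟨?_, ?_⟩
  · rw [(h p q r).1, (h (conj p) (conj q) (conj r)).1]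
  · rw [(h p q r).2, (h (conj p) (conj q) (conj r)).2]

/-- every triple has a sorted version -/
theorem sorted_version (T : ℝ) (B : Set Tor) (hB : MeasurableSet B) (L : List Lp)
    (hL : okP L = true) (p q r : Lp) (hp : p ∈ L) (hq : q ∈ L) (hr : r ∈ L) :
    ∃ s ∈ L, ∃ t ∈ L, ∃ u ∈ L, M3 T B (ptL p) (ptL q) (ptL r) = M3 T B (ptL s) (ptL t) (ptL u) ∧
      k3 p q r = (kd s t * 4096 + kd s u) * 4096 + kd t u := by
  have hs := fun p q r => M3_perm T B hB p q r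
  rcases srt_cases (kd p q) (kd p r) (kd q r) with h | h | h | h | h | h
  · exact ⟨p, hp, q, hq, r, hr, rfl, h.1⟩
  · exact ⟨q, hq, p, hp, r, hr, (hs _ _ _).1, by rw [k3, h.1, kd_comm q p]⟩
  · refine ⟨q, hq, r, hr, p, hp, ?_, ?_⟩
    · rw [(hs (ptL p) _ _).1, (hs (ptL q) _ _).2]
    · rw [k3, h.1, kd_comm q p, kd_comm r p]
  · refine ⟨p, hp, r, hr, q, hq, (hs _ _ _).2, ?_⟩
    rw [k3, h.1, kd_comm r q]
  · refine ⟨r, hr, p, hp, q, hq, ?_, ?_⟩
    · rw [(hs (ptL p) _ _).2, (hs (ptL p) _ _).1]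
    · rw [k3, h.1, kd_comm r p, kd_comm r q]
  · refine ⟨r, hr, q, hq, p, hp, ?_, ?_⟩
    · rw [(hs (ptL p) _ _).1, (hs (ptL q) _ _).2, (hs (ptL q) _ _).1]
    · rw [k3, h.1, kd_comm r q, kd_comm r p, kd_comm q p]

theorem okP_mem {L : List Lp} (hL : okP L = true) {p q : Lp} (hp : p ∈ L) (hq : q ∈ L) :
    okd p q = true := by
  rw [okP, List.all_eq_true] at hL
  have := hL p hp
  rw [List.all_eq_true] at this
  exact this q hq

/-- `M3` only depends on the code of the class -/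
theorem M3_class (T : ℝ) (B : Set Tor) (hB : MeasurableSet B) (L : List Lp)
    (hL : okP L = true) (p q r p' q' r' : Lp) (hp : p ∈ L) (hq : q ∈ L) (hr : r ∈ L)
    (hp' : p' ∈ L) (hq' : q' ∈ L) (hr' : r' ∈ L) (hk : k3 p q r = k3 p' q' r') :
    M3 T B (ptL p) (ptL q) (ptL r) = M3 T B (ptL p') (ptL q') (ptL r') := by
  obtain ⟨s, hs, t, ht, u, hu, e1, e2⟩ := sorted_version T B hB L hL p q r hp hq hr
  obtain ⟨s', hs', t', ht', u', hu', e1', e2'⟩ := sorted_version T B hB L hL p' q' r' hp' hq' hr'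
  rw [e1, e1']
  have a1 := kd_lt (okP_mem hL hs hu)
  have a2 := kd_lt (okP_mem hL ht hu)
  have b1 := kd_lt (okP_mem hL hs' hu')
  have b2 := kd_lt (okP_mem hL ht' hu')
  have hk' := (e2.symm.trans hk).trans e2'
  have c1 : kd s t = kd s' t' := by omega
  have c2 : kd s u = kd s' u' := by omega
  have c3 : kd t u = kd t' u' := by omega
  refine congStmt triStmt T B hB _ _ _ _ _ _ ?_ ?_ ?_
  · rw [norm_eq_rd (okP_mem hL hs ht), norm_eq_rd (okP_mem hL hs' ht'), c1]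
  · rw [norm_eq_rd (okP_mem hL hs hu), norm_eq_rd (okP_mem hL hs' hu'), c2]
  · rw [norm_eq_rd (okP_mem hL ht hu), norm_eq_rd (okP_mem hL ht' hu'), c3]

open Classical in
/-- value of `M3` on a class -/
noncomputable def gM (T : ℝ) (B : Set Tor) (L : List Lp) (κ : ℕ) : ℝ :=
  if h : ∃ t : Lp × Lp × Lp, t.1 ∈ L ∧ t.2.1 ∈ L ∧ t.2.2 ∈ L ∧ k3 t.1 t.2.1 t.2.2 = κ then
    M3 T B (ptL h.choose.1) (ptL h.choose.2.1) (ptL h.choose.2.2) else 0

theorem M3_eq_gM (T : ℝ) (B : Set Tor) (hB : MeasurableSet B) (L : List Lp)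
    (hL : okP L = true) (p q r : Lp) (hp : p ∈ L) (hq : q ∈ L) (hr : r ∈ L) :
    M3 T B (ptL p) (ptL q) (ptL r) = gM T B L (k3 p q r) := by
  have h : ∃ t : Lp × Lp × Lp, t.1 ∈ L ∧ t.2.1 ∈ L ∧ t.2.2 ∈ L ∧ k3 t.1 t.2.1 t.2.2 = k3 p q r :=
    ⟨(p, q, r), hp, hq, hr, rfl⟩
  rw [gM, dif_pos h]
  obtain ⟨h1, h2, h3, h4⟩ := h.choose_spec
  exact M3_class T B hB L hL _ _ _ _ _ _ hp hq hr h1 h2 h3 h4.symm

theorem gp_mem {L : List Lp} (h0 : (0, 0, 0, 0) ∈ L) (i : ℕ) : gp L i ∈ L := by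
  unfold gp
  rcases lt_or_ge i L.length with h | h
  · rw [List.getD_eq_getElem _ _ h]; exact List.getElem_mem h
  · rw [List.getD_eq_default _ _ h]; exact h0

theorem sB_eq (T : ℝ) (B : Set Tor) (L : List Lp) (hL : okP L = true) (h0 : (0, 0, 0, 0) ∈ L) :
    ∀ be : List (ℕ × ℕ × ℤ), sB be (fun i j => F2 T B ‖ptL (gp L i) - ptL (gp L j)‖) =
      sg (fun κ => F2 T B (rd κ)) (ky2 L be)
  | [] => rfl
  | e :: be => by
    have ih := sB_eq T B L hL h0 be
    unfold sB ky2 at *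
    rw [List.map_cons, List.sum_cons, List.map_cons, sg_cons, ih]
    simp only [norm_eq_rd (okP_mem hL (gp_mem h0 _) (gp_mem h0 _))]

theorem sT_eq (T : ℝ) (B : Set Tor) (hB : MeasurableSet B) (L : List Lp) (hL : okP L = true)
    (h0 : (0, 0, 0, 0) ∈ L) : ∀ ta : List (ℕ × ℕ × ℕ × ℤ),
    sT ta (fun i j k => M3 T B (ptL (gp L i)) (ptL (gp L j)) (ptL (gp L k))) =
      sg (gM T B L) (ky3 L ta)
  | [] => rfl
  | e :: ta => by
    have ih := sT_eq T B hB L hL h0 ta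
    unfold sT ky3 at *
    rw [List.map_cons, List.sum_cons, List.map_cons, sg_cons, ih]
    simp only [M3_eq_gM T B hB L hL _ _ _ (gp_mem h0 _) (gp_mem h0 _) (gp_mem h0 _)]

theorem sA_const (δ : ℝ) : ∀ al : List (ℕ × ℤ),
    sA al (fun _ => δ) = (((al.map fun e => e.2).sum : ℤ) : ℝ) * δ
  | [] => by simp [sA]
  | e :: al => by
    have ih := sA_const δ al
    unfold sA at *
    rw [List.map_cons, List.sum_cons, List.map_cons, List.sum_cons, ih]
    push_cast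
    ring

/-- THE INEQUALITY OF A PATCH. -/
theorem patch (L : List Lp) (al : List (ℕ × ℤ)) (be : List (ℕ × ℕ × ℤ))
    (ta : List (ℕ × ℕ × ℕ × ℤ)) (E : List (ℕ × ℕ)) (γ A : ℤ) (VL : List (ℕ × ℤ))
    (f2 n2 f3 n3 : ℕ) (h0 : (0, 0, 0, 0) ∈ L) (hL : okP L = true)
    (hA : (al.map fun e => e.2).sum = A) (hB : grp f2 n2 (ky2 L be) = VL)
    (hT : grp f3 n3 (ky3 L ta) = [])
    (hE : (E.all fun e => Nat.beq (kd (gp L e.1) (gp L e.2)) 416) = true)
    (hx : ∀ x : ℕ → ℝ, (∀ i, x i = 0 ∨ x i = 1) → (∀ e ∈ E, x e.1 * x e.2 = 0) →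
      sA al x + sB be (fun i j => x i * x j) + sT ta (fun i j k => x i * x j * x k) ≤ γ)
    (T : ℝ) (B : Set Tor) (hBm : MeasurableSet B) (hU : UF T B) :
    (A : ℝ) * (haarT B).toReal + sg (fun κ => F2 T B (rd κ)) VL ≤ γ := by
  have h := blkStmt twoStmt triStmt T B hBm hU (fun i => ptL (gp L i)) al be ta γ ?_
  · rw [sB_eq T B L hL h0, sT_eq T B hBm L hL h0, sA_const, hA,
      ← sg_grp _ f2 n2 (ky2 L be), hB, ← sg_grp _ f3 n3 (ky3 L ta), hT, sg_nil, add_zero] at h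
    exact h
  · intro x hx1 hx2
    refine hx x hx1 fun e he => hx2 _ _ ?_
    rw [List.all_eq_true] at hE
    have h1 := Nat.eq_of_beq_eq_true (hE e he)
    have h2 := norm_eq_rd (okP_mem hL (gp_mem h0 e.1) (gp_mem h0 e.2))
    rw [h2, h1, rd]
    norm_num

end Dadc30.Rec
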