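import Pool.Agent.Lib.MP_dadc30_coR.Defs

/-!
# MODULE JTail: explicit decay of `J`
-/

set_option autoImplicit false
set_option linter.all false

open MeasureTheory Filter Topology
open scoped Real ComplexConjugate

namespace Dadc30.Rec

open Dadc30.Gap

namespace JTail_aux

/-- the energy of `√x J` -/
noncomputable def G (x : ℝ) : ℝ :=
  x * (Jn 1 x ^ 2 + Jn 0 x ^ 2) + Jn 0 x * Jn 1 x + Jn 0 x ^ 2 / (2 * x)

theorem hasDerivAt_G (hder : ∀ n x, HasDerivAt (Jn n) (Jn (n + 1) x) x)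
    (hode : ∀ x, x * Jn 2 x + Jn 1 x + x * Jn 0 x = 0) {t : ℝ} (ht : 0 < t) :
    HasDerivAt G (-(Jn 0 t ^ 2 / (2 * t ^ 2))) t := by
  have d0 : HasDerivAt (Jn 0) (Jn 1 t) t := hder 0 t
  have d1 : HasDerivAt (Jn 1) (Jn 2 t) t := hder 1 t
  have hid : HasDerivAt (fun x : ℝ => x) 1 t := hasDerivAt_id t
  have hne : 2 * t ≠ 0 := by positivity
  have e1 : HasDerivAt (fun x => x * (Jn 1 x ^ 2 + Jn 0 x ^ 2))
      (1 * (Jn 1 t ^ 2 + Jn 0 t ^ 2) + t * ((2 : ℕ) * Jn 1 t ^ (2 - 1) * Jn 2 t +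
        (2 : ℕ) * Jn 0 t ^ (2 - 1) * Jn 1 t)) t :=
    hid.mul ((d1.pow 2).add (d0.pow 2))
  have e2 : HasDerivAt (fun x => Jn 0 x * Jn 1 x) (Jn 1 t * Jn 1 t + Jn 0 t * Jn 2 t) t :=
    d0.mul d1
  have e3 : HasDerivAt (fun x => Jn 0 x ^ 2 / (2 * x))
      (((2 : ℕ) * Jn 0 t ^ (2 - 1) * Jn 1 t * (2 * t) - Jn 0 t ^ 2 * (2 * 1)) / (2 * t) ^ 2) t :=
    (d0.pow 2).div (hid.const_mul 2) hne
  have e := (e1.add e2).add e3
  refine HasDerivAt.congr_deriv (f := G) e ?_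
  have h2 : Jn 2 t = -(Jn 1 t / t) - Jn 0 t := by
    have := hode t
    field_simp
    linarith
  rw [h2]
  push_cast
  field_simp
  ring

theorem le_G {t : ℝ} (ht : 0 < t) : t * Jn 0 t ^ 2 ≤ G t := by
  have h : G t - t * Jn 0 t ^ 2 =
      t * (Jn 1 t + Jn 0 t / (2 * t)) ^ 2 + Jn 0 t ^ 2 / (4 * t) := by
    unfold G
    field_simp
    ring
  have h2 : 0 ≤ t * (Jn 1 t + Jn 0 t / (2 * t)) ^ 2 + Jn 0 t ^ 2 / (4 * t) := by positivity
  linarith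

end JTail_aux

open JTail_aux in
theorem jTailStmt : JTailStmt := by
  intro hD hO x₀ x h0 hx
  obtain ⟨hJ, hder, hbd⟩ := hD
  obtain ⟨hode, _⟩ := hO ⟨hJ, hder, hbd⟩
  have hanti : AntitoneOn G (Set.Icc x₀ x) := by
    refine antitoneOn_of_deriv_nonpos (convex_Icc x₀ x) ?_ ?_ ?_
    · intro t ht
      exact (hasDerivAt_G hder hode (lt_of_lt_of_le h0 ht.1)).continuousAt.continuousWithinAt
    · intro t ht
      rw [interior_Icc] at ht
      exact (hasDerivAt_G hder hode (h0.trans ht.1)).differentiableAt.differentiableWithinAt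
    · intro t ht
      rw [interior_Icc] at ht
      rw [(hasDerivAt_G hder hode (h0.trans ht.1)).deriv]
      have : 0 ≤ Jn 0 t ^ 2 / (2 * t ^ 2) := by positivity
      linarith
  have h1 : G x ≤ G x₀ := hanti ⟨le_rfl, hx⟩ ⟨hx, le_rfl⟩ hx
  have h2 := le_G (lt_of_lt_of_le h0 hx)
  rw [← hJ x, ← hJ x₀]
  exact h2.trans h1

end Dadc30.Rec
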