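import Pool.Agent.Lib.MP_dadc30_coR.Num
import Pool.Agent.Lib.MP_dadc30_coG.Spe
import Pool.Agent.Lib.MP_dadc30_coG.Hsc
import Pool.Agent.Lib.MP_dadc30_coG.Cir

set_option linter.all false

/-!
# MP_dadc30_co, Theorem R, module SpZ: spectral inequality with the mass at the frequency 0
-/

open MeasureTheory Filter Topology
open scoped Real ComplexConjugate

namespace Dadc30.Rec

open Dadc30.Gap

namespace SpZ_aux

/-- the spectral representation with the extra information at the frequency `0` -/
theorem spec0 (T : ℝ) (B : Set Tor) (hB : MeasurableSet B) :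
    ∃ a ξ, Spc (cor T B) a ξ ∧ a 0 = (haarT B).toReal ^ 2 ∧ (T ≠ 0 → ∀ k, k ≠ 0 → ξ k ≠ 0) ∧
      ξ 0 = 0 := by
  set f : Tor → ℂ := B.indicator (fun _ => (1 : ℂ)) with hf
  have hfm : Measurable f := measurable_const.indicator hB
  have hfL : MemLp f 2 haarT := by
    refine MemLp.of_bound hfm.aestronglyMeasurable 1 ?_
    filter_upwards with z
    by_cases hz : z ∈ B <;> simp [hf, hz]
  refine ⟨fun k => ‖Spe_co f k‖ ^ 2, fun k => ((2 * π / T * k 0 : ℝ) : ℂ) +
    ((2 * π / T * k 1 : ℝ) : ℂ) * Complex.I, ⟨fun k => by positivity, fun w => ?_⟩, ?_, ?_, ?_⟩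
  · have hgm : Measurable fun z => f (z + prj T w) := hfm.comp (measurable_add_const _)
    have hgL : MemLp (fun z => f (z + prj T w)) 2 haarT := by
      refine MemLp.of_bound hgm.aestronglyMeasurable 1 ?_
      filter_upwards with z
      by_cases hz : z + prj T w ∈ B <;> simp [hf, hz]
    have h1 := Spe_parseval f _ hfL hgL
    have h2 : (∫ z, conj (f z) * f (z + prj T w) ∂haarT) = (cor T B w : ℂ) := by
      have h3 : ∀ z, conj (f z) * f (z + prj T w) =
          ({z | z ∈ B ∧ z + prj T w ∈ B} : Set Tor).indicator (fun _ => (1 : ℂ)) z := by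
        intro z
        by_cases h1 : z ∈ B <;> by_cases h2 : z + prj T w ∈ B <;>
          simp [hf, h1, h2, Set.indicator_apply]
      simp_rw [h3]
      have hm : MeasurableSet ({z | z ∈ B ∧ z + prj T w ∈ B} : Set Tor) :=
        hB.inter ((measurable_add_const (prj T w)) hB)
      rw [integral_indicator hm, setIntegral_const, cor, measureReal_def]
      simp
    rw [h2] at h1
    have h4 := Complex.hasSum_re h1
    rw [Complex.ofReal_re] at h4
    refine HasSum.congr_fun h4 fun k => ?_
    rw [Spe_co_translate, Spe_mFourier_prj]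
    have h5 : ∀ (c e : ℂ), (conj c * (e * c)).re = ‖c‖ ^ 2 * e.re := by
      intro c e
      have : conj c * (e * c) = ((‖c‖ ^ 2 : ℝ) : ℂ) * e := by
        rw [← Complex.normSq_eq_norm_sq, Complex.normSq_eq_conj_mul_self]
        ring
      rw [this, Complex.re_ofReal_mul]
    rw [h5, Complex.exp_ofReal_mul_I_re]
    congr 2
    simp [ip]
    ring
  · have h0 : Spe_co f 0 = (((haarT B).toReal : ℝ) : ℂ) := by
      unfold Spe_co
      have h1 : (fun z => UnitAddTorus.mFourier (-(0 : Fin 2 → ℤ)) z * f z) = f := by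
        funext z
        rw [neg_zero, UnitAddTorus.mFourier_zero]
        simp
      rw [h1, hf, integral_indicator hB, setIntegral_const, measureReal_def]
      simp
    show ‖Spe_co f 0‖ ^ 2 = _
    rw [h0, Complex.norm_real, Real.norm_eq_abs, sq_abs]
  · intro hT k hk h
    apply hk
    have hc : (2 * π / T : ℝ) ≠ 0 := div_ne_zero (mul_ne_zero two_ne_zero Real.pi_ne_zero) hT
    have hre := congrArg Complex.re h
    have him := congrArg Complex.im h
    simp only [Complex.add_re, Complex.ofReal_re, Complex.mul_re, Complex.ofReal_im, Complex.I_re,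
      Complex.I_im, Complex.zero_re, mul_zero, mul_one, zero_mul, sub_zero, add_zero] at hre
    simp only [Complex.add_im, Complex.ofReal_re, Complex.mul_im, Complex.ofReal_im, Complex.I_re,
      Complex.I_im, Complex.zero_im, mul_zero, mul_one, zero_mul, zero_add, add_zero] at him
    have h0 : k 0 = 0 := by
      rcases mul_eq_zero.1 hre with h | h
      · exact absurd h hc
      · exact_mod_cast h
    have h1 : k 1 = 0 := by
      rcases mul_eq_zero.1 him with h | h
      · exact absurd h hc
      · exact_mod_cast h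
    funext i
    fin_cases i
    · exact h0
    · exact h1
  · simp

theorem J_zero : J 0 = 1 := by
  unfold J
  simp only [zero_mul, Real.cos_zero]
  exact cavg_const 1

/-- `F2` by the spectral representation -/
theorem f2sum (T : ℝ) (B : Set Tor) (a : (Fin 2 → ℤ) → ℝ) (ξ : (Fin 2 → ℤ) → ℂ)
    (h : Spc (cor T B) a ξ) (t : ℝ) : HasSum (fun k => a k * J (t * ‖ξ k‖)) (F2 T B t) := by
  have h0 : HasSum a (cor T B 0) := by
    have := h.2 0
    simpa [ip] using this
  have hc : ∀ k, Continuous fun φ : ℝ => Real.cos (ip (ξ k) (t * uu φ)) := by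
    intro k
    have h : Continuous fun φ : ℝ => (t : ℂ) * uu φ := continuous_const.mul continuous_uu
    unfold ip
    exact Real.continuous_cos.comp ((continuous_const.mul (Complex.continuous_re.comp h)).add
      (continuous_const.mul (Complex.continuous_im.comp h)))
  have h1 := hscStmt a (fun k φ => Real.cos (ip (ξ k) (t * uu φ)))
    (fun φ => cor T B (t * uu φ)) h.1 h0.summable hc
    (fun k φ => Real.abs_cos_le_one _) (fun φ => h.2 (t * uu φ))
  have h2 : ∀ k, cavg (fun φ => Real.cos (ip (ξ k) (t * uu φ))) = J (t * ‖ξ k‖) := by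
    intro k
    have := cirStmt (ξ k) t 0
    simpa using this
  simp only [h2] at h1
  exact h1

theorem listsum (T : ℝ) (B : Set Tor) (a : (Fin 2 → ℤ) → ℝ) (ξ : (Fin 2 → ℤ) → ℂ)
    (h : Spc (cor T B) a ξ) (L : List (ℝ × ℝ)) :
    HasSum (fun k => a k * (L.map fun e => e.1 * J (e.2 * ‖ξ k‖)).sum)
      ((L.map fun e => e.1 * F2 T B e.2).sum) := by
  induction L with
  | nil => simpa using (hasSum_zero : HasSum (fun _ : Fin 2 → ℤ => (0 : ℝ)) 0)
  | cons e L ih =>
    have h1 := ((f2sum T B a ξ h e.2).mul_left e.1).add ih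
    simp only [List.map_cons, List.sum_cons]
    refine HasSum.congr_fun h1 fun k => ?_
    ring

end SpZ_aux

open SpZ_aux in
theorem spZStmt : SpZStmt := by
  intro T B hB hU L y hW hy
  by_cases hT : T = 0
  · have hBe : B = ∅ := by
      rw [Set.eq_empty_iff_forall_notMem]
      intro z hz
      apply hU z hz 1 (by simp)
      have : prj T 1 = 0 := by
        rw [hT]
        funext i
        fin_cases i <;> simp [prj]
      rw [this, add_zero]
      exact hz
    have h2 : ∀ r, F2 T B r = 0 := by
      intro r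
      unfold F2
      have : (fun φ => cor T B (r * uu φ)) = fun _ => 0 := by
        funext φ
        simp [cor, hBe]
      rw [this, cavg_const]
    have h3 : ((L.map fun e => e.1 * F2 T B e.2).sum) = 0 := by
      apply List.sum_eq_zero
      intro x hx
      rw [List.mem_map] at hx
      obtain ⟨e, -, rfl⟩ := hx
      rw [h2, mul_zero]
    rw [h3, hBe]
    simp
  · obtain ⟨a, ξ, hS, ha0, hξ, hξ0⟩ := spec0 T B hB
    have hsum := listsum T B a ξ hS L
    have hW0 : (L.map fun e => e.1 * J (e.2 * ‖ξ 0‖)).sum = (L.map fun e => e.1).sum := by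
      congr 1
      apply List.map_congr_left
      intro e _
      rw [hξ0, norm_zero, mul_zero, J_zero, mul_one]
    have h1 : a 0 * (L.map fun e => e.1 * J (e.2 * ‖ξ 0‖)).sum ≤
        (L.map fun e => e.1 * F2 T B e.2).sum := by
      refine le_hasSum hsum 0 fun k hk => ?_
      exact mul_nonneg (hS.1 k) (hW _ (norm_pos_iff.2 (hξ hT k hk)))
    rw [hW0, ha0] at h1
    have h2 : y * (haarT B).toReal ^ 2 ≤ (haarT B).toReal ^ 2 * (L.map fun e => e.1).sum := by
      rw [mul_comm]
      exact mul_le_mul_of_nonneg_left hy (sq_nonneg _)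
    exact h2.trans h1

end Dadc30.Rec
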