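import Pool.Agent.Lib.MP_dadc30_coR.Num
import Pool.Agent.Lib.MP_dadc30_coR.Grp
import Pool.Agent.Lib.MP_dadc30_coR.SpZ
import Pool.Agent.Lib.MP_dadc30_coR.JTail

set_option linter.all false

/-!
# MP_dadc30_co, Theorem R: assembly of the numerical part
-/

open MeasureTheory Filter Topology
open scoped Real

namespace Dadc30.Rec

open Dadc30.Gap

/-! ## A. Distances -/

/-- `⌊2^100 √33⌋` -/
def s33 : ℤ := 7282098286932598048156515222831

/-- `2^100` -/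
def e100 : ℤ := 1267650600228229401496703205376

theorem s33_le : (s33 : ℝ) ≤ e100 * √33 := by
  have h : (s33 : ℝ) / e100 ≤ √33 := by
    apply Real.le_sqrt_of_sq_le
    unfold s33 e100
    norm_num
  have he : (0 : ℝ) < e100 := by unfold e100; norm_num
  rw [div_le_iff₀ he] at h
  linarith

theorem le_s33 : e100 * √33 ≤ (s33 : ℝ) + 1 := by
  have h : √33 ≤ ((s33 : ℝ) + 1) / e100 := by
    rw [Real.sqrt_le_left (by unfold s33 e100; norm_num)]
    unfold s33 e100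
    norm_num
  have he : (0 : ℝ) < e100 := by unfold e100; norm_num
  rw [le_div_iff₀ he] at h
  linarith

/-- `N` -/
def dN (κ : ℕ) : ℤ := ((Nat.div κ 64 : ℕ) : ℤ)

/-- `M` -/
def dM (κ : ℕ) : ℤ := ((Nat.mod κ 64 : ℕ) : ℤ) - 32

/-- test of one end point `e` of the interval for `2^100 √33` -/
def oke (κ : ℕ) (q e : ℤ) : Bool :=
  decide ((dN κ * e100 + dM κ * e) * Sc ≤ 6 * e100 * (q + 2)) &&
  decide (6 * e100 * (q - 2) ≤ (dN κ * e100 + dM κ * e) * Sc) &&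
  decide (6 * e100 ≤ 144 * (dN κ * e100 + dM κ * e)) &&
  decide (dN κ * e100 + dM κ * e ≤ 24 * e100)

/-- `q` belongs to the distance with the code `κ` -/
def okq (κ : ℕ) (q : ℤ) : Bool := oke κ q s33 && oke κ q (s33 + 1)

theorem oke_iff (κ : ℕ) (q e : ℤ) : oke κ q e = true ↔
    ((dN κ * e100 + dM κ * e) * Sc ≤ 6 * e100 * (q + 2) ∧
    6 * e100 * (q - 2) ≤ (dN κ * e100 + dM κ * e) * Sc ∧
    6 * e100 ≤ 144 * (dN κ * e100 + dM κ * e) ∧ dN κ * e100 + dM κ * e ≤ 24 * e100) := by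
  rw [oke, Bool.and_eq_true, Bool.and_eq_true, Bool.and_eq_true, decide_eq_true_iff,
    decide_eq_true_iff, decide_eq_true_iff, decide_eq_true_iff, and_assoc, and_assoc]

/-- linear interpolation -/
theorem interp {a b c x l u : ℝ} (hl : a * l + b ≤ c) (hu : a * u + b ≤ c) (h1 : l ≤ x)
    (h2 : x ≤ u) : a * x + b ≤ c := by
  rcases le_total 0 a with h | h
  · nlinarith
  · nlinarith

theorem rd_sq (κ : ℕ) (h : 0 ≤ ((dN κ : ℝ) + (dM κ : ℝ) * √33)) :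
    rd κ ^ 2 = ((dN κ : ℝ) + (dM κ : ℝ) * √33) / 6 := by
  have e1 : ((κ / 64 : ℕ) : ℝ) = (dN κ : ℝ) := by unfold dN; rfl
  have e2 : ((κ % 64 : ℕ) : ℝ) - 32 = (dM κ : ℝ) := by unfold dM; push_cast; rfl
  rw [rd, e1, e2, Real.sq_sqrt (by linarith)]

theorem okq_sound {κ : ℕ} {q : ℤ} (h : okq κ q = true) : Dq (rd κ) q := by
  rw [okq, Bool.and_eq_true, oke_iff, oke_iff] at h
  obtain ⟨⟨a1, a2, a3, a4⟩, ⟨b1, b2, b3, b4⟩⟩ := h
  have he : (0 : ℝ) < e100 := by unfold e100; norm_num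
  have hS : (0 : ℝ) < Sc := by unfold Sc; norm_num
  have c1 := (Int.cast_le (R := ℝ)).2 a1
  have c2 := (Int.cast_le (R := ℝ)).2 a2
  have c3 := (Int.cast_le (R := ℝ)).2 a3
  have c4 := (Int.cast_le (R := ℝ)).2 a4
  have d1 := (Int.cast_le (R := ℝ)).2 b1
  have d2 := (Int.cast_le (R := ℝ)).2 b2
  have d3 := (Int.cast_le (R := ℝ)).2 b3
  have d4 := (Int.cast_le (R := ℝ)).2 b4
  push_cast at c1 c2 c3 c4 d1 d2 d3 d4
  have h1 := s33_le
  have h2 := le_s33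
  set N : ℝ := (dN κ : ℝ)
  set M : ℝ := (dM κ : ℝ)
  set E : ℝ := (e100 : ℝ)
  set S : ℝ := (Sc : ℝ)
  set s : ℝ := (s33 : ℝ)
  set r : ℝ := √33
  have g1 : (M * S) * (E * r) + N * E * S ≤ 6 * E * (q + 2) :=
    interp (l := s) (u := s + 1) (by linarith) (by linarith) h1 h2
  have g2 : (-(M * S)) * (E * r) + -(N * E * S) ≤ -(6 * E * (q - 2)) :=
    interp (l := s) (u := s + 1) (by linarith) (by linarith) h1 h2
  have g3 : (-(144 * M)) * (E * r) + -(144 * (N * E)) ≤ -(6 * E) :=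
    interp (l := s) (u := s + 1) (by linarith) (by linarith) h1 h2
  have g4 : M * (E * r) + N * E ≤ 24 * E :=
    interp (l := s) (u := s + 1) (by linarith) (by linarith) h1 h2
  have k1 : (N + M * r) * S ≤ 6 * (q + 2) := by
    have : E * ((N + M * r) * S) ≤ E * (6 * (q + 2)) := by linarith
    exact le_of_mul_le_mul_left this he
  have k2 : 6 * (q - 2) ≤ (N + M * r) * S := by
    have : E * (6 * (q - 2)) ≤ E * ((N + M * r) * S) := by linarith
    exact le_of_mul_le_mul_left this he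
  have k3 : 6 ≤ 144 * (N + M * r) := by
    have : E * 6 ≤ E * (144 * (N + M * r)) := by linarith
    exact le_of_mul_le_mul_left this he
  have k4 : N + M * r ≤ 24 := by
    have : E * (N + M * r) ≤ E * 24 := by linarith
    exact le_of_mul_le_mul_left this he
  have hsq : rd κ ^ 2 = (N + M * r) / 6 := rd_sq κ (by linarith)
  have h0 : 0 ≤ rd κ := Real.sqrt_nonneg _
  refine ⟨?_, ?_, ?_⟩
  · rw [hsq, abs_le]
    constructor
    · linarith
    · linarith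
  · by_contra hc
    push Not at hc
    nlinarith
  · by_contra hc
    push Not at hc
    nlinarith

/-! ## B. The data of the spectral side: triples `(κ, v, q)` -/

/-- distances -/
noncomputable def LD (LQ : List (ℕ × ℤ × ℤ)) : List ℝ := LQ.map fun e => rd e.1

/-- coefficients -/
def LV (LQ : List (ℕ × ℤ × ℤ)) : List ℤ := LQ.map fun e => e.2.1

/-- pairs `(q, v)` -/
def LL (LQ : List (ℕ × ℤ × ℤ)) : List (ℤ × ℤ) := LQ.map fun e => (e.2.2, e.2.1)

/-- all tests of the data -/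
def okL (K : ℤ) (LQ : List (ℕ × ℤ × ℤ)) : Bool :=
  (LQ.all fun e => okq e.1 e.2.2) &&
  decide ((LQ.map fun e => |e.2.1|).sum ≤ 4000000) &&
  decide ((LQ.map fun e => |e.2.1| * (e.2.2 + 2)).sum ≤ K * Sc)

/-- the invariant -/
def Inv (v₀ : ℤ) (LQ : List (ℕ × ℤ × ℤ)) (k : ℕ) (S : List Rc) : Prop :=
  Valid (LD LQ) S ((k : ℝ) / 2) (1 / 2 ^ 30 + ((k : ℝ) - 8) / 2 ^ 32) ∧ qv S = LL LQ ∧ 8 ≤ k ∧
    ∀ t : ℝ, 0 ≤ t → t ≤ (k : ℝ) / 2 → 0 < (v₀ : ℝ) + Wr (LD LQ) (LV LQ) t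

theorem okL_iff (K : ℤ) (LQ : List (ℕ × ℤ × ℤ)) : okL K LQ = true ↔
    ((∀ e ∈ LQ, okq e.1 e.2.2 = true) ∧ (LQ.map fun e => |e.2.1|).sum ≤ 4000000 ∧
    (LQ.map fun e => |e.2.1| * (e.2.2 + 2)).sum ≤ K * Sc) := by
  simp only [okL, Bool.and_eq_true, decide_eq_true_eq, List.all_eq_true]
  tauto

theorem cast_sum_abs : ∀ LQ : List (ℕ × ℤ × ℤ),
    (((LQ.map fun e => |e.2.1|).sum : ℤ) : ℝ) = (LQ.map fun e => |(e.2.1 : ℝ)|).sum
  | [] => by simp
  | e :: LQ => by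
    rw [List.map_cons, List.sum_cons, List.map_cons, List.sum_cons, ← cast_sum_abs LQ]
    push_cast
    rfl

theorem sum_sq_le : ∀ LQ : List (ℕ × ℤ × ℤ), (∀ e ∈ LQ, okq e.1 e.2.2 = true) →
    (LQ.map fun e => |(e.2.1 : ℝ)| * rd e.1 ^ 2 * Sc).sum ≤
      (((LQ.map fun e => |e.2.1| * (e.2.2 + 2)).sum : ℤ) : ℝ)
  | [], _ => by simp
  | e :: LQ, h => by
    have ih := sum_sq_le LQ fun e' he' => h e' (List.mem_cons_of_mem _ he')
    have h1 := (okq_sound (h e List.mem_cons_self)).1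
    rw [abs_le] at h1
    rw [List.map_cons, List.sum_cons, List.map_cons, List.sum_cons]
    push_cast at ih ⊢
    have h2 : |(e.2.1 : ℝ)| * rd e.1 ^ 2 * Sc ≤ |(e.2.1 : ℝ)| * ((e.2.2 : ℝ) + 2) := by
      rw [mul_assoc]
      exact mul_le_mul_of_nonneg_left (by linarith) (abs_nonneg _)
    linarith

theorem sum_mul_right' (c : ℝ) (f : ℕ × ℤ × ℤ → ℝ) : ∀ L : List (ℕ × ℤ × ℤ),
    (L.map fun e => f e * c).sum = (L.map f).sum * c
  | [] => by simp
  | e :: L => by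
    rw [List.map_cons, List.sum_cons, List.map_cons, List.sum_cons, sum_mul_right' c f L]
    ring

theorem forall2_map (P : ℝ → ℤ → Prop) : ∀ LQ : List (ℕ × ℤ × ℤ),
    (∀ e ∈ LQ, P (rd e.1) e.2.2) → List.Forall₂ (fun d (e : ℤ × ℤ) => P d e.1) (LD LQ) (LL LQ)
  | [], _ => List.Forall₂.nil
  | e :: LQ, h => List.Forall₂.cons (h e List.mem_cons_self)
      (forall2_map P LQ fun e' he' => h e' (List.mem_cons_of_mem _ he'))

theorem zip_LL : ∀ LQ : List (ℕ × ℤ × ℤ),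
    (List.zipWith (fun d (e : ℤ × ℤ) => |(e.2 : ℝ)| * d ^ 2) (LD LQ) (LL LQ)) =
      LQ.map fun e => |(e.2.1 : ℝ)| * rd e.1 ^ 2
  | [] => rfl
  | e :: LQ => by
    have := zip_LL LQ
    unfold LD LL at *
    rw [List.map_cons, List.map_cons, List.zipWith_cons_cons, this, List.map_cons]

theorem map_LL (LQ : List (ℕ × ℤ × ℤ)) : ((LL LQ).map fun e => e.2) = LV LQ := by
  unfold LL LV
  rw [List.map_map]
  rfl

/-- start of the induction -/
theorem inv_start (hI : IniStmt) (h1 : Chk1Stmt) (h2 : JDerStmt) (h3 : JOdeStmt) (h4 : JTayStmt)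
    {v₀ K : ℤ} {LQ : List (ℕ × ℤ × ℤ)} {S : List Rc} (hL : okL K LQ = true)
    (hS : ini v₀ K (LL LQ) = some S) : Inv v₀ LQ 8 S := by
  obtain ⟨g1, g2, g3⟩ := (okL_iff K LQ).1 hL
  have hSc : (0 : ℝ) < Sc := by unfold Sc; norm_num
  have e1 : ((LL LQ).map fun e => |(e.2 : ℝ)|).sum ≤ 4 * 10 ^ 6 := by
    have : ((LL LQ).map fun e => |(e.2 : ℝ)|) = LQ.map fun e => |(e.2.1 : ℝ)| := by
      unfold LL; rw [List.map_map]; rfl
    rw [this, ← cast_sum_abs]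
    have := (Int.cast_le (R := ℝ)).2 g2
    push_cast at this ⊢
    linarith
  have e2 : (List.zipWith (fun d (e : ℤ × ℤ) => |(e.2 : ℝ)| * d ^ 2) (LD LQ) (LL LQ)).sum ≤
      (K : ℝ) := by
    rw [zip_LL]
    have := sum_sq_le LQ g1
    rw [sum_mul_right'] at this
    have h5 := (Int.cast_le (R := ℝ)).2 g3
    rw [Int.cast_mul] at h5
    exact le_of_mul_le_mul_right (this.trans h5) hSc
  have h := hI h1 h2 h3 h4 v₀ K (LD LQ) (LL LQ) S
    (forall2_map (fun d q => Dq d q) LQ fun e he => okq_sound (g1 e he)) e1 e2 hS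
  obtain ⟨a1, a2, a3⟩ := h
  refine ⟨?_, a1, le_rfl, ?_⟩
  · have : ((8 : ℕ) : ℝ) / 2 = 4 := by norm_num
    rw [this]
    norm_num
    norm_num at a2
    exact a2
  · intro t ht1 ht2
    rw [← map_LL]
    refine a3 t ht1 ?_
    have : ((8 : ℕ) : ℝ) / 2 = 4 := by norm_num
    linarith

theorem map_abs_qv (S : List Rc) (LQ : List (ℕ × ℤ × ℤ)) (h : qv S = LL LQ) :
    (S.map fun e => |(e.2.1 : ℝ)|) = LQ.map fun e => |(e.2.1 : ℝ)| := by
  have : (S.map fun e => |(e.2.1 : ℝ)|) = (qv S).map fun e => |(e.2 : ℝ)| := by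
    unfold qv; rw [List.map_map]; rfl
  rw [this, h]
  unfold LL; rw [List.map_map]; rfl

theorem map_v_qv (S : List Rc) (LQ : List (ℕ × ℤ × ℤ)) (h : qv S = LL LQ) :
    (S.map fun e => e.2.1) = LV LQ := by
  have : (S.map fun e => e.2.1) = (qv S).map fun e => e.2 := by
    unfold qv; rw [List.map_map]; rfl
  rw [this, h, map_LL]

theorem zip_qv : ∀ (D : List ℝ) (S : List Rc),
    List.zipWith (fun d (e : Rc) => |(e.2.1 : ℝ)| * d ^ 2) D S =
      List.zipWith (fun d (e : ℤ × ℤ) => |(e.2 : ℝ)| * d ^ 2) D (qv S)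
  | [], _ => by simp
  | _ :: _, [] => by simp [qv]
  | d :: D, e :: S => by
    have := zip_qv D S
    unfold qv at *
    rw [List.map_cons, List.zipWith_cons_cons, List.zipWith_cons_cons, this]

/-- induction step -/
theorem inv_step (hR : RunStmt) (h0 : StepStmt) (h1 : Chk1Stmt) (h2 : JDerStmt) (h3 : JOdeStmt)
    (h4 : JEnergyStmt) (h5 : JTayStmt) {v₀ K : ℤ} {LQ : List (ℕ × ℤ × ℤ)} {S S' : List Rc}
    {k n : ℕ} (hL : okL K LQ = true) (hi : Inv v₀ LQ k S) (hn : 0 < n) (hk : k + n ≤ 700)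
    (hS : run v₀ K n k S = some S') : Inv v₀ LQ (k + n) S' := by
  obtain ⟨g1, g2, g3⟩ := (okL_iff K LQ).1 hL
  obtain ⟨i1, i2, i3, i4⟩ := hi
  have hSc : (0 : ℝ) < Sc := by unfold Sc; norm_num
  have e1 : (S.map fun e => |(e.2.1 : ℝ)|).sum ≤ 4 * 10 ^ 6 := by
    rw [map_abs_qv S LQ i2, ← cast_sum_abs]
    have := (Int.cast_le (R := ℝ)).2 g2
    push_cast at this ⊢
    linarith
  have e2 : (List.zipWith (fun d (e : Rc) => |(e.2.1 : ℝ)| * d ^ 2) (LD LQ) S).sum ≤ (K : ℝ) := by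
    rw [zip_qv, i2, zip_LL]
    have := sum_sq_le LQ g1
    rw [sum_mul_right'] at this
    have h5 := (Int.cast_le (R := ℝ)).2 g3
    rw [Int.cast_mul] at h5
    exact le_of_mul_le_mul_right (this.trans h5) hSc
  have k1 : (8 : ℝ) ≤ k := by exact_mod_cast i3
  have k2 : (k : ℝ) + n ≤ 700 := by exact_mod_cast hk
  have e3 : (0 : ℝ) ≤ 1 / 2 ^ 30 + ((k : ℝ) - 8) / 2 ^ 32 := by
    have : (0 : ℝ) ≤ (k : ℝ) - 8 := by linarith
    positivity
  have e4 : 1 / 2 ^ 30 + ((k : ℝ) - 8) / 2 ^ 32 + n / 2 ^ 32 ≤ 1 / 2 ^ 22 := by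
    rw [add_assoc, ← add_div]
    norm_num
    linarith
  obtain ⟨a1, a2, a3⟩ := hR h0 h1 h2 h3 h4 h5 v₀ K n k (LD LQ) S S' _ i3 e3 e4 i1 e1 e2 hS
  refine ⟨?_, a1.trans i2, by omega, ?_⟩
  · have e5 : 1 / 2 ^ 30 + ((k : ℝ) - 8) / 2 ^ 32 + n / 2 ^ 32 =
        1 / 2 ^ 30 + (((k + n : ℕ) : ℝ) - 8) / 2 ^ 32 := by
      push_cast; ring
    rw [← e5]
    push_cast
    exact a2
  · intro t ht1 ht2
    push_cast at ht2
    rcases le_total t ((k : ℝ) / 2) with h | h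
    · exact i4 t ht1 h
    · rw [← map_v_qv S LQ i2]
      exact a3 t h ht2 hn

end Dadc30.Rec
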