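import Pool.Agent.Lib.MP_dadc30_coR.Defs

set_option autoImplicit false
set_option linter.all false

/-!
# MP_dadc30_co, Theorem R, module Blk: the inequality of a finite patch
-/

open MeasureTheory Filter Topology
open scoped Real ComplexConjugate

namespace Dadc30.Rec

open Dadc30.Gap

namespace Blk_aux

/-- integral of a finite linear combination -/
theorem list_int {α : Type*} [MeasurableSpace α] {μ : Measure α} {ι : Type*} (l : List ι)
    (w : ι → ℝ) (f : ι → α → ℝ) (hf : ∀ e, Integrable (f e) μ) :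
    Integrable (fun z => (l.map fun e => w e * f e z).sum) μ ∧
      ∫ z, (l.map fun e => w e * f e z).sum ∂μ = (l.map fun e => w e * ∫ z, f e z ∂μ).sum := by
  induction l with
  | nil =>
    simp only [List.map_nil, List.sum_nil]
    exact ⟨integrable_zero _ _ _, integral_zero _ _⟩
  | cons e l ih =>
    simp only [List.map_cons, List.sum_cons]
    refine ⟨((hf e).const_mul (w e)).add ih.1, ?_⟩
    rw [integral_add ((hf e).const_mul (w e)) ih.1, integral_const_mul, ih.2]

/-- average of a finite linear combination -/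
theorem list_cavg {ι : Type*} (l : List ι) (w : ι → ℝ) (f : ι → ℝ → ℝ)
    (hf : ∀ e, IntervalIntegrable (f e) volume 0 (2 * π)) :
    IntervalIntegrable (fun φ => (l.map fun e => w e * f e φ).sum) volume 0 (2 * π) ∧
      cavg (fun φ => (l.map fun e => w e * f e φ).sum) =
        (l.map fun e => w e * cavg (f e)).sum := by
  induction l with
  | nil =>
    simp only [List.map_nil, List.sum_nil]
    exact ⟨intervalIntegrable_const, cavg_const 0⟩
  | cons e l ih =>
    simp only [List.map_cons, List.sum_cons]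
    refine ⟨((hf e).const_mul (w e)).add ih.1, ?_⟩
    rw [← ih.2]
    unfold cavg
    rw [intervalIntegral.integral_add ((hf e).const_mul (w e)) ih.1,
      intervalIntegral.integral_const_mul]
    ring

theorem cavg_add' {f g : ℝ → ℝ} (hf : IntervalIntegrable f volume 0 (2 * π))
    (hg : IntervalIntegrable g volume 0 (2 * π)) :
    cavg (fun φ => f φ + g φ) = cavg f + cavg g := by
  unfold cavg
  rw [intervalIntegral.integral_add hf hg]
  ring

theorem cavg_le {f : ℝ → ℝ} (hf : IntervalIntegrable f volume 0 (2 * π)) {γ : ℝ}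
    (h : ∀ φ, f φ ≤ γ) : cavg f ≤ γ := by
  have h1 : cavg f ≤ cavg (fun _ => γ) := by
    unfold cavg
    refine mul_le_mul_of_nonneg_left ?_ (by positivity)
    exact intervalIntegral.integral_mono (by positivity) hf intervalIntegrable_const h
  rw [cavg_const] at h1
  exact h1

theorem list_half {ι : Type*} (l : List ι) (w f g : ι → ℝ) :
    (l.map fun e => w e * ((f e + g e) / 2)).sum =
      ((l.map fun e => w e * f e).sum + (l.map fun e => w e * g e).sum) / 2 := by
  induction l with
  | nil => simp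
  | cons e l ih =>
    simp only [List.map_cons, List.sum_cons]
    rw [ih]
    ring

theorem ind_01 (B : Set Tor) (z : Tor) : ind B z = 0 ∨ ind B z = 1 := by
  unfold ind
  by_cases h : z ∈ B
  · exact Or.inr (Set.indicator_of_mem h _)
  · exact Or.inl (Set.indicator_of_notMem h _)

theorem ind_mem {B : Set Tor} {z : Tor} (h : ind B z ≠ 0) : z ∈ B := by
  by_contra hz
  exact h (Set.indicator_of_notMem hz _)

theorem ind_abs (B : Set Tor) (z : Tor) : |ind B z| ≤ 1 := by
  rcases ind_01 B z with h | h <;> rw [h] <;> simp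

theorem ind_meas {B : Set Tor} (hB : MeasurableSet B) (a : Tor) :
    Measurable (fun z => ind B (z + a)) := by
  have h1 : Measurable (ind B) := measurable_const.indicator hB
  exact h1.comp (measurable_add_const a)

theorem int_of {f : Tor → ℝ} (hf : Measurable f) (h : ∀ z, |f z| ≤ 1) : Integrable f haarT :=
  Integrable.of_bound hf.aestronglyMeasurable 1 (Eventually.of_forall fun z => h z)

theorem int_ind {B : Set Tor} (hB : MeasurableSet B) (a : Tor) :
    ∫ z, ind B (z + a) ∂haarT = (haarT B).toReal := by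
  rw [integral_translate (ind B) a]
  unfold ind
  rw [integral_indicator hB, integral_const, smul_eq_mul, mul_one]
  simp [Measure.real]

theorem int3 {f g h : Tor → ℝ} (hf : Integrable f haarT) (hg : Integrable g haarT)
    (hh : Integrable h haarT) : ∫ z, (f z + g z + h z) ∂haarT =
      ∫ z, f z ∂haarT + ∫ z, g z ∂haarT + ∫ z, h z ∂haarT := by
  have h1 : ∫ z, (f z + g z + h z) ∂haarT = ∫ z, (f z + g z) ∂haarT + ∫ z, h z ∂haarT :=
    integral_add (hf.add hg) hh
  rw [h1, integral_add hf hg]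

theorem cavg3 (c : ℝ) {g h : ℝ → ℝ} (hg : IntervalIntegrable g volume 0 (2 * π))
    (hh : IntervalIntegrable h volume 0 (2 * π)) :
    cavg (fun φ => c + g φ + h φ) = c + cavg g + cavg h := by
  have h1 : cavg (fun φ => (c + g φ) + h φ) = cavg (fun φ => c + g φ) + cavg h :=
    cavg_add' (intervalIntegrable_const.add hg) hh
  rw [h1, cavg_add' intervalIntegrable_const hg, cavg_const]

theorem core (hTwo : TwoStmt) (hTri : TriStmt) (T : ℝ) (B : Set Tor) (hB : MeasurableSet B)
    (hUF : UF T B) (P : ℕ → ℂ) (al : List (ℕ × ℤ)) (be : List (ℕ × ℕ × ℤ))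
    (ta : List (ℕ × ℕ × ℕ × ℤ)) (γ : ℝ)
    (H : ∀ x : ℕ → ℝ, (∀ i, x i = 0 ∨ x i = 1) → (∀ i j, ‖P i - P j‖ = 1 → x i * x j = 0) →
      sA al x + sB be (fun i j => x i * x j) + sT ta (fun i j k => x i * x j * x k) ≤ γ) :
    sA al (fun _ => (haarT B).toReal) + sB be (fun i j => F2 T B ‖P i - P j‖) +
      sT ta (fun i j k => m3 T B (P i) (P j) (P k)) ≤ γ := by
  obtain ⟨-, -, h2a, h2b⟩ := hTwo T B hB
  obtain ⟨-, -, -, h3b⟩ := hTri T B hB
  set x : ℝ → Tor → ℕ → ℝ := fun φ z i => ind B (z + prj T (uu φ * P i)) with hx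
  have hx01 : ∀ φ z i, x φ z i = 0 ∨ x φ z i = 1 := fun φ z i => ind_01 B _
  have hxx : ∀ φ z i j, ‖P i - P j‖ = 1 → x φ z i * x φ z j = 0 := by
    intro φ z i j hij
    by_contra hne
    have h1 : z + prj T (uu φ * P i) ∈ B := ind_mem (left_ne_zero_of_mul hne)
    have h2 : z + prj T (uu φ * P j) ∈ B := ind_mem (right_ne_zero_of_mul hne)
    have h3 := hUF _ h1 (uu φ * (P j - P i)) (by
      rw [norm_mul, norm_uu, one_mul, norm_sub_rev, hij])
    apply h3
    rw [add_assoc, ← prj_add]
    have h4 : uu φ * P i + uu φ * (P j - P i) = uu φ * P j := by ring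
    rw [h4]
    exact h2
  have hm1 : ∀ φ i, Measurable fun z => x φ z i := fun φ i => ind_meas hB _
  have hb1 : ∀ φ z i, |x φ z i| ≤ 1 := fun φ z i => ind_abs B _
  have hb2 : ∀ φ z i j, |x φ z i * x φ z j| ≤ 1 := by
    intro φ z i j
    rw [abs_mul]
    exact mul_le_one₀ (hb1 φ z i) (abs_nonneg _) (hb1 φ z j)
  have hb3 : ∀ φ z i j k, |x φ z i * x φ z j * x φ z k| ≤ 1 := by
    intro φ z i j k
    rw [abs_mul]
    exact mul_le_one₀ (hb2 φ z i j) (abs_nonneg _) (hb1 φ z k)
  have hi1 : ∀ φ i, Integrable (fun z => x φ z i) haarT :=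
    fun φ i => int_of (hm1 φ i) fun z => hb1 φ z i
  have hi2 : ∀ φ i j, Integrable (fun z => x φ z i * x φ z j) haarT :=
    fun φ i j => int_of ((hm1 φ i).mul (hm1 φ j)) fun z => hb2 φ z i j
  have hi3 : ∀ φ i j k, Integrable (fun z => x φ z i * x φ z j * x φ z k) haarT :=
    fun φ i j k => int_of (((hm1 φ i).mul (hm1 φ j)).mul (hm1 φ k)) fun z => hb3 φ z i j k
  -- integration over `z`
  have hz : ∀ φ, sA al (fun _ => (haarT B).toReal) +
      sB be (fun i j => ∫ z, x φ z i * x φ z j ∂haarT) +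
      sT ta (fun i j k => ∫ z, x φ z i * x φ z j * x φ z k ∂haarT) ≤ γ := by
    intro φ
    obtain ⟨iA, eA⟩ := list_int (μ := haarT) al (fun e => (e.2 : ℝ)) (fun e z => x φ z e.1)
      (fun e => hi1 φ e.1)
    obtain ⟨iB, eB⟩ := list_int (μ := haarT) be (fun e => (e.2.2 : ℝ))
      (fun e z => x φ z e.1 * x φ z e.2.1) (fun e => hi2 φ e.1 e.2.1)
    obtain ⟨iT, eT⟩ := list_int (μ := haarT) ta (fun e => (e.2.2.2 : ℝ))
      (fun e z => x φ z e.1 * x φ z e.2.1 * x φ z e.2.2.1) (fun e => hi3 φ e.1 e.2.1 e.2.2.1)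
    have h1 : ∫ z, (sA al (x φ z) + sB be (fun i j => x φ z i * x φ z j) +
        sT ta (fun i j k => x φ z i * x φ z j * x φ z k)) ∂haarT ≤ ∫ z, γ ∂haarT := by
      refine integral_mono ((iA.add iB).add iT) (integrable_const γ) fun z => ?_
      exact H (x φ z) (hx01 φ z) (hxx φ z)
    rw [integral_const, smul_eq_mul] at h1
    have h2 : (haarT : Measure Tor).real Set.univ = 1 := by
      simp [Measure.real]
    rw [h2, one_mul] at h1
    have h3 : ∫ z, (sA al (x φ z) + sB be (fun i j => x φ z i * x φ z j) +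
        sT ta (fun i j k => x φ z i * x φ z j * x φ z k)) ∂haarT =
        sA al (fun i => ∫ z, x φ z i ∂haarT) +
        sB be (fun i j => ∫ z, x φ z i * x φ z j ∂haarT) +
        sT ta (fun i j k => ∫ z, x φ z i * x φ z j * x φ z k ∂haarT) := by
      refine (int3 iA iB iT).trans ?_
      rw [eA, eB, eT]
      rfl
    rw [h3] at h1
    have h4 : (fun i => ∫ z, x φ z i ∂haarT) = fun _ => (haarT B).toReal := by
      funext i
      exact int_ind hB _
    rw [h4] at h1
    exact h1
  -- average over the angle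
  obtain ⟨jB, fB⟩ := list_cavg be (fun e => (e.2.2 : ℝ))
    (fun e φ => ∫ z, x φ z e.1 * x φ z e.2.1 ∂haarT) (fun e => h2b (P e.1) (P e.2.1))
  obtain ⟨jT, fT⟩ := list_cavg ta (fun e => (e.2.2.2 : ℝ))
    (fun e φ => ∫ z, x φ z e.1 * x φ z e.2.1 * x φ z e.2.2.1 ∂haarT)
    (fun e => h3b (P e.1) (P e.2.1) (P e.2.2.1))
  have hc := cavg_le ((intervalIntegrable_const.add jB).add jT) hz
  have hc2 : cavg (fun φ => sA al (fun _ => (haarT B).toReal) +
      sB be (fun i j => ∫ z, x φ z i * x φ z j ∂haarT) +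
      sT ta (fun i j k => ∫ z, x φ z i * x φ z j * x φ z k ∂haarT)) =
      sA al (fun _ => (haarT B).toReal) + sB be (fun i j => F2 T B ‖P i - P j‖) +
      sT ta (fun i j k => m3 T B (P i) (P j) (P k)) := by
    refine (cavg3 _ jB jT).trans ?_
    have e1 : cavg (fun φ => sB be (fun i j => ∫ z, x φ z i * x φ z j ∂haarT)) =
        sB be (fun i j => F2 T B ‖P i - P j‖) := by
      unfold sB
      rw [fB]
      congr 1
      refine List.map_congr_left fun e _ => ?_
      exact congrArg (fun t => (e.2.2 : ℝ) * t) (h2a (P e.1) (P e.2.1))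
    have e2 : cavg (fun φ => sT ta (fun i j k => ∫ z, x φ z i * x φ z j * x φ z k ∂haarT)) =
        sT ta (fun i j k => m3 T B (P i) (P j) (P k)) := by
      unfold sT
      rw [fT]
      rfl
    rw [← e1, ← e2]
    rfl
  rw [← hc2]
  exact hc

end Blk_aux

open Blk_aux in
theorem blkStmt : BlkStmt := by
  intro hTwo hTri T B hB hUF P al be ta γ H
  have h1 := core hTwo hTri T B hB hUF P al be ta γ H
  have hn : ∀ i j, ‖conj (P i) - conj (P j)‖ = ‖P i - P j‖ := by
    intro i j
    rw [← map_sub, RCLike.norm_conj]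
  have h2 := core hTwo hTri T B hB hUF (fun i => conj (P i)) al be ta γ (by
    intro x hx hxx
    exact H x hx fun i j hij => hxx i j (by rw [hn]; exact hij))
  simp only [hn] at h2
  have h3 : sT ta (fun i j k => M3 T B (P i) (P j) (P k)) =
      (sT ta (fun i j k => m3 T B (P i) (P j) (P k)) +
        sT ta (fun i j k => m3 T B (conj (P i)) (conj (P j)) (conj (P k)))) / 2 := by
    unfold sT M3
    exact list_half ta (fun e => (e.2.2.2 : ℝ))
      (fun e => m3 T B (P e.1) (P e.2.1) (P e.2.2.1))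
      (fun e => m3 T B (conj (P e.1)) (conj (P e.2.1)) (conj (P e.2.2.1)))
  rw [h3]
  linarith

end Dadc30.Rec
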