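import Pool.Agent.Lib.MP_dadc30_coG.TorB

set_option linter.all false

/-!
# MP_dadc30_co, Theorem R: an explicit upper bound for `c = m_1(ℝ²)` below `0.247`

Definitions and statements of the modules.  Everything in `ℂ`; `Tor`, `haarT`, `prj`, `UF`, `cor`,
`uu`, `cavg`, `J` are those of `Dadc30.Gap` (`MP_dadc30_coG/Defs.lean`, basic facts in
`MP_dadc30_coG/TorB.lean`).

OVERVIEW.  `B ⊆ Tor` measurable and unit-free, density `δ`.  `F2 r` = probability that two random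
points at distance `r` are both in `B`; `M3 p q r` = probability that a random congruent copy of the
triangle `p q r` lies in `B`; it only depends on the three distances (`CongStmt`).  For a finite patch
`P : Fin n → ℂ` and a cubic function which is `≤ γ` on all unit-free subsets of the patch we get
`∑ α δ + ∑ β F2 + ∑ τ M3 ≤ γ` (`BlkStmt`).  For a combination `W(t) = ∑ v_i J(d_i t) ≥ 0` for all
`t ≥ 0` we get `∑ v_i F2(d_i) ≥ 0` (`SpeStmt`).  The certificate combines the two.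
-/

open MeasureTheory Filter Topology
open scoped Real ComplexConjugate

namespace Dadc30.Rec

open Dadc30.Gap

/-! ## A. Two and three point functions -/

/-- indicator function of `B` -/
noncomputable def ind (B : Set Tor) (z : Tor) : ℝ := B.indicator (fun _ => (1 : ℝ)) z

/-- two point function at distance `r` -/
noncomputable def F2 (T : ℝ) (B : Set Tor) (r : ℝ) : ℝ := cavg fun φ => cor T B (r * uu φ)

/-- three point function, average over translations and rotations -/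
noncomputable def m3 (T : ℝ) (B : Set Tor) (p q r : ℂ) : ℝ :=
  cavg fun φ => ∫ z, ind B (z + prj T (uu φ * p)) * ind B (z + prj T (uu φ * q)) *
    ind B (z + prj T (uu φ * r)) ∂haarT

/-- three point function, average over all isometries -/
noncomputable def M3 (T : ℝ) (B : Set Tor) (p q r : ℂ) : ℝ :=
  (m3 T B p q r + m3 T B (conj p) (conj q) (conj r)) / 2

/-- MODULE Two.  `F2` at `0` is the density, at `1` it is `0`, and it is the two point function of a
random copy: for all `p q`, `cavg_φ ∫ ind (z + prj (uu φ * p)) * ind (z + prj (uu φ * q)) = F2 ‖p - q‖`.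
(`ind * ind` is the indicator of the intersection; translate by `prj T (uu φ * p)` (`haarT_translate`):
the inner integral is `cor T B (uu φ * (q - p))`; if `q - p = ρ uu ψ` with `ρ = ‖p - q‖` then
`uu φ * uu ψ = uu (φ + ψ)` and the average over a period does not change
(`intervalIntegral`, `Function.Periodic.intervalIntegral_add_eq`).)  Also continuity and
`0 ≤ F2 ≤ 1`.  `cor T B` is continuous: `cntStmt` with `speStmt`. -/
def TwoStmt : Prop := ∀ (T : ℝ) (B : Set Tor), MeasurableSet B →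
  F2 T B 0 = (haarT B).toReal ∧ (UF T B → F2 T B 1 = 0) ∧
  (∀ p q : ℂ, (cavg fun φ => ∫ z, ind B (z + prj T (uu φ * p)) * ind B (z + prj T (uu φ * q)) ∂haarT)
    = F2 T B ‖p - q‖) ∧
  (∀ p q : ℂ, IntervalIntegrable (fun φ => ∫ z, ind B (z + prj T (uu φ * p)) *
    ind B (z + prj T (uu φ * q)) ∂haarT) volume 0 (2 * π))

/-- MODULE Tri.  Invariance of `m3`: under permutations, translations and rotations; measurability in
the angle, needed for all averages: for bounded jointly measurable functions the inner integral is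
measurable in `φ` (`StronglyMeasurable.integral_prod_right'`), hence interval integrable. -/
def TriStmt : Prop := ∀ (T : ℝ) (B : Set Tor), MeasurableSet B →
  (∀ p q r : ℂ, m3 T B p q r = m3 T B q p r ∧ m3 T B p q r = m3 T B p r q) ∧
  (∀ p q r v : ℂ, m3 T B (p + v) (q + v) (r + v) = m3 T B p q r) ∧
  (∀ (p q r : ℂ) (ψ : ℝ), m3 T B (uu ψ * p) (uu ψ * q) (uu ψ * r) = m3 T B p q r) ∧
  (∀ p q r : ℂ, IntervalIntegrable (fun φ => ∫ z, ind B (z + prj T (uu φ * p)) *
    ind B (z + prj T (uu φ * q)) * ind B (z + prj T (uu φ * r)) ∂haarT) volume 0 (2 * π))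

/-- MODULE Cong.  (uses Tri) `M3` only depends on the three distances.  Translate to `p = p' = 0`;
`q' = u q` with `‖u‖ = 1`, `u = uu ψ`; then `r'` and `u r` have the same distances to `0` and to `q'`,
so `r' = u r` or `r'` is the mirror image `(q' / conj q') * conj (u r)` of `u r` (if `q' ≠ 0`; if
`q' = 0 = q` rotate `r` into `r'`).  `M3` is invariant under `conj` of all three points by definition. -/
def CongStmt : Prop := TriStmt → ∀ (T : ℝ) (B : Set Tor), MeasurableSet B → ∀ p q r p' q' r' : ℂ,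
  ‖p - q‖ = ‖p' - q'‖ → ‖p - r‖ = ‖p' - r'‖ → ‖q - r‖ = ‖q' - r'‖ →
  M3 T B p q r = M3 T B p' q' r'

/-- linear form -/
noncomputable def sA (al : List (ℕ × ℤ)) (x : ℕ → ℝ) : ℝ :=
  (al.map fun e => (e.2 : ℝ) * x e.1).sum

/-- quadratic form -/
noncomputable def sB (be : List (ℕ × ℕ × ℤ)) (g : ℕ → ℕ → ℝ) : ℝ :=
  (be.map fun e => (e.2.2 : ℝ) * g e.1 e.2.1).sum

/-- cubic form -/
noncomputable def sT (ta : List (ℕ × ℕ × ℕ × ℤ)) (h : ℕ → ℕ → ℕ → ℝ) : ℝ :=
  (ta.map fun e => (e.2.2.2 : ℝ) * h e.1 e.2.1 e.2.2.1).sum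

/-- MODULE Blk.  (uses Two, Tri) The inequality of a patch `P 0, P 1, ...` (finitely many points are
used).  For fixed `z, φ` let `x i = ind B (z + prj T (uu φ * P i))`: this is a 0/1 vector and
`x i * x j = 0` if `‖P i - P j‖ = 1` (`UF`, `prj_add`, `norm_uu`).  Integrate the hypothesis over `z` and
average over `φ`; the same for the patch `conj (P i)` (same distances); take the mean of the two. -/
def BlkStmt : Prop := TwoStmt → TriStmt → ∀ (T : ℝ) (B : Set Tor), MeasurableSet B → UF T B →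
  ∀ (P : ℕ → ℂ) (al : List (ℕ × ℤ)) (be : List (ℕ × ℕ × ℤ)) (ta : List (ℕ × ℕ × ℕ × ℤ)) (γ : ℝ),
  (∀ x : ℕ → ℝ, (∀ i, x i = 0 ∨ x i = 1) → (∀ i j, ‖P i - P j‖ = 1 → x i * x j = 0) →
    sA al x + sB be (fun i j => x i * x j) + sT ta (fun i j k => x i * x j * x k) ≤ γ) →
  sA al (fun _ => (haarT B).toReal) + sB be (fun i j => F2 T B ‖P i - P j‖) +
    sT ta (fun i j k => M3 T B (P i) (P j) (P k)) ≤ γ

/-- MODULE Spec.  (uses `av1F`, `speStmt`, `corStmt` of `Dadc30.Gap`) With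
`Spc (cor T B) a ξ`, `F2 T B t = ∑ a k * J (t * ‖ξ k‖)` (from `Av1Stmt`, `F 0 = ∑ a k`), so
`∑ v i * F2 (d i) = ∑ a k * W ‖ξ k‖ ≥ 0`. -/
def SpecStmt : Prop := ∀ (T : ℝ) (B : Set Tor), MeasurableSet B → ∀ (m : ℕ) (v d : Fin m → ℝ),
  (∀ t : ℝ, 0 ≤ t → 0 ≤ ∑ i, v i * J (d i * t)) → 0 ≤ ∑ i, v i * F2 T B (d i)

/-! ## B. The Bessel function `J = J_0` -/

/-- the `n`-th derivative of `J` -/
noncomputable def Jn (n : ℕ) (x : ℝ) : ℝ :=
  cavg fun φ => Real.cos φ ^ n * Real.cos (x * Real.cos φ + n * (π / 2))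

/-- MODULE JDer.  `Jn n` is the `n`-th derivative of `J`, bounded by `1`
(`intervalIntegral.hasDerivAt_integral_of_dominated_loc_of_deriv_le`). -/
def JDerStmt : Prop := (∀ x, Jn 0 x = J x) ∧ (∀ n x, HasDerivAt (Jn n) (Jn (n + 1) x) x) ∧
  (∀ n x, |Jn n x| ≤ 1)

/-- MODULE JOde.  Bessel's equation and its derivatives.  `x J'' + J' + x J = 0`:
`d/dφ (sin φ sin (x cos φ)) = cos φ sin (x cos φ) - x sin² φ cos (x cos φ)`, integrate over a period
(`integral of a derivative of a periodic function is 0`).  The rest by induction: both sides of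
`x * Jn (n+2) x + (n+1) * Jn (n+1) x + x * Jn n x + n * Jn (n-1) x = 0` have the derivative given by
`JDerStmt`. -/
def JOdeStmt : Prop := JDerStmt → (∀ x, x * Jn 2 x + Jn 1 x + x * Jn 0 x = 0) ∧
  (∀ (n : ℕ) (x : ℝ), x * Jn (n + 3) x + (n + 2) * Jn (n + 2) x + x * Jn (n + 1) x
    + (n + 1) * Jn n x = 0)

/-- MODULE JTay.  Taylor's formula with the bound `1` for all derivatives
(`taylor_mean_remainder_bound` or induction on `N`). -/
def JTayStmt : Prop := JDerStmt → ∀ (m N : ℕ) (x h : ℝ),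
  |Jn m (x + h) - ∑ k ∈ Finset.range N, Jn (m + k) x * h ^ k / k.factorial| ≤
    |h| ^ N / N.factorial

/-- MODULE JTail.  (uses JDer, JOde) With `u = √x J`, the function
`G(x) = x (J'^2 + J^2) + J J' + J^2/(2x)` (that is `u'^2 + (1 + 1/(4x²)) u²`) has the derivative
`-J²/(2 x²) ≤ 0`, and `G ≥ x J²` (it is `u² + ...`).  So for `0 < x₀ ≤ x`: `x J(x)² ≤ G(x₀)`. -/
def JTailStmt : Prop := JDerStmt → JOdeStmt → ∀ x₀ x : ℝ, 0 < x₀ → x₀ ≤ x →
  x * J x ^ 2 ≤ x₀ * (Jn 1 x₀ ^ 2 + J x₀ ^ 2) + J x₀ * Jn 1 x₀ + J x₀ ^ 2 / (2 * x₀)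

/-- MODULE JEnergy.  Error propagation for approximate solutions of Bessel's equation.  Let `p` be
twice differentiable on `[x₀, x₁]`, `0 < x₀`, with `|p'' + p'/x + p| ≤ ρ` there and
`(J x₀ - p x₀)² + (J' x₀ - p' x₀)² ≤ ε²`.  Then the same holds at `x₁` with `ε + ρ (x₁ - x₀)`:
for `y = J - p`, `E = y² + y'²` satisfies `E' = -2 y'²/x - 2 y' r ≤ 2 √E ρ`; compare with
`(ε + κ + (ρ + κ)(x - x₀))²`, `κ > 0` (`image_le_of_deriv_right_lt_deriv_boundary`), `κ → 0`. -/
def JEnergyStmt : Prop := JDerStmt → JOdeStmt → ∀ (p p' p'' : ℝ → ℝ) (x₀ x₁ ε ρ : ℝ), 0 < x₀ →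
  x₀ ≤ x₁ → 0 ≤ ε → 0 ≤ ρ → (∀ x ∈ Set.Icc x₀ x₁, HasDerivAt p (p' x) x) →
  (∀ x ∈ Set.Icc x₀ x₁, HasDerivAt p' (p'' x) x) →
  (∀ x ∈ Set.Icc x₀ x₁, |p'' x + p' x / x + p x| ≤ ρ) →
  (J x₀ - p x₀) ^ 2 + (Jn 1 x₀ - p' x₀) ^ 2 ≤ ε ^ 2 →
  (J x₁ - p x₁) ^ 2 + (Jn 1 x₁ - p' x₁) ^ 2 ≤ (ε + ρ * (x₁ - x₀)) ^ 2

/-! ## C. The Moser lattice -/

/-- `exp(iπ/3)` -/
noncomputable def w1 : ℂ := ⟨1 / 2, √3 / 2⟩

/-- `(5 + i√11)/6` -/
noncomputable def w3 : ℂ := ⟨5 / 6, √11 / 6⟩

/-- the lattice point with integer coordinates -/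
noncomputable def pt (a b c d : ℤ) : ℂ := a + b * w1 + c * w3 + d * (w1 * w3)

/-- rational part of `6 ‖pt a b c d‖²` -/
def nN (a b c d : ℤ) : ℤ := 6 * (a ^ 2 + a * b + b ^ 2 + c ^ 2 + c * d + d ^ 2) +
  10 * (a * c + b * d) + 5 * (b * c + a * d)

/-- coefficient of `√33` in `6 ‖pt a b c d‖²` -/
def nM (a b c d : ℤ) : ℤ := b * c - a * d

/-- MODULE Mos.  Norms in the Moser lattice; `√3 √11 = √33`; `√33` is irrational (`6 ∣ ...` not needed):
the unit vectors are exactly those with `nN = 6`, `nM = 0`. -/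
def MosStmt : Prop := (∀ a b c d : ℤ, 6 * ‖pt a b c d‖ ^ 2 = nN a b c d + nM a b c d * √33) ∧
  (∀ a b c d : ℤ, ‖pt a b c d‖ = 1 ↔ nN a b c d = 6 ∧ nM a b c d = 0)

end Dadc30.Rec
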