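import Pool.Agent.Lib.MP_dadc30_coR.Pk.Top
import Pool.Agent.Lib.MP_dadc30_coR.Defs

/-!
# From the packed check to the inequality for indicator functions
-/

set_option autoImplicit false

namespace Dadc30.Pk

open Dadc30.Rec

/-- list of the nonzero linear coefficients -/
def alOf : List ℕ → List ℤ → List (ℕ × ℤ)
  | i :: o, a :: A => if a = 0 then alOf o A else (i, a) :: alOf o A
  | _, _ => []

/-- list of the nonzero quadratic coefficients -/
def beOf : List ℕ → List (List ℤ) → List (ℕ × ℕ × ℤ)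
  | i :: o, B :: Bs => (alOf o B).map (fun e => (i, e.1, e.2)) ++ beOf o Bs
  | _, _ => []

/-- list of the nonzero cubic coefficients -/
def taOf : List ℕ → List (List (List ℤ)) → List (ℕ × ℕ × ℕ × ℤ)
  | i :: o, T :: Ts => (beOf o T).map (fun e => (i, e.1, e.2.1, e.2.2)) ++ taOf o Ts
  | _, _ => []

open Classical in
/-- the integer bit of an indicator function -/
noncomputable def xb (x : ℕ → ℝ) (i : ℕ) : ℤ := if x i = 1 then 1 else 0

section

variable {x : ℕ → ℝ}

lemma xb_cast (hx : ∀ i, x i = 0 ∨ x i = 1) (i : ℕ) : ((xb x i : ℤ) : ℝ) = x i := by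
  unfold xb
  rcases hx i with h | h
  · rw [if_neg (by rw [h]; norm_num), h]
    norm_num
  · rw [if_pos h, h]
    norm_num

lemma xb_bits (o : List ℕ) : Bits (o.map (xb x)) := by
  intro y hy
  obtain ⟨i, -, rfl⟩ := List.mem_map.mp hy
  unfold xb
  split_ifs
  · exact Or.inr rfl
  · exact Or.inl rfl

lemma lin_real (hx : ∀ i, x i = 0 ∨ x i = 1) : ∀ (o : List ℕ) (A : List ℤ),
    ((lin A (o.map (xb x)) : ℤ) : ℝ) = sA (alOf o A) x
  | [], A => by
    have h1 : alOf [] A = [] := by simp [alOf]
    have h2 : lin A ([] : List ℤ) = 0 := by cases A <;> rfl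
    rw [h1, List.map_nil, h2]
    simp [sA]
  | i :: o, [] => by
    have h1 : alOf (i :: o) [] = [] := by simp [alOf]
    rw [h1]
    simp [sA, lin]
  | i :: o, a :: A => by
    have ih := lin_real hx o A
    rw [List.map_cons, lin, alOf]
    push_cast
    rw [ih, xb_cast hx]
    split_ifs with h
    · rw [h]
      simp
    · unfold sA
      rw [List.map_cons, List.sum_cons]

lemma sB_append (l m : List (ℕ × ℕ × ℤ)) (g : ℕ → ℕ → ℝ) : sB (l ++ m) g = sB l g + sB m g := by
  unfold sB
  rw [List.map_append, List.sum_append]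

lemma sT_append (l m : List (ℕ × ℕ × ℕ × ℤ)) (g : ℕ → ℕ → ℕ → ℝ) :
    sT (l ++ m) g = sT l g + sT m g := by
  unfold sT
  rw [List.map_append, List.sum_append]

lemma sB_row (i : ℕ) (l : List (ℕ × ℤ)) :
    sB (l.map fun e => (i, e.1, e.2)) (fun i j => x i * x j) = x i * sA l x := by
  unfold sB sA
  rw [List.map_map, ← List.sum_map_mul_left]
  congr 1
  refine List.map_congr_left (fun e _ => ?_)
  simp only [Function.comp]
  ring

lemma sT_row (i : ℕ) (l : List (ℕ × ℕ × ℤ)) :
    sT (l.map fun e => (i, e.1, e.2.1, e.2.2)) (fun i j k => x i * x j * x k) =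
      x i * sB l (fun i j => x i * x j) := by
  unfold sB sT
  rw [List.map_map, ← List.sum_map_mul_left]
  congr 1
  refine List.map_congr_left (fun e _ => ?_)
  simp only [Function.comp]
  ring

lemma quad_real (hx : ∀ i, x i = 0 ∨ x i = 1) : ∀ (o : List ℕ) (Bs : List (List ℤ)),
    ((quad Bs (o.map (xb x)) : ℤ) : ℝ) = sB (beOf o Bs) (fun i j => x i * x j)
  | [], A => by
    have h1 : beOf [] A = [] := by simp [beOf]
    have h2 : quad A ([] : List ℤ) = 0 := by cases A <;> rfl
    rw [h1, List.map_nil, h2]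
    simp [sB]
  | i :: o, [] => by
    have h1 : beOf (i :: o) [] = [] := by simp [beOf]
    rw [h1]
    simp [sB, quad]
  | i :: o, B :: Bs => by
    have ih := quad_real hx o Bs
    have h1 := lin_real hx o B
    rw [List.map_cons, quad, beOf, sB_append, sB_row]
    push_cast
    rw [ih, h1, xb_cast hx]

lemma cub_real (hx : ∀ i, x i = 0 ∨ x i = 1) : ∀ (o : List ℕ) (Ts : List (List (List ℤ))),
    ((cub Ts (o.map (xb x)) : ℤ) : ℝ) = sT (taOf o Ts) (fun i j k => x i * x j * x k)
  | [], A => by
    have h1 : taOf [] A = [] := by simp [taOf]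
    have h2 : cub A ([] : List ℤ) = 0 := by cases A <;> rfl
    rw [h1, List.map_nil, h2]
    simp [sT]
  | i :: o, [] => by
    have h1 : taOf (i :: o) [] = [] := by simp [taOf]
    rw [h1]
    simp [sT, cub]
  | i :: o, T :: Ts => by
    have ih := cub_real hx o Ts
    have h1 := quad_real hx o T
    rw [List.map_cons, cub, taOf, sT_append, sT_row]
    push_cast
    rw [ih, h1, xb_cast hx]

end

/-! ### Edges -/

/-- all neighbours given by a mask are edges of the list -/
def rowOk (eds : List (ℕ × ℕ)) (i : ℕ) : ℕ → List ℕ → Bool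
  | _, [] => true
  | a, j :: o => (if a % 2 = 1 then eds.contains (i, j) || eds.contains (j, i) else true) &&
      rowOk eds i (a / 2) o

/-- all masks are given by edges of the list -/
def edOk (eds : List (ℕ × ℕ)) : List ℕ → List ℕ → Bool
  | i :: o, a :: adj => rowOk eds i a o && edOk eds o adj
  | _, _ => true

lemma xb_zero {x : ℕ → ℝ} {i j : ℕ} (h : x i * x j = 0) (hi : xb x i = 1) : xb x j = 0 := by
  unfold xb at hi ⊢
  split_ifs at hi with h1
  · rw [h1, one_mul] at h
    rw [if_neg (by rw [h]; norm_num)]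
  · exact absurd hi (by norm_num)

lemma rowOk_spec {x : ℕ → ℝ} {eds : List (ℕ × ℕ)} (he : ∀ e ∈ eds, x e.1 * x e.2 = 0) {i : ℕ}
    (hi : xb x i = 1) : ∀ (o : List ℕ) (a : ℕ), rowOk eds i a o = true →
    ∀ k, a.testBit k = true → (o.map (xb x)).getD k 0 = 0
  | [], a, _, k, _ => by simp
  | j :: o, a, h, k, hk => by
    rw [rowOk, Bool.and_eq_true] at h
    cases k with
    | zero =>
      rw [Nat.testBit_zero, decide_eq_true_eq] at hk
      rw [if_pos hk, Bool.or_eq_true, List.contains_iff_mem, List.contains_iff_mem] at h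
      rw [List.map_cons, List.getD_cons_zero]
      rcases h.1 with h1 | h1
      · exact xb_zero (he _ h1) hi
      · have h2 := he _ h1
        rw [mul_comm] at h2
        exact xb_zero h2 hi
    | succ k =>
      rw [Nat.testBit_succ] at hk
      rw [List.map_cons, List.getD_cons_succ]
      exact rowOk_spec he hi o (a / 2) h.2 k hk

lemma edOk_spec {x : ℕ → ℝ} {eds : List (ℕ × ℕ)} (he : ∀ e ∈ eds, x e.1 * x e.2 = 0) :
    ∀ (o adj : List ℕ), edOk eds o adj = true → Ind adj (o.map (xb x))
  | i :: o, a :: adj, h => by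
    rw [edOk, Bool.and_eq_true] at h
    rw [List.map_cons]
    exact ⟨fun hi => rowOk_spec he hi o a h.1, edOk_spec he o adj h.2⟩
  | [], [], _ => trivial
  | [], _ :: _, _ => trivial
  | _ :: _, [], _ => trivial

/-- **The inequality of a block from the kernel computation.** -/
theorem chk_sound (d : Dat) (h : Ok d) (k : ℕ) (L : List (ℕ × ℕ))
    (hL : covers (2 ^ k) 0 L = true) (hc : ∀ e ∈ L, chunk d k e.1 e.2 = true)
    (ord : List ℕ) (hord : Nat.beq ord.length (d.p + d.r) = true)
    (eds : List (ℕ × ℕ)) (hed : edOk eds ord d.adj = true)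
    (x : ℕ → ℝ) (hx : ∀ i, x i = 0 ∨ x i = 1) (he : ∀ e ∈ eds, x e.1 * x e.2 = 0) :
    sA (alOf ord d.A) x + sB (beOf ord d.Bs) (fun i j => x i * x j) +
      sT (taOf ord d.Ts) (fun i j k => x i * x j * x k) ≤ (d.Γ : ℝ) := by
  have h1 := main_chunks d h k L hL hc (ord.map (xb x)) (xb_bits ord)
    (by rw [List.length_map]; exact Nat.eq_of_beq_eq_true hord) (edOk_spec he ord d.adj hed)
  rw [← lin_real hx, ← quad_real hx, ← cub_real hx]
  exact_mod_cast h1

end Dadc30.Pk
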