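import Pool.Agent.Lib.MP_dadc30_coR.Num

set_option autoImplicit false

/-!
# Module Chk1: soundness of the subdivision check
-/

open MeasureTheory Filter Topology
open scoped Real

namespace Dadc30.Rec

open Dadc30.Gap

namespace Chk1_aux

lemma chk_sound (w : List ℤ) (KK : ℤ) : ∀ (f m : ℕ) (u : ℤ), chk w KK f u (2 ^ m) = true →
    f ≤ m + 1 → 0 ≤ u - 2 ^ m → u + 2 ^ m ≤ 4096 → ∀ z : ℝ, ((u : ℝ) - 2 ^ m) / 4096 ≤ z →
    z ≤ ((u : ℝ) + 2 ^ m) / 4096 → ∃ u' h : ℤ, u - 2 ^ m ≤ u' ∧ u' ≤ u + 2 ^ m ∧ 0 ≤ h ∧ h ≤ 2 ^ m ∧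
      |z - (u' : ℝ) / 4096| ≤ (h : ℝ) / 4096 ∧
      ((hu u' w 0 0).2.natAbs : ℤ) * (h * 8192) + KK * (h * h) ≤
        ((hu u' w 0 0).1 - 2 * Sc) * 33554432 := by
  intro f
  induction f with
  | zero =>
    intro m u h
    simp [chk] at h
  | succ f ih =>
    intro m u h hf h0 h1 z hz0 hz1
    rw [chk] at h
    split_ifs at h with hc
    · refine ⟨u, 2 ^ m, by have : (0 : ℤ) ≤ 2 ^ m := by positivity
                           linarith, by have : (0 : ℤ) ≤ 2 ^ m := by positivity
                                        linarith, by positivity, le_rfl, ?_, hc⟩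
      push_cast
      rw [abs_le]
      constructor
      · have : ((u : ℝ) - 2 ^ m) / 4096 = (u : ℝ) / 4096 - 2 ^ m / 4096 := by ring
        linarith
      · have : ((u : ℝ) + 2 ^ m) / 4096 = (u : ℝ) / 4096 + 2 ^ m / 4096 := by ring
        linarith
    · rw [Bool.and_eq_true] at h
      obtain ⟨hl, hr⟩ := h
      cases m with
      | zero =>
        have hf0 : f = 0 := by omega
        subst hf0
        simp [chk] at hl
      | succ m =>
        have e2 : (2 : ℤ) ^ (m + 1) / 2 = 2 ^ m := by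
          rw [pow_succ]
          exact Int.mul_ediv_cancel _ (by norm_num)
        have e3 : (2 : ℤ) ^ (m + 1) = 2 ^ m + 2 ^ m := by ring
        have e4 : (2 : ℝ) ^ (m + 1) = 2 ^ m + 2 ^ m := by ring
        have hp : (0 : ℤ) < 2 ^ m := by positivity
        rw [e2] at hl hr
        rw [e3] at h0 h1 ⊢
        rw [e4] at hz0 hz1
        rcases le_total z ((u : ℝ) / 4096) with hz | hz
        · obtain ⟨u', h', a1, a2, a3, a4, a5, a6⟩ := ih m (u - 2 ^ m) hl (by omega) (by linarith)
            (by linarith) z (by push_cast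
                                refine le_trans (le_of_eq ?_) hz0
                                ring) (by push_cast
                                          refine hz.trans (le_of_eq ?_)
                                          ring)
          exact ⟨u', h', by linarith, by linarith, a3, by linarith, a5, a6⟩
        · obtain ⟨u', h', a1, a2, a3, a4, a5, a6⟩ := ih m (u + 2 ^ m) hr (by omega) (by linarith)
            (by linarith) z (by push_cast
                                refine le_trans (le_of_eq ?_) hz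
                                ring) (by push_cast
                                          refine hz1.trans (le_of_eq ?_)
                                          ring)
          exact ⟨u', h', by linarith, by linarith, a3, by linarith, a5, a6⟩

lemma div_err (x : ℤ) : |(((x / 4096 : ℤ) : ℝ)) - (x : ℝ) / 4096| ≤ 1 := by
  have h1 : x / 4096 * 4096 ≤ x := Int.ediv_mul_le x (by norm_num)
  have h2 : x < (x / 4096 + 1) * 4096 := Int.lt_ediv_add_one_mul_self x (by norm_num)
  have h1' : ((x / 4096 : ℤ) : ℝ) * 4096 ≤ (x : ℝ) := by exact_mod_cast h1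
  have h2' : (x : ℝ) < (((x / 4096 : ℤ) : ℝ) + 1) * 4096 := by exact_mod_cast h2
  rw [abs_le]
  constructor
  · have : (x : ℝ) / 4096 < ((x / 4096 : ℤ) : ℝ) + 1 := by
      rw [div_lt_iff₀ (by norm_num)]
      exact h2'
    linarith
  · have : ((x / 4096 : ℤ) : ℝ) ≤ (x : ℝ) / 4096 := by
      rw [le_div_iff₀ (by norm_num)]
      exact h1'
    linarith

lemma step_err (u v : ℤ) (v' b : ℝ) (hu0 : 0 ≤ u) (hu1 : u ≤ 4096) (h : |(v : ℝ) - v'| ≤ b) :
    |(((v * u / 4096 : ℤ) : ℝ)) - v' * ((u : ℝ) / 4096)| ≤ b + 1 := by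
  have h1 := div_err (v * u)
  have h2 : |((v : ℝ) - v') * ((u : ℝ) / 4096)| ≤ b := by
    rw [abs_mul]
    have h3 : |(u : ℝ) / 4096| ≤ 1 := by
      have h4 : (0 : ℝ) ≤ (u : ℝ) := by exact_mod_cast hu0
      have h5 : (u : ℝ) ≤ 4096 := by exact_mod_cast hu1
      rw [abs_of_nonneg (by positivity), div_le_one (by norm_num)]
      exact h5
    calc |(v : ℝ) - v'| * |(u : ℝ) / 4096| ≤ |(v : ℝ) - v'| * 1 :=
          mul_le_mul_of_nonneg_left h3 (abs_nonneg _)
      _ ≤ b := by rw [mul_one]; exact h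
  have h6 : (((v * u / 4096 : ℤ) : ℝ)) - v' * ((u : ℝ) / 4096) =
      ((((v * u / 4096 : ℤ) : ℝ)) - ((v * u : ℤ) : ℝ) / 4096) +
        ((v : ℝ) - v') * ((u : ℝ) / 4096) := by
    push_cast
    ring
  rw [h6]
  refine (abs_add_le _ _).trans ?_
  linarith

lemma hu_err (u : ℤ) (hu0 : 0 ≤ u) (hu1 : u ≤ 4096) : ∀ (l : List ℤ) (v w : ℤ) (v' w' : ℝ) (n : ℕ),
    |(v : ℝ) - v'| ≤ n → |(w : ℝ) - w'| ≤ (n : ℝ) ^ 2 →
    |((hu u l v w).1 : ℝ) - (ev ((u : ℝ) / 4096) l v' w').1| ≤ (n : ℝ) + l.length ∧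
    |((hu u l v w).2 : ℝ) - (ev ((u : ℝ) / 4096) l v' w').2| ≤ ((n : ℝ) + l.length) ^ 2 := by
  intro l
  induction l with
  | nil =>
    intro v w v' w' n h1 h2
    simp only [hu, ev, List.length_nil, Nat.cast_zero, add_zero]
    exact ⟨h1, h2⟩
  | cons c l ih =>
    intro v w v' w' n h1 h2
    simp only [hu, ev, List.length_cons]
    have e1 := step_err u v v' n hu0 hu1 h1
    have e2 := step_err u w w' ((n : ℝ) ^ 2) hu0 hu1 h2
    have h3 : |((c + v * u / 4096 : ℤ) : ℝ) - ((c : ℝ) + v' * ((u : ℝ) / 4096))| ≤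
        ((n + 1 : ℕ) : ℝ) := by
      rw [Int.cast_add]
      have : (c : ℝ) + ((v * u / 4096 : ℤ) : ℝ) - ((c : ℝ) + v' * ((u : ℝ) / 4096)) =
          ((v * u / 4096 : ℤ) : ℝ) - v' * ((u : ℝ) / 4096) := by ring
      rw [this]
      push_cast
      exact_mod_cast e1
    have h4 : |((v + w * u / 4096 : ℤ) : ℝ) - (v' + w' * ((u : ℝ) / 4096))| ≤
        ((n + 1 : ℕ) : ℝ) ^ 2 := by
      rw [Int.cast_add]
      have : (v : ℝ) + ((w * u / 4096 : ℤ) : ℝ) - (v' + w' * ((u : ℝ) / 4096)) =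
          ((v : ℝ) - v') + (((w * u / 4096 : ℤ) : ℝ) - w' * ((u : ℝ) / 4096)) := by ring
      rw [this]
      refine (abs_add_le _ _).trans ?_
      push_cast
      have hn : (0 : ℝ) ≤ n := Nat.cast_nonneg n
      nlinarith
    have h5 := ih _ _ _ _ (n + 1) h3 h4
    push_cast at h5 ⊢
    have e : (n : ℝ) + ((l.length : ℝ) + 1) = (n : ℝ) + 1 + l.length := by ring
    rw [e]
    exact h5

end Chk1_aux

open Chk1_aux in
theorem chk1Stmt : Chk1Stmt := by
  refine ⟨chk_sound, ?_⟩
  intro w u hw hu0 hu1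
  have h := hu_err u hu0 hu1 w 0 0 0 0 0 (by simp) (by simp)
  simp only [Nat.cast_zero, zero_add] at h
  have hL : (w.length : ℝ) ≤ 49 := by exact_mod_cast hw
  have hL0 : (0 : ℝ) ≤ (w.length : ℝ) := Nat.cast_nonneg _
  refine ⟨h.1.trans hL, h.2.trans ?_⟩
  nlinarith

end Dadc30.Rec
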