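import Pool.Agent.Lib.MP_dadc30_coR.Gb
import Pool.Agent.Lib.MP_dadc30_coG.Final

set_option linter.all false

/-!
# MP_dadc30_co, Theorem R: final assembly, everything except the data
-/

open MeasureTheory Filter Topology
open scoped Real

namespace Dadc30.Rec

open Dadc30.Gap

/-- forget the last component -/
def toQ (LT : List (ℕ × ℤ × ℤ × ℤ)) : List (ℕ × ℤ × ℤ) := LT.map fun e => (e.1, e.2.1, e.2.2.1)

/-- test for the tail; `r / 10^7` bounds `|J(d t)|` for `t ≥ 300` -/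
def okT (v₀ : ℤ) (LT : List (ℕ × ℤ × ℤ × ℤ)) : Bool :=
  (LT.all fun e => decide (0 ≤ e.2.2.2) &&
    decide (4054632976 * 1000000000000000000 * Sc ≤
      e.2.2.2 * e.2.2.2 * (e.2.2.2 * e.2.2.2) * 90000 * (e.2.2.1 - 2)) &&
    decide (625 * Sc ≤ 90000 * (e.2.2.1 - 2))) &&
  decide ((LT.map fun e => |e.2.1| * e.2.2.2).sum < v₀ * 10000000)

theorem okT_iff (v₀ : ℤ) (LT : List (ℕ × ℤ × ℤ × ℤ)) : okT v₀ LT = true ↔
    ((∀ e ∈ LT, 0 ≤ e.2.2.2 ∧ 4054632976 * 1000000000000000000 * Sc ≤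
      e.2.2.2 * e.2.2.2 * (e.2.2.2 * e.2.2.2) * 90000 * (e.2.2.1 - 2) ∧
      625 * Sc ≤ 90000 * (e.2.2.1 - 2)) ∧
    (LT.map fun e => |e.2.1| * e.2.2.2).sum < v₀ * 10000000) := by
  rw [okT, Bool.and_eq_true, List.all_eq_true, decide_eq_true_iff]
  simp only [Bool.and_eq_true, decide_eq_true_iff, and_assoc]

theorem tail_one {κ : ℕ} {q r : ℤ} (hD : Dq (rd κ) q) (h0 : 0 ≤ r)
    (h1 : 4054632976 * 1000000000000000000 * Sc ≤ r * r * (r * r) * 90000 * (q - 2))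
    (h2 : 625 * Sc ≤ 90000 * (q - 2)) :
    0 < rd κ ∧ (0 : ℝ) ≤ (r : ℝ) / 10000000 ∧ (25 : ℝ) ≤ 300 * rd κ ∧
      (63676 / 100000 : ℝ) ≤ ((r : ℝ) / 10000000) ^ 2 * (300 * rd κ) := by
  obtain ⟨g1, g2, g3⟩ := hD
  have hS : (0 : ℝ) < Sc := by unfold Sc; norm_num
  have hr : (0 : ℝ) ≤ (r : ℝ) := by exact_mod_cast h0
  have e1 := (Int.cast_le (R := ℝ)).2 h1
  have e2 := (Int.cast_le (R := ℝ)).2 h2
  push_cast at e1 e2
  rw [abs_le] at g1
  have hd : 0 < rd κ := by linarith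
  have hq : ((q : ℝ) - 2) ≤ rd κ ^ 2 * Sc := by linarith
  refine ⟨hd, by positivity, ?_, ?_⟩
  · have : (625 : ℝ) * Sc ≤ (90000 * rd κ ^ 2) * Sc := by nlinarith
    have := le_of_mul_le_mul_right this hS
    by_contra hc
    push Not at hc
    nlinarith
  · have h3 : (4054632976 * 1000000000000000000 : ℝ) ≤ (r : ℝ) ^ 4 * 90000 * rd κ ^ 2 := by
      have h4 : (r : ℝ) * r * (r * r) * 90000 * (q - 2) ≤
          ((r : ℝ) ^ 4 * 90000 * rd κ ^ 2) * Sc := by
        have : (r : ℝ) * r * (r * r) * 90000 * (q - 2) = (r : ℝ) ^ 4 * 90000 * ((q : ℝ) - 2) := by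
          ring
        rw [this, mul_assoc _ (rd κ ^ 2)]
        exact mul_le_mul_of_nonneg_left hq (by positivity)
      norm_num at e1 ⊢
      exact le_of_mul_le_mul_right (e1.trans h4) hS
    have h5 : (63676 / 100000 : ℝ) ^ 2 ≤ (((r : ℝ) / 10000000) ^ 2 * (300 * rd κ)) ^ 2 := by
      have : (((r : ℝ) / 10000000) ^ 2 * (300 * rd κ)) ^ 2 =
          ((r : ℝ) ^ 4 * 90000 * rd κ ^ 2) / 10000000 ^ 4 := by ring
      rw [this, le_div_iff₀ (by positivity)]
      refine le_trans (le_of_eq ?_) h3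
      norm_num
    exact (abs_le_of_sq_le_sq' h5 (by positivity)).2

theorem okq_of_okL {K : ℤ} {LQ : List (ℕ × ℤ × ℤ)} (h : okL K LQ = true) :
    ∀ e ∈ LQ, okq e.1 e.2.2 = true := ((okL_iff K LQ).1 h).1

theorem tail_all (v₀ K : ℤ) (LT : List (ℕ × ℤ × ℤ × ℤ)) (hL : okL K (toQ LT) = true)
    (hT : okT v₀ LT = true) (t : ℝ) (ht : 300 ≤ t) :
    0 < (v₀ : ℝ) + Wr (LD (toQ LT)) (LV (toQ LT)) t := by
  obtain ⟨h1, h2⟩ := (okT_iff v₀ LT).1 hT
  have h0 := okq_of_okL hL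
  have hD : ∀ e ∈ LT, Dq (rd e.1) e.2.2.1 := fun e he =>
    okq_sound (h0 (e.1, e.2.1, e.2.2.1) (List.mem_map.2 ⟨e, he, rfl⟩))
  refine tailStmt (63676 / 100000) 25 (by norm_num) (fun x hx => gB x hx) v₀ (LD (toQ LT))
    (LT.map fun e => (e.2.2.2 : ℝ) / 10000000) (LV (toQ LT)) ?_ ?_ ?_ ?_ t ht
  · simp [LD, toQ]
  · simp [LD, LV, toQ]
  · have : ∀ L : List (ℕ × ℤ × ℤ × ℤ), (∀ e ∈ L, 0 < rd e.1 ∧ (0 : ℝ) ≤ (e.2.2.2 : ℝ) / 10000000 ∧
        (25 : ℝ) ≤ 300 * rd e.1 ∧ (63676 / 100000 : ℝ) ≤ ((e.2.2.2 : ℝ) / 10000000) ^ 2 *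
        (300 * rd e.1)) → List.Forall₂ (fun d r => 0 < d ∧ 0 ≤ r ∧ (25 : ℝ) ≤ 300 * d ∧
        (63676 / 100000 : ℝ) ≤ r ^ 2 * (300 * d)) (LD (toQ L))
        (L.map fun e => (e.2.2.2 : ℝ) / 10000000) := by
      intro L
      induction L with
      | nil => intro _; exact List.Forall₂.nil
      | cons e L ih =>
        intro h
        exact List.Forall₂.cons (h e List.mem_cons_self)
          (ih fun e' he' => h e' (List.mem_cons_of_mem _ he'))
    exact this LT fun e he => tail_one (hD e he) (h1 e he).1 (h1 e he).2.1 (h1 e he).2.2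
  · have e1 : ∀ L : List (ℕ × ℤ × ℤ × ℤ),
        (List.zipWith (fun (v : ℤ) (r : ℝ) => |(v : ℝ)| * r) (LV (toQ L))
          (L.map fun e => (e.2.2.2 : ℝ) / 10000000)).sum =
          (((L.map fun e => |e.2.1| * e.2.2.2).sum : ℤ) : ℝ) / 10000000 := by
      intro L
      induction L with
      | nil => simp [LV, toQ]
      | cons e L ih =>
        unfold LV toQ at *
        rw [List.map_cons, List.map_cons, List.map_cons, List.zipWith_cons_cons, List.sum_cons, ih,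
          List.map_cons, List.sum_cons]
        push_cast
        ring
    rw [e1, div_lt_iff₀ (by norm_num)]
    have := (Int.cast_lt (R := ℝ)).2 h2
    push_cast at this ⊢
    exact this

/-- positivity everywhere -/
theorem pos_all {v₀ K : ℤ} {LT : List (ℕ × ℤ × ℤ × ℤ)} {S : List Rc}
    (hL : okL K (toQ LT) = true) (hT : okT v₀ LT = true) (hi : Inv v₀ (toQ LT) 600 S) (t : ℝ)
    (ht : 0 ≤ t) : 0 < (v₀ : ℝ) + Wr (LD (toQ LT)) (LV (toQ LT)) t := by
  rcases le_total t 300 with h | h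
  · exact hi.2.2.2 t ht (by norm_num; exact h)
  · exact tail_all v₀ K LT hL hT t h

/-- pairs `(κ, v)` -/
def toV (LQ : List (ℕ × ℤ × ℤ)) : List (ℕ × ℤ) := LQ.map fun e => (e.1, e.2.1)

theorem Wr_eq_sg (t : ℝ) : ∀ LQ : List (ℕ × ℤ × ℤ),
    Wr (LD LQ) (LV LQ) t = sg (fun κ => J (rd κ * t)) (toV LQ)
  | [] => by rw [wr_eq]; simp [LD, LV, toV, sg]
  | e :: LQ => by
    have ih := Wr_eq_sg t LQ
    rw [wr_eq] at ih ⊢
    unfold LD LV toV at *
    rw [List.map_cons, List.map_cons, List.map_cons, List.zipWith_cons_cons, List.sum_cons, ih,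
      sg_cons]

theorem J_zero : J 0 = 1 := by
  have h := (bes1Stmt 0).2.2.1
  have h2 := (bes1Stmt 0).2.1
  rw [abs_le] at h2
  norm_num at h
  linarith [h2.2]

/-- the spectral inequality for the data -/
theorem spec_data {v₀ K : ℤ} {LT : List (ℕ × ℤ × ℤ × ℤ)} {S : List Rc}
    (hL : okL K (toQ LT) = true) (hT : okT v₀ LT = true) (hi : Inv v₀ (toQ LT) 600 S)
    (T : ℝ) (B : Set Tor) (hB : MeasurableSet B) (hU : UF T B) :
    ((v₀ + ((toQ LT).map fun e => e.2.1).sum : ℤ) : ℝ) * (haarT B).toReal ^ 2 ≤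
      (v₀ : ℝ) * (haarT B).toReal + sg (fun κ => F2 T B (rd κ)) (toV (toQ LT)) := by
  have h := spZStmt T B hB hU
    (((v₀ : ℝ), (0 : ℝ)) :: (toQ LT).map fun e => ((e.2.1 : ℝ), rd e.1))
    ((v₀ + ((toQ LT).map fun e => e.2.1).sum : ℤ) : ℝ) ?_ ?_
  · rw [List.map_cons, List.sum_cons, List.map_map] at h
    rw [(twoStmt T B hB).1] at h
    have e : (List.map ((fun e : ℝ × ℝ => e.1 * F2 T B e.2) ∘
        fun e : ℕ × ℤ × ℤ => ((e.2.1 : ℝ), rd e.1)) (toQ LT)).sum =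
        sg (fun κ => F2 T B (rd κ)) (toV (toQ LT)) := by
      unfold sg toV
      rw [List.map_map]
      rfl
    rw [e] at h
    exact h
  · intro t ht
    have hp := pos_all hL hT hi t ht.le
    rw [Wr_eq_sg] at hp
    rw [List.map_cons, List.sum_cons, List.map_map]
    simp only [zero_mul, J_zero, mul_one]
    have e : (List.map ((fun e : ℝ × ℝ => e.1 * J (e.2 * t)) ∘
        fun e : ℕ × ℤ × ℤ => ((e.2.1 : ℝ), rd e.1)) (toQ LT)).sum =
        sg (fun κ => J (rd κ * t)) (toV (toQ LT)) := by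
      unfold sg toV
      rw [List.map_map]
      rfl
    rw [e]
    exact hp.le
  · rw [List.map_cons, List.sum_cons, List.map_map]
    have e : ∀ L : List (ℕ × ℤ × ℤ), (List.map ((fun e : ℝ × ℝ => e.1) ∘
        fun e : ℕ × ℤ × ℤ => ((e.2.1 : ℝ), rd e.1)) L).sum =
        (((L.map fun e => e.2.1).sum : ℤ) : ℝ) := by
      intro L
      induction L with
      | nil => simp
      | cons e L ih =>
        rw [List.map_cons, List.sum_cons, ih, List.map_cons, List.sum_cons]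
        push_cast
        rfl
    rw [e]
    push_cast
    exact le_rfl

/-- remove one key where the function vanishes -/
theorem sg_drop (g : ℕ → ℝ) (κ : ℕ) (h : g κ = 0) : ∀ L : List (ℕ × ℤ),
    sg g (L.filter fun e => !(Nat.beq e.1 κ)) = sg g L
  | [] => rfl
  | e :: L => by
    by_cases h1 : e.1 = κ
    · have : (!(Nat.beq e.1 κ)) = false := by
        rw [h1]; simp
      rw [List.filter_cons_of_neg (by rw [this]; simp), sg_cons, sg_drop g κ h L, h1, h]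
      simp
    · have : (!(Nat.beq e.1 κ)) = true := by
        rw [Bool.not_eq_true', ← Bool.not_eq_true]
        exact fun h2 => h1 (Nat.eq_of_beq_eq_true h2)
      rw [List.filter_cons_of_pos (p := fun e : ℕ × ℤ => !(Nat.beq e.1 κ)) this, sg_cons, sg_cons,
        sg_drop g κ h L]

/-- the whole argument with all data as variables; the result is `m_1 ≤ b / c` -/
theorem bound_of_data (L : List Lp) (al : List (ℕ × ℤ)) (be : List (ℕ × ℕ × ℤ))
    (ta : List (ℕ × ℕ × ℕ × ℤ)) (E : List (ℕ × ℕ)) (γ A : ℤ) (VL : List (ℕ × ℤ))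
    (f2 n2 f3 n3 : ℕ) (h0 : (0, 0, 0, 0) ∈ L) (hLp : okP L = true)
    (hA : (al.map fun e => e.2).sum = A) (hB : grp f2 n2 (ky2 L be) = VL)
    (hT : grp f3 n3 (ky3 L ta) = [])
    (hE : (E.all fun e => Nat.beq (kd (gp L e.1) (gp L e.2)) 416) = true)
    (hx : ∀ x : ℕ → ℝ, (∀ i, x i = 0 ∨ x i = 1) → (∀ e ∈ E, x e.1 * x e.2 = 0) →
      sA al x + sB be (fun i j => x i * x j) + sT ta (fun i j k => x i * x j * x k) ≤ γ)
    (v₀ K : ℤ) (LT : List (ℕ × ℤ × ℤ × ℤ)) (S : List Rc) (hL : okL K (toQ LT) = true)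
    (hTt : okT v₀ LT = true) (hi : Inv v₀ (toQ LT) 600 S)
    (hV : ∀ g : ℕ → ℝ, sg g (VL.filter fun e => !(Nat.beq e.1 416)) =
      sg g ((toV (toQ LT)).filter fun e => !(Nat.beq e.1 416)))
    (b c Y : ℤ) (hc : 0 < c) (hb : 0 ≤ b) (hY : v₀ + ((toQ LT).map fun e => e.2.1).sum = Y)
    (hY0 : 0 ≤ Y) (hA0 : v₀ ≤ A) (hfin : γ * (c * c) ≤ (A - v₀) * (b * c) + Y * (b * b))
    (hfin' : 0 < (A - v₀) + Y) : m1C ≤ (b : ℝ) / c := by
  refine le_of_forall_pos_le_add fun ε hε => ?_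
  obtain ⟨T, B, hBm, hU, hδ⟩ := densF ε hε
  have h1 := patch L al be ta E γ A VL f2 n2 f3 n3 h0 hLp hA hB hT hE hx T B hBm hU
  have h2 := spec_data hL hTt hi T B hBm hU
  rw [hY] at h2
  have hF : (fun κ => F2 T B (rd κ)) 416 = 0 := by
    simp only [rd_416]; exact (twoStmt T B hBm).2.1 hU
  rw [← sg_drop _ 416 hF VL, hV, sg_drop _ 416 hF] at h1
  set δ : ℝ := (haarT B).toReal
  have hδ0 : 0 ≤ δ := ENNReal.toReal_nonneg
  have h3 : (A - v₀ : ℝ) * δ + Y * δ ^ 2 ≤ γ := by linarith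
  have hcR : (0 : ℝ) < c := by exact_mod_cast hc
  have hbR : (0 : ℝ) ≤ b := by exact_mod_cast hb
  have hYR : (0 : ℝ) ≤ Y := by exact_mod_cast hY0
  have hAR : (v₀ : ℝ) ≤ A := by exact_mod_cast hA0
  have hfR : (γ : ℝ) * (c * c) ≤ (A - v₀) * (b * c) + Y * (b * b) := by exact_mod_cast hfin
  have hfR' : (0 : ℝ) < (A - v₀) + Y := by exact_mod_cast hfin'
  set β : ℝ := (b : ℝ) / c
  have hβ0 : 0 ≤ β := by positivity
  have hfβ : (γ : ℝ) ≤ (A - v₀) * β + Y * β ^ 2 := by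
    have : (b : ℝ) = β * c := by rw [div_mul_cancel₀ _ hcR.ne']
    rw [this] at hfR
    have e : ((A : ℝ) - v₀) * (β * c * c) + Y * (β * c * (β * c)) =
        ((A - v₀) * β + Y * β ^ 2) * (c * c) := by ring
    rw [e] at hfR
    exact le_of_mul_le_mul_right hfR (by positivity)
  have hle : δ ≤ β := by
    by_contra hlt
    push Not at hlt
    have hd : 0 < δ - β := by linarith
    have h4 : (A - v₀ : ℝ) * δ + Y * δ ^ 2 - ((A - v₀) * β + Y * β ^ 2) =
        (δ - β) * ((A - v₀) + Y * (δ + β)) := by ring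
    rcases hYR.eq_or_lt with hY1 | hY1
    · rw [← hY1] at h4 hfR'
      have : 0 < (δ - β) * (((A : ℝ) - v₀) + 0 * (δ + β)) := by
        apply mul_pos hd; linarith
      rw [← hY1] at h3 hfβ
      linarith
    · have : 0 < (δ - β) * (((A : ℝ) - v₀) + Y * (δ + β)) := by
        apply mul_pos hd
        have : 0 < (Y : ℝ) * (δ + β) := mul_pos hY1 (by linarith)
        linarith
      linarith
  linarith

end Dadc30.Rec
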