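import Pool.Agent.Lib.MP_dadc30_coR.Num

set_option linter.all false
set_option autoImplicit false

/-!
# MP_dadc30_co, Theorem R, module Ini: the interval `[0, 4]`
-/

open MeasureTheory Filter Topology
open scoped Real

namespace Dadc30.Rec

open Dadc30.Gap

namespace Ini_aux

/-! ### Horner's scheme -/

theorem ev_lin (s : ℝ) : ∀ (l : List ℤ) (v w : ℝ),
    (ev s l v w).1 = (ev s l 0 0).1 + v * s ^ l.length ∧
    (ev s l v w).2 = (ev s l 0 0).2 + w * s ^ l.length + v * l.length * s ^ (l.length - 1)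
  | [], v, w => by simp [ev]
  | c :: l, v, w => by
    obtain ⟨h1, h2⟩ := ev_lin s l (c + v * s) (v + w * s)
    obtain ⟨h3, h4⟩ := ev_lin s l (c + 0 * s) (0 + 0 * s)
    have h5 : s * ((l.length : ℝ) * s ^ (l.length - 1)) = l.length * s ^ l.length := by
      rcases Nat.eq_zero_or_pos l.length with h | h
      · rw [h]
        simp
      · obtain ⟨n, hn⟩ : ∃ n, l.length = n + 1 := ⟨l.length - 1, by omega⟩
        rw [hn, Nat.add_sub_cancel, pow_succ]
        ring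
    simp only [ev, List.length_cons, Nat.add_sub_cancel, Nat.cast_add, Nat.cast_one]
    rw [h1, h2, h3, h4]
    refine ⟨by ring, ?_⟩
    linear_combination v * h5

theorem ev_cons (s : ℝ) (x : ℤ) (l : List ℤ) :
    (ev s (x :: l) 0 0).1 = (ev s l 0 0).1 + x * s ^ l.length ∧
    (ev s (x :: l) 0 0).2 = (ev s l 0 0).2 + x * l.length * s ^ (l.length - 1) := by
  obtain ⟨h1, h2⟩ := ev_lin s l (x + 0 * s) (0 + 0 * s)
  simp only [ev]
  rw [h1, h2]
  constructor <;> ring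

theorem ev_addL (s : ℝ) (v : ℤ) : ∀ (l w : List ℤ), l.length = w.length → ∀ a b a' b' : ℝ,
    (ev s (addL v l w) (v * a + a') (v * b + b')).1 = v * (ev s l a b).1 + (ev s w a' b').1 ∧
    (ev s (addL v l w) (v * a + a') (v * b + b')).2 = v * (ev s l a b).2 + (ev s w a' b').2
  | [], [], _, a, b, a', b' => by simp [ev, addL]
  | [], x :: w, h, a, b, a', b' => by simp at h
  | c :: l, [], h, a, b, a', b' => by simp at h
  | c :: l, x :: w, h, a, b, a', b' => by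
    have h' : l.length = w.length := by simpa using h
    have h1 := ev_addL s v l w h' (c + a * s) (a + b * s) (x + a' * s) (a' + b' * s)
    have h2 : (((v * c + x : ℤ) : ℝ) + (v * a + a') * s) = v * (c + a * s) + (x + a' * s) := by
      push_cast
      ring
    have h3 : ((v : ℝ) * a + a' + (v * b + b') * s) = v * (a + b * s) + (a' + b' * s) := by ring
    simp only [ev, addL]
    rw [h2, h3]
    exact h1

theorem length_addL (v : ℤ) : ∀ (l w : List ℤ), l.length = w.length →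
    (addL v l w).length = w.length
  | [], [], _ => by simp [addL]
  | [], x :: w, h => by simp at h
  | c :: l, [], h => by simp at h
  | c :: l, x :: w, h => by
    simp only [addL, List.length_cons]
    rw [length_addL v l w (by simpa using h)]

theorem ev_rep (s : ℝ) : ∀ n : ℕ, ev s (List.replicate n 0) 0 0 = (0, 0)
  | 0 => by simp [ev]
  | n + 1 => by
    rw [List.replicate_succ]
    simp only [ev, Int.cast_zero, zero_mul, add_zero]
    exact ev_rep s n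

theorem ev_addC (s : ℝ) (v₀ : ℤ) : ∀ (l : List ℤ), l ≠ [] → ∀ a b : ℝ,
    (ev s (addC v₀ l) a b).1 = (ev s l a b).1 + v₀ * (Sc : ℝ) ∧
    (ev s (addC v₀ l) a b).2 = (ev s l a b).2
  | [], h, a, b => by simp at h
  | [c], _, a, b => by
    simp only [addC, ev]
    push_cast
    exact ⟨by ring, trivial⟩
  | c :: x :: l, _, a, b => by
    have h1 := ev_addC s v₀ (x :: l) (by simp) (c + a * s) (a + b * s)
    simpa [addC, ev] using h1

theorem length_addC (v₀ : ℤ) : ∀ (l : List ℤ), (addC v₀ l).length = l.length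
  | [] => by simp [addC]
  | [c] => by simp [addC]
  | c :: x :: l => by
    have h1 := length_addC v₀ (x :: l)
    simpa [addC] using h1

/-! ### The power series -/

/-- the coefficients computed by `ps` -/
def cs (q : ℤ) : ℕ → ℤ
  | 0 => Sc
  | m + 1 => -(cs q m * (4 * q) / Sc) / (((m : ℤ) + 1) * ((m : ℤ) + 1))

theorem ps_ev (q : ℤ) (s : ℝ) : ∀ (f m : ℕ) (l : List ℤ), l.length = 2 * m + 1 →
    (ev s (ps q f m (cs q m) l) 0 0).1 = (ev s l 0 0).1 +
      ∑ j ∈ Finset.range f, (cs q (m + 1 + j) : ℝ) * s ^ (2 * (m + 1 + j)) ∧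
    (ev s (ps q f m (cs q m) l) 0 0).2 = (ev s l 0 0).2 +
      ∑ j ∈ Finset.range f, (cs q (m + 1 + j) : ℝ) * (2 * ((m + 1 + j : ℕ) : ℝ)) *
        s ^ (2 * (m + 1 + j) - 1) ∧
    (ps q f m (cs q m) l).length = 2 * (m + f) + 1
  | 0, m, l, hl => by simp [ps, hl]
  | f + 1, m, l, hl => by
    have h0 : ps q (f + 1) m (cs q m) l =
        ps q f ((m + 1 : ℕ) : ℤ) (cs q (m + 1)) (cs q (m + 1) :: 0 :: l) := by
      simp only [ps, cs, Nat.cast_add, Nat.cast_one]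
    obtain ⟨h1, h2, h3⟩ := ps_ev q s f (m + 1) (cs q (m + 1) :: 0 :: l) (by simp [hl]; ring)
    obtain ⟨h4, h5⟩ := ev_cons s (cs q (m + 1)) (0 :: l)
    obtain ⟨h6, h7⟩ := ev_cons s 0 l
    rw [h0, h1, h2, h3, h4, h5, h6, h7, Finset.sum_range_succ', Finset.sum_range_succ']
    have e1 : (0 :: l : List ℤ).length = 2 * m + 2 := by simp [hl]
    rw [e1]
    have e2 : 2 * m + 2 - 1 = 2 * m + 1 := by omega
    rw [e2]
    refine ⟨?_, ?_, by ring⟩
    · have e3 : ∀ j, m + 1 + 1 + j = m + 1 + (j + 1) := fun j => by ring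
      simp only [e3, add_zero]
      have e4 : 2 * (m + 1) = 2 * m + 2 := by ring
      rw [e4]
      push_cast
      ring
    · have e3 : ∀ j, m + 1 + 1 + j = m + 1 + (j + 1) := fun j => by ring
      simp only [e3, add_zero]
      have e4 : 2 * (m + 1) - 1 = 2 * m + 1 := by omega
      rw [e4]
      push_cast
      ring

theorem psc_ev (q : ℤ) (s : ℝ) :
    (ev s (psc q) 0 0).1 = ∑ j ∈ Finset.range 25, (cs q j : ℝ) * s ^ (2 * j) ∧
    (ev s (psc q) 0 0).2 = ∑ j ∈ Finset.range 25, (cs q j : ℝ) * (2 * (j : ℝ)) * s ^ (2 * j - 1) ∧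
    (psc q).length = 49 := by
  obtain ⟨h1, h2, h3⟩ := ps_ev q s 24 0 [Sc] (by simp)
  have h0 : psc q = ps q 24 ((0 : ℕ) : ℤ) (cs q 0) [Sc] := by
    simp only [psc, cs, Nat.cast_zero]
  rw [h0, h1, h2, h3]
  refine ⟨?_, ?_, rfl⟩
  · rw [Finset.sum_range_succ' _ 24]
    have e3 : ∀ j : ℕ, 0 + 1 + j = j + 1 := fun j => by ring
    simp only [e3]
    simp [ev, cs]
    ring
  · rw [Finset.sum_range_succ' _ 24]
    have e3 : ∀ j : ℕ, 0 + 1 + j = j + 1 := fun j => by ring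
    simp only [e3]
    simp [ev, cs]

/-- the exact coefficients -/
noncomputable def Xm (d : ℝ) : ℕ → ℝ
  | 0 => 1
  | m + 1 => -(4 * d ^ 2) * Xm d m / (((m : ℝ) + 1) * ((m : ℝ) + 1))

theorem Sc_pos : (0 : ℝ) < (Sc : ℝ) := by
  norm_num [Sc]

theorem step {d : ℝ} {q : ℤ} (hd : Dq d q) (m : ℕ) {B E : ℝ} (hB : |Xm d m| ≤ B)
    (hE : |(cs q m : ℝ) - Sc * Xm d m| ≤ E) (hE' : E ≤ 512) :
    |Xm d (m + 1)| ≤ 16 * B / (((m : ℝ) + 1) * ((m : ℝ) + 1)) ∧
    |(cs q (m + 1) : ℝ) - Sc * Xm d (m + 1)| ≤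
      (16 * E + 8 * B + 1 / 100) / (((m : ℝ) + 1) * ((m : ℝ) + 1)) + 1 := by
  obtain ⟨h1, h2, h3⟩ := hd
  set M : ℝ := ((m : ℝ) + 1) * ((m : ℝ) + 1) with hM
  have hM1 : 1 ≤ M := by
    have : (0 : ℝ) ≤ m := Nat.cast_nonneg m
    nlinarith
  have hM0 : 0 < M := by linarith
  have hS := Sc_pos
  have hB0 : 0 ≤ B := (abs_nonneg _).trans hB
  have hE0 : 0 ≤ E := (abs_nonneg _).trans hE
  have hd2 : d ^ 2 ≤ 4 := by nlinarith
  have hd20 : 0 ≤ d ^ 2 := sq_nonneg d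
  have hX : Xm d (m + 1) = -(4 * d ^ 2) * Xm d m / M := rfl
  refine ⟨?_, ?_⟩
  · rw [hX, abs_div, abs_mul, abs_neg, abs_of_pos hM0, abs_of_nonneg (by positivity)]
    gcongr
    linarith
  set c := cs q m with hc
  set x := Xm d m with hx
  set y : ℤ := c * (4 * q) / Sc with hy
  have hSZ : (0 : ℤ) < Sc := by norm_num [Sc]
  have hy1 : y * Sc ≤ c * (4 * q) := Int.ediv_mul_le _ hSZ.ne'
  have hy2 : c * (4 * q) < (y + 1) * Sc := Int.lt_ediv_add_one_mul_self _ hSZ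
  set c' : ℤ := -y / (((m : ℤ) + 1) * ((m : ℤ) + 1)) with hc'
  have hMZ : (0 : ℤ) < ((m : ℤ) + 1) * ((m : ℤ) + 1) := by positivity
  have hz1 : c' * (((m : ℤ) + 1) * ((m : ℤ) + 1)) ≤ -y := Int.ediv_mul_le _ hMZ.ne'
  have hz2 : -y < (c' + 1) * (((m : ℤ) + 1) * ((m : ℤ) + 1)) := Int.lt_ediv_add_one_mul_self _ hMZ
  have hcs : cs q (m + 1) = c' := rfl
  rw [hcs, hX]
  have hy1' : (y : ℝ) * Sc ≤ c * (4 * q) := by exact_mod_cast hy1
  have hy2' : (c : ℝ) * (4 * q) < (y + 1) * Sc := by exact_mod_cast hy2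
  have hz1' : (c' : ℝ) * M ≤ -y := by
    have := (Int.cast_le (R := ℝ)).2 hz1
    push_cast at this
    exact this
  have hz2' : -(y : ℝ) < (c' + 1) * M := by
    have := (Int.cast_lt (R := ℝ)).2 hz2
    push_cast at this
    exact this
  set R : ℝ := c * (4 * q) / Sc with hR
  have hR1 : (y : ℝ) ≤ R := by
    rw [hR, le_div_iff₀ hS]
    exact hy1'
  have hR2 : R < y + 1 := by
    rw [hR, div_lt_iff₀ hS]
    exact hy2'
  have k1 : |(c' : ℝ) + R / M| ≤ 1 := by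
    rw [abs_le]
    constructor
    · have : -M ≤ c' * M + R := by nlinarith
      have h5 : -1 ≤ (c' * M + R) / M := by
        rw [le_div_iff₀ hM0]
        linarith
      rwa [add_div, mul_div_cancel_right₀ _ hM0.ne'] at h5
    · have : c' * M + R ≤ M := by nlinarith
      have h5 : (c' * M + R) / M ≤ 1 := by
        rw [div_le_iff₀ hM0]
        linarith
      rwa [add_div, mul_div_cancel_right₀ _ hM0.ne'] at h5
  have hcb : |(c : ℝ)| ≤ Sc * B + E := by
    calc |(c : ℝ)| = |((c : ℝ) - Sc * x) + Sc * x| := by ring_nf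
      _ ≤ |(c : ℝ) - Sc * x| + |Sc * x| := abs_add_le _ _
      _ = |(c : ℝ) - Sc * x| + Sc * |x| := by rw [abs_mul, abs_of_pos hS]
      _ ≤ E + Sc * B := by gcongr
      _ = _ := by ring
  have k2 : |R - 4 * d ^ 2 * (Sc * x)| ≤ 16 * E + 8 * B + 1 / 100 := by
    have e1 : R - 4 * d ^ 2 * (Sc * x) = -(4 * (c / Sc) * (d ^ 2 * Sc - q)) +
        4 * d ^ 2 * (c - Sc * x) := by
      rw [hR]
      field_simp
      ring
    rw [e1]
    refine (abs_add_le _ _).trans ?_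
    rw [abs_neg, abs_mul, abs_mul, abs_mul, abs_div, abs_of_pos hS,
      abs_of_nonneg (by positivity : (0 : ℝ) ≤ 4 * d ^ 2), abs_of_nonneg (by norm_num : (0 : ℝ) ≤ 4)]
    have e2 : |(c : ℝ)| / Sc ≤ B + E / Sc := by
      rw [div_le_iff₀ hS, add_mul, div_mul_cancel₀ _ hS.ne']
      linarith
    have e3 : E / Sc ≤ 1 / 800 := by
      rw [div_le_iff₀ hS]
      have : (Sc : ℝ) = 1152921504606846976 := by norm_num [Sc]
      rw [this]
      linarith
    have e4 : 4 * (|(c : ℝ)| / Sc) * |d ^ 2 * Sc - q| ≤ 4 * (B + 1 / 800) * 2 := by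
      gcongr
      linarith
    have e5 : 4 * d ^ 2 * |(c : ℝ) - Sc * x| ≤ 4 * 4 * E := by
      gcongr
    linarith
  have e6 : (c' : ℝ) - Sc * (-(4 * d ^ 2) * x / M) = (c' + R / M) -
      (R - 4 * d ^ 2 * (Sc * x)) / M := by
    field_simp
    ring
  rw [e6]
  refine (abs_sub _ _).trans ?_
  rw [abs_div, abs_of_pos hM0]
  have e7 : |R - 4 * d ^ 2 * (Sc * x)| / M ≤ (16 * E + 8 * B + 1 / 100) / M := by gcongr
  linarith

theorem bounds {d : ℝ} {q : ℤ} (hd : Dq d q) (m : ℕ) :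
    |(cs q m : ℝ) - Sc * Xm d m| ≤ 512 := by
  have b0 : |Xm d 0| ≤ 1 := by simp [Xm]
  have e0 : |(cs q 0 : ℝ) - Sc * Xm d 0| ≤ 0 := by simp [Xm, cs]
  obtain ⟨b1, e1⟩ := step hd 0 b0 e0 (by norm_num)
  have b1' : |Xm d 1| ≤ 16 := b1.trans (by norm_num)
  have e1' : |(cs q 1 : ℝ) - Sc * Xm d 1| ≤ 10 := e1.trans (by norm_num)
  obtain ⟨b2, e2⟩ := step hd 1 b1' e1' (by norm_num)
  have b2' : |Xm d 2| ≤ 64 := b2.trans (by norm_num)
  have e2' : |(cs q 2 : ℝ) - Sc * Xm d 2| ≤ 74 := e2.trans (by norm_num)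
  obtain ⟨b3, e3⟩ := step hd 2 b2' e2' (by norm_num)
  have b3' : |Xm d 3| ≤ 114 := b3.trans (by norm_num)
  have e3' : |(cs q 3 : ℝ) - Sc * Xm d 3| ≤ 190 := e3.trans (by norm_num)
  obtain ⟨b4, e4⟩ := step hd 3 b3' e3' (by norm_num)
  have b4' : |Xm d 4| ≤ 114 := b4.trans (by norm_num)
  have e4' : |(cs q 4 : ℝ) - Sc * Xm d 4| ≤ 512 := e4.trans (by norm_num)
  have key : ∀ n : ℕ, |Xm d (4 + n)| ≤ 114 ∧ |(cs q (4 + n) : ℝ) - Sc * Xm d (4 + n)| ≤ 512 := by
    intro n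
    induction n with
    | zero => exact ⟨b4', e4'⟩
    | succ n ih =>
      obtain ⟨b, e⟩ := step hd (4 + n) ih.1 ih.2 le_rfl
      have hM : (25 : ℝ) ≤ (((4 + n : ℕ) : ℝ) + 1) * (((4 + n : ℕ) : ℝ) + 1) := by
        push_cast
        have : (0 : ℝ) ≤ n := Nat.cast_nonneg n
        nlinarith
      have h1 : (16 * 114 : ℝ) / ((((4 + n : ℕ) : ℝ) + 1) * (((4 + n : ℕ) : ℝ) + 1)) ≤ 114 := by
        rw [div_le_iff₀ (by linarith)]
        linarith
      have h2 : (16 * 512 + 8 * 114 + 1 / 100 : ℝ) /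
          ((((4 + n : ℕ) : ℝ) + 1) * (((4 + n : ℕ) : ℝ) + 1)) + 1 ≤ 512 := by
        have : (16 * 512 + 8 * 114 + 1 / 100 : ℝ) /
          ((((4 + n : ℕ) : ℝ) + 1) * (((4 + n : ℕ) : ℝ) + 1)) ≤ 511 := by
          rw [div_le_iff₀ (by linarith)]
          linarith
        linarith
      exact ⟨b.trans h1, e.trans h2⟩
  rcases lt_or_ge m 4 with hm | hm
  · interval_cases m
    · exact e0.trans (by norm_num)
    · exact e1'.trans (by norm_num)
    · exact e2'.trans (by norm_num)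
    · exact e3'.trans (by norm_num)
  · obtain ⟨n, rfl⟩ := Nat.exists_eq_add_of_le hm
    exact (key n).2

/-! ### The Bessel function at `0` -/

theorem J_zero : J 0 = 1 := by
  unfold J cavg
  simp only [zero_mul, Real.cos_zero]
  rw [intervalIntegral.integral_const, smul_eq_mul, mul_one, sub_zero]
  exact inv_mul_cancel₀ (by positivity)

theorem Jn_odd (hD : JDerStmt) (hO : JOdeStmt) (m : ℕ) : Jn (2 * m + 1) 0 = 0 := by
  obtain ⟨h1, h2⟩ := hO hD
  induction m with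
  | zero =>
    have := h1 0
    simpa using this
  | succ m ih =>
    have h3 := h2 (2 * m + 1) 0
    rw [ih] at h3
    have h4 : ((2 * m + 1 : ℕ) : ℝ) + 2 ≠ 0 := by positivity
    have h5 : (((2 * m + 1 : ℕ) : ℝ) + 2) * Jn (2 * m + 1 + 2) 0 = 0 := by linarith
    exact (mul_eq_zero.1 h5).resolve_left h4

theorem Jn_even (hD : JDerStmt) (hO : JOdeStmt) (d : ℝ) (m : ℕ) :
    Jn (2 * m) 0 * (4 * d) ^ (2 * m) = Xm d m * (2 * m).factorial := by
  obtain ⟨h1, h2⟩ := hO hD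
  induction m with
  | zero =>
    simp only [Nat.mul_zero, pow_zero, mul_one, Nat.factorial_zero, Nat.cast_one, Xm]
    rw [hD.1 0, J_zero]
  | succ m ih =>
    have h3 := h2 (2 * m) 0
    have h4 : (((2 * m : ℕ) : ℝ) + 2) * Jn (2 * m + 2) 0 = -(((2 * m : ℕ) : ℝ) + 1) * Jn (2 * m) 0 := by
      linarith
    have h5 : (((2 * m : ℕ) : ℝ) + 2) ≠ 0 := by positivity
    have h6 : 2 * (m + 1) = 2 * m + 2 := by ring
    have h7 : Xm d (m + 1) = -(4 * d ^ 2) * Xm d m / (((m : ℝ) + 1) * ((m : ℝ) + 1)) := rfl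
    have h8 : (((2 * m + 2).factorial : ℕ) : ℝ) =
        (((2 * m : ℕ) : ℝ) + 2) * ((((2 * m : ℕ) : ℝ) + 1) * ((2 * m).factorial : ℝ)) := by
      rw [Nat.factorial_succ, Nat.factorial_succ]
      push_cast
      ring
    rw [h6, h7, h8]
    refine mul_left_cancel₀ h5 ?_
    have h9 : (((2 * m : ℕ) : ℝ) + 2) * (Jn (2 * m + 2) 0 * (4 * d) ^ (2 * m + 2)) =
        -(((2 * m : ℕ) : ℝ) + 1) * (4 * d) ^ 2 * (Xm d m * (2 * m).factorial) := by
      rw [← ih]
      linear_combination (4 * d) ^ (2 * m + 2) * h4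
    rw [h9]
    have h10 : (m : ℝ) + 1 ≠ 0 := by positivity
    push_cast
    field_simp
    ring

theorem sum_even_odd (f : ℕ → ℝ) (M : ℕ) :
    ∑ k ∈ Finset.range (2 * M), f k = ∑ m ∈ Finset.range M, (f (2 * m) + f (2 * m + 1)) := by
  induction M with
  | zero => simp
  | succ M ih =>
    rw [show 2 * (M + 1) = 2 * M + 1 + 1 by ring, Finset.sum_range_succ, Finset.sum_range_succ, ih,
      Finset.sum_range_succ]
    ring

theorem J_series (hD : JDerStmt) (hO : JOdeStmt) (hT : JTayStmt) {d s : ℝ} (hd0 : 0 ≤ d)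
    (hd2 : d ≤ 2) (hs0 : 0 ≤ s) (hs1 : s ≤ 1) :
    |J (d * (4 * s)) - ∑ j ∈ Finset.range 25, Xm d j * s ^ (2 * j)| ≤ 1 / 2 ^ 60 ∧
    |4 * d * Jn 1 (d * (4 * s)) - ∑ j ∈ Finset.range 25, Xm d j * (2 * (j : ℝ)) * s ^ (2 * j - 1)|
      ≤ 1 / 2 ^ 55 := by
  set h : ℝ := d * (4 * s) with hh
  have hh0 : 0 ≤ h := by positivity
  have hh8 : h ≤ 8 := by nlinarith
  constructor
  · have h1 := hT hD 0 50 0 h
    rw [zero_add] at h1
    rw [hD.1] at h1
    have h2 : ∑ k ∈ Finset.range 50, Jn (0 + k) 0 * h ^ k / (k.factorial : ℝ) =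
        ∑ j ∈ Finset.range 25, Xm d j * s ^ (2 * j) := by
      rw [show 50 = 2 * 25 by norm_num, sum_even_odd]
      refine Finset.sum_congr rfl fun m _ => ?_
      rw [zero_add, zero_add, Jn_odd hD hO m, zero_mul, zero_div, add_zero]
      have h3 := Jn_even hD hO d m
      have h4 : ((2 * m).factorial : ℝ) ≠ 0 := by exact_mod_cast (2 * m).factorial_ne_zero
      have h5 : h ^ (2 * m) = (4 * d) ^ (2 * m) * s ^ (2 * m) := by
        rw [← mul_pow]
        congr 1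
        rw [hh]
        ring
      rw [h5, div_eq_iff h4]
      linear_combination s ^ (2 * m) * h3
    rw [h2] at h1
    refine h1.trans ?_
    rw [abs_of_nonneg hh0]
    calc h ^ 50 / (Nat.factorial 50 : ℝ) ≤ 8 ^ 50 / (Nat.factorial 50 : ℝ) := by gcongr
      _ ≤ 1 / 2 ^ 60 := by norm_num [Nat.factorial]
  · have h1 := hT hD 1 49 0 h
    rw [zero_add] at h1
    have h2 : 4 * d * ∑ k ∈ Finset.range 49, Jn (1 + k) 0 * h ^ k / (k.factorial : ℝ) =
        ∑ j ∈ Finset.range 25, Xm d j * (2 * (j : ℝ)) * s ^ (2 * j - 1) := by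
      rw [Finset.sum_range_succ, show 48 = 2 * 24 by norm_num, sum_even_odd,
        show 1 + 2 * 24 = 2 * 24 + 1 by norm_num, Jn_odd hD hO 24, zero_mul, zero_div, add_zero,
        Finset.sum_range_succ' _ 24]
      simp only [Nat.cast_zero, mul_zero, zero_mul, add_zero]
      rw [Finset.mul_sum]
      refine Finset.sum_congr rfl fun m _ => ?_
      have e1 : 1 + 2 * m = 2 * m + 1 := by ring
      have e2 : 1 + (2 * m + 1) = 2 * (m + 1) := by ring
      have e3 : 2 * (m + 1) - 1 = 2 * m + 1 := by omega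
      rw [e1, e2, e3, Jn_odd hD hO m, zero_mul, zero_div, zero_add]
      have h3 := Jn_even hD hO d (m + 1)
      have h4 : ((2 * m + 1).factorial : ℝ) ≠ 0 := by exact_mod_cast (2 * m + 1).factorial_ne_zero
      have h5 : h ^ (2 * m + 1) = (4 * d) ^ (2 * m + 1) * s ^ (2 * m + 1) := by
        rw [← mul_pow]
        congr 1
        rw [hh]
        ring
      have h6 : ((2 * (m + 1)).factorial : ℝ) = (2 * ((m + 1 : ℕ) : ℝ)) * ((2 * m + 1).factorial : ℝ) := by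
        rw [show 2 * (m + 1) = 2 * m + 1 + 1 by ring, Nat.factorial_succ]
        push_cast
        ring
      rw [h6] at h3
      rw [h5]
      have h7 : 4 * d * (Jn (2 * (m + 1)) 0 * ((4 * d) ^ (2 * m + 1) * s ^ (2 * m + 1)) /
          ((2 * m + 1).factorial : ℝ)) = (Jn (2 * (m + 1)) 0 * (4 * d) ^ (2 * (m + 1))) *
          s ^ (2 * m + 1) / ((2 * m + 1).factorial : ℝ) := by
        rw [show 2 * (m + 1) = 2 * m + 1 + 1 by ring, pow_succ (4 * d) (2 * m + 1)]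
        ring
      rw [h7, h3, div_eq_iff h4]
      ring
    rw [← h2, ← mul_sub, abs_mul, abs_of_nonneg (by positivity)]
    rw [abs_of_nonneg hh0] at h1
    calc 4 * d * |Jn 1 h - ∑ k ∈ Finset.range 49, Jn (1 + k) 0 * h ^ k / (k.factorial : ℝ)|
        ≤ 4 * 2 * (h ^ 49 / (Nat.factorial 49 : ℝ)) := by gcongr
      _ ≤ 4 * 2 * (8 ^ 49 / (Nat.factorial 49 : ℝ)) := by gcongr
      _ ≤ 1 / 2 ^ 55 := by norm_num [Nat.factorial]

/-- one distance -/
theorem one (hD : JDerStmt) (hO : JOdeStmt) (hT : JTayStmt) {d s : ℝ} {q : ℤ} (hd : Dq d q)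
    (hs0 : 0 ≤ s) (hs1 : s ≤ 1) :
    |J (d * (4 * s)) - (ev s (psc q) 0 0).1 / Sc| ≤ 1 / 2 ^ 45 ∧
    |4 * d * Jn 1 (d * (4 * s)) - (ev s (psc q) 0 0).2 / Sc| ≤ 1 / 2 ^ 41 := by
  have hd0 : 0 ≤ d := by
    have := hd.2.1
    linarith
  obtain ⟨h1, h2⟩ := J_series hD hO hT hd0 hd.2.2 hs0 hs1
  obtain ⟨h3, h4, -⟩ := psc_ev q s
  have hS := Sc_pos
  have hSv : (Sc : ℝ) = 2 ^ 60 := by norm_num [Sc]
  constructor
  · have h5 : |∑ j ∈ Finset.range 25, Xm d j * s ^ (2 * j) - (ev s (psc q) 0 0).1 / Sc| ≤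
        25 * 512 / 2 ^ 60 := by
      have e1 : ∑ j ∈ Finset.range 25, Xm d j * s ^ (2 * j) - (ev s (psc q) 0 0).1 / Sc =
          -(∑ j ∈ Finset.range 25, ((cs q j : ℝ) - Sc * Xm d j) * s ^ (2 * j)) / Sc := by
        rw [h3, eq_div_iff hS.ne', sub_mul, div_mul_cancel₀ _ hS.ne', Finset.sum_mul,
          ← Finset.sum_sub_distrib, ← Finset.sum_neg_distrib]
        exact Finset.sum_congr rfl fun j _ => by ring
      rw [e1, abs_div, abs_neg, abs_of_pos hS, ← hSv]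
      gcongr
      refine (Finset.abs_sum_le_sum_abs _ _).trans ?_
      calc ∑ j ∈ Finset.range 25, |((cs q j : ℝ) - Sc * Xm d j) * s ^ (2 * j)|
          ≤ ∑ j ∈ Finset.range 25, (512 : ℝ) := by
            refine Finset.sum_le_sum fun j _ => ?_
            rw [abs_mul, abs_of_nonneg (by positivity : 0 ≤ s ^ (2 * j))]
            calc |(cs q j : ℝ) - Sc * Xm d j| * s ^ (2 * j) ≤ 512 * 1 := by
                  gcongr
                  · exact bounds hd j
                  · exact pow_le_one₀ hs0 hs1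
              _ = 512 := by norm_num
        _ = 25 * 512 := by simp
    calc |J (d * (4 * s)) - (ev s (psc q) 0 0).1 / Sc|
        ≤ |J (d * (4 * s)) - ∑ j ∈ Finset.range 25, Xm d j * s ^ (2 * j)| +
          |∑ j ∈ Finset.range 25, Xm d j * s ^ (2 * j) - (ev s (psc q) 0 0).1 / Sc| :=
          abs_sub_le _ _ _
      _ ≤ 1 / 2 ^ 60 + 25 * 512 / 2 ^ 60 := add_le_add h1 h5
      _ ≤ 1 / 2 ^ 45 := by norm_num
  · have h5 : |∑ j ∈ Finset.range 25, Xm d j * (2 * (j : ℝ)) * s ^ (2 * j - 1) -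
        (ev s (psc q) 0 0).2 / Sc| ≤ 600 * 512 / 2 ^ 60 := by
      have e1 : ∑ j ∈ Finset.range 25, Xm d j * (2 * (j : ℝ)) * s ^ (2 * j - 1) -
          (ev s (psc q) 0 0).2 / Sc =
          -(∑ j ∈ Finset.range 25, ((cs q j : ℝ) - Sc * Xm d j) * (2 * (j : ℝ)) *
            s ^ (2 * j - 1)) / Sc := by
        rw [h4, eq_div_iff hS.ne', sub_mul, div_mul_cancel₀ _ hS.ne', Finset.sum_mul,
          ← Finset.sum_sub_distrib, ← Finset.sum_neg_distrib]
        exact Finset.sum_congr rfl fun j _ => by ring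
      rw [e1, abs_div, abs_neg, abs_of_pos hS, ← hSv]
      gcongr
      refine (Finset.abs_sum_le_sum_abs _ _).trans ?_
      calc ∑ j ∈ Finset.range 25, |((cs q j : ℝ) - Sc * Xm d j) * (2 * (j : ℝ)) * s ^ (2 * j - 1)|
          ≤ ∑ j ∈ Finset.range 25, (512 : ℝ) * (2 * (j : ℝ)) := by
            refine Finset.sum_le_sum fun j _ => ?_
            rw [abs_mul, abs_mul, abs_of_nonneg (by positivity : 0 ≤ s ^ (2 * j - 1)),
              abs_of_nonneg (by positivity : (0 : ℝ) ≤ 2 * (j : ℝ))]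
            calc |(cs q j : ℝ) - Sc * Xm d j| * (2 * (j : ℝ)) * s ^ (2 * j - 1) ≤
                  512 * (2 * (j : ℝ)) * 1 := by
                  gcongr
                  · exact bounds hd j
                  · exact pow_le_one₀ hs0 hs1
              _ = 512 * (2 * (j : ℝ)) := by ring
        _ = 600 * 512 := by
            simp only [Finset.sum_range_succ, Finset.sum_range_zero]
            norm_num
    calc |4 * d * Jn 1 (d * (4 * s)) - (ev s (psc q) 0 0).2 / Sc|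
        ≤ |4 * d * Jn 1 (d * (4 * s)) -
            ∑ j ∈ Finset.range 25, Xm d j * (2 * (j : ℝ)) * s ^ (2 * j - 1)| +
          |∑ j ∈ Finset.range 25, Xm d j * (2 * (j : ℝ)) * s ^ (2 * j - 1) -
            (ev s (psc q) 0 0).2 / Sc| := abs_sub_le _ _ _
      _ ≤ 1 / 2 ^ 55 + 600 * 512 / 2 ^ 60 := add_le_add h2 h5
      _ ≤ 1 / 2 ^ 41 := by norm_num

/-! ### The lists -/

theorem qv_iniL : ∀ L : List (ℤ × ℤ), qv (iniL L).1 = L
  | [] => rfl
  | e :: L => by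
    have h := qv_iniL L
    unfold qv at h ⊢
    simp only [iniL, List.map_cons]
    rw [h]

theorem length_iniL : ∀ L : List (ℤ × ℤ), (iniL L).2.length = 49
  | [] => by simp [iniL]
  | e :: L => by
    simp only [iniL]
    rw [length_addL _ _ _ (by rw [(psc_ev e.1 0).2.2, length_iniL L]), length_iniL L]

/-- the derivative of `W(4 s)` -/
noncomputable def W1 (D : List ℝ) (L : List (ℤ × ℤ)) (s : ℝ) : ℝ :=
  (List.zipWith (fun d (e : ℤ × ℤ) => (e.2 : ℝ) * (4 * d * Jn 1 (d * (4 * s)))) D L).sum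

theorem Wr_nil (t : ℝ) : Wr [] [] t = 0 := by simp [Wr]

theorem Wr_cons (d : ℝ) (v : ℤ) (D : List ℝ) (V : List ℤ) (t : ℝ) :
    Wr (d :: D) (v :: V) t = (v : ℝ) * J (d * t) + Wr D V t := by
  simp [Wr]

theorem W1_cons (d : ℝ) (e : ℤ × ℤ) (D : List ℝ) (L : List (ℤ × ℤ)) (s : ℝ) :
    W1 (d :: D) (e :: L) s = (e.2 : ℝ) * (4 * d * Jn 1 (d * (4 * s))) + W1 D L s := by
  simp [W1]

theorem approx (hD : JDerStmt) (hO : JOdeStmt) (hT : JTayStmt) {s : ℝ} (hs0 : 0 ≤ s)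
    (hs1 : s ≤ 1) {D : List ℝ} {L : List (ℤ × ℤ)} (h : List.Forall₂ (fun d e => Dq d e.1) D L) :
    |Wr D (L.map fun e => e.2) (4 * s) - (ev s (iniL L).2 0 0).1 / Sc| ≤
      (L.map fun e => |(e.2 : ℝ)|).sum * (1 / 2 ^ 45) ∧
    |W1 D L s - (ev s (iniL L).2 0 0).2 / Sc| ≤
      (L.map fun e => |(e.2 : ℝ)|).sum * (1 / 2 ^ 41) := by
  induction h with
  | nil =>
    have h1 := ev_rep s 49
    simp only [iniL, List.map_nil, Wr_nil, List.sum_nil, h1, W1, List.zipWith_nil_left]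
    simp
  | @cons d e D L hde _ ih =>
    obtain ⟨h1, h2⟩ := one hD hO hT hde hs0 hs1
    obtain ⟨h3, h4⟩ := ih
    obtain ⟨h5, h6⟩ := ev_addL s e.2 (psc e.1) (iniL L).2
      (by rw [(psc_ev e.1 0).2.2, length_iniL L]) 0 0 0 0
    rw [mul_zero, add_zero] at h5 h6
    have hS := Sc_pos
    rw [List.map_cons, List.map_cons, List.sum_cons, Wr_cons, W1_cons]
    simp only [iniL]
    rw [h5, h6]
    constructor
    · have e1 : (e.2 : ℝ) * J (d * (4 * s)) + Wr D (L.map fun e => e.2) (4 * s) -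
          ((e.2 : ℝ) * (ev s (psc e.1) 0 0).1 + (ev s (iniL L).2 0 0).1) / Sc =
          (e.2 : ℝ) * (J (d * (4 * s)) - (ev s (psc e.1) 0 0).1 / Sc) +
          (Wr D (L.map fun e => e.2) (4 * s) - (ev s (iniL L).2 0 0).1 / Sc) := by ring
      rw [e1]
      refine (abs_add_le _ _).trans ?_
      rw [abs_mul, add_mul]
      exact add_le_add (mul_le_mul_of_nonneg_left h1 (abs_nonneg _)) h3
    · have e1 : (e.2 : ℝ) * (4 * d * Jn 1 (d * (4 * s))) + W1 D L s -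
          ((e.2 : ℝ) * (ev s (psc e.1) 0 0).2 + (ev s (iniL L).2 0 0).2) / Sc =
          (e.2 : ℝ) * (4 * d * Jn 1 (d * (4 * s)) - (ev s (psc e.1) 0 0).2 / Sc) +
          (W1 D L s - (ev s (iniL L).2 0 0).2 / Sc) := by ring
      rw [e1]
      refine (abs_add_le _ _).trans ?_
      rw [abs_mul, add_mul]
      exact add_le_add (mul_le_mul_of_nonneg_left h2 (abs_nonneg _)) h4

theorem taylor (hD : JDerStmt) (hT : JTayStmt) (s z : ℝ) {D : List ℝ} {L : List (ℤ × ℤ)}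
    (h : List.Forall₂ (fun d e => Dq d e.1) D L) :
    |Wr D (L.map fun e => e.2) (4 * z) - Wr D (L.map fun e => e.2) (4 * s) -
      W1 D L s * (z - s)| ≤
      (List.zipWith (fun d (e : ℤ × ℤ) => |(e.2 : ℝ)| * d ^ 2) D L).sum * (8 * (z - s) ^ 2) := by
  induction h with
  | nil => simp [Wr, W1]
  | @cons d e D L hde _ ih =>
    have h1 := hT hD 0 2 (d * (4 * s)) (4 * d * (z - s))
    rw [Finset.sum_range_succ, Finset.sum_range_one] at h1
    simp only [add_zero, zero_add, pow_zero, mul_one, Nat.factorial_zero, Nat.cast_one, div_one,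
      pow_one, Nat.factorial_one, Nat.factorial_two, Nat.cast_ofNat, hD.1] at h1
    have e0 : d * (4 * s) + 4 * d * (z - s) = d * (4 * z) := by ring
    rw [e0, sq_abs] at h1
    rw [List.map_cons, Wr_cons, Wr_cons, W1_cons, List.zipWith_cons_cons, List.sum_cons]
    have e1 : (e.2 : ℝ) * J (d * (4 * z)) + Wr D (L.map fun e => e.2) (4 * z) -
        ((e.2 : ℝ) * J (d * (4 * s)) + Wr D (L.map fun e => e.2) (4 * s)) -
        ((e.2 : ℝ) * (4 * d * Jn 1 (d * (4 * s))) + W1 D L s) * (z - s) =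
        (e.2 : ℝ) * (J (d * (4 * z)) - (J (d * (4 * s)) + Jn 1 (d * (4 * s)) * (4 * d * (z - s)))) +
        (Wr D (L.map fun e => e.2) (4 * z) - Wr D (L.map fun e => e.2) (4 * s) -
          W1 D L s * (z - s)) := by ring
    rw [e1]
    refine (abs_add_le _ _).trans ?_
    rw [abs_mul, add_mul]
    refine add_le_add ?_ ih
    calc |(e.2 : ℝ)| * |J (d * (4 * z)) - (J (d * (4 * s)) + Jn 1 (d * (4 * s)) * (4 * d * (z - s)))|
        ≤ |(e.2 : ℝ)| * ((4 * d * (z - s)) ^ 2 / 2) := mul_le_mul_of_nonneg_left h1 (abs_nonneg _)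
      _ = |(e.2 : ℝ)| * d ^ 2 * (8 * (z - s) ^ 2) := by ring

theorem valid (hC : Chk1Stmt) (hD : JDerStmt) (hO : JOdeStmt) (hT : JTayStmt) {D : List ℝ}
    {L : List (ℤ × ℤ)} (h : List.Forall₂ (fun d e => Dq d e.1) D L) :
    Valid D (iniL L).1 4 (1 / 2 ^ 30) := by
  unfold Valid
  induction h with
  | nil => exact List.Forall₂.nil
  | @cons d e D L hde _ ih =>
    simp only [iniL]
    refine List.Forall₂.cons ⟨hde, ?_⟩ ih
    simp only
    obtain ⟨h1, h2⟩ := one hD hO hT hde zero_le_one le_rfl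
    obtain ⟨h3, h4⟩ := hC.2 (psc e.1) 4096 (by rw [(psc_ev e.1 0).2.2]) (by norm_num) le_rfl
    have e0 : (((4096 : ℤ) : ℝ) / 4096) = 1 := by norm_num
    rw [e0] at h3 h4
    rw [mul_one] at h1 h2
    set a : ℤ := (hu 4096 (psc e.1) 0 0).1 with ha
    set b : ℤ := (hu 4096 (psc e.1) 0 0).2 with hb
    set P : ℝ := (ev 1 (psc e.1) 0 0).1 with hP
    set Q : ℝ := (ev 1 (psc e.1) 0 0).2 with hQ
    obtain ⟨-, hd1, hd2⟩ := hde
    have hd0 : 0 < d := by linarith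
    have hS := Sc_pos
    have hSv : (Sc : ℝ) = 2 ^ 60 := by norm_num [Sc]
    unfold Er
    have k1 : |J (d * 4) - (a : ℝ) / Sc| ≤ 1 / 2 ^ 40 := by
      have e1 : J (d * 4) - (a : ℝ) / Sc = (J (d * 4) - P / Sc) - ((a : ℝ) - P) / Sc := by ring
      rw [e1]
      refine (abs_sub _ _).trans ?_
      rw [abs_div, abs_of_pos hS]
      calc |J (d * 4) - P / Sc| + |(a : ℝ) - P| / Sc ≤ 1 / 2 ^ 45 + 49 / Sc := by gcongr
        _ ≤ 1 / 2 ^ 40 := by
          rw [hSv]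
          norm_num
    have hbb1 : (b / 4 : ℤ) * 4 ≤ b := Int.ediv_mul_le _ (by norm_num)
    have hbb2 : b < (b / 4 + 1) * 4 := Int.lt_ediv_add_one_mul_self _ (by norm_num)
    have hbb : |((b / 4 : ℤ) : ℝ) * 4 - b| ≤ 4 := by
      have c1 : (((b / 4 : ℤ) : ℝ)) * 4 ≤ b := by exact_mod_cast hbb1
      have c2 : (b : ℝ) < (((b / 4 : ℤ) : ℝ) + 1) * 4 := by exact_mod_cast hbb2
      rw [abs_le]
      constructor <;> linarith
    have k2 : |Jn 1 (d * 4) - ((b / 4 : ℤ) : ℝ) / (Sc * d)| ≤ 1 / 2 ^ 38 := by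
      have e1 : Jn 1 (d * 4) - ((b / 4 : ℤ) : ℝ) / (Sc * d) =
          ((4 * d * Jn 1 (d * 4) - Q / Sc) - (((b : ℝ) - Q) / Sc +
            (((b / 4 : ℤ) : ℝ) * 4 - b) / Sc)) / (4 * d) := by
        field_simp
        ring
      rw [e1, abs_div, abs_of_pos (by positivity : 0 < 4 * d), div_le_iff₀ (by positivity)]
      refine (abs_sub _ _).trans ?_
      have e2 : |((b : ℝ) - Q) / Sc + (((b / 4 : ℤ) : ℝ) * 4 - b) / Sc| ≤ 2405 / Sc := by
        rw [← add_div, abs_div, abs_of_pos hS]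
        gcongr
        refine (abs_add_le _ _).trans ?_
        linarith
      calc |4 * d * Jn 1 (d * 4) - Q / Sc| + |((b : ℝ) - Q) / Sc +
            (((b / 4 : ℤ) : ℝ) * 4 - b) / Sc| ≤ 1 / 2 ^ 41 + 2405 / Sc := add_le_add h2 e2
        _ ≤ 1 / 2 ^ 38 * (4 * (1 / 12)) := by
          rw [hSv]
          norm_num
        _ ≤ 1 / 2 ^ 38 * (4 * d) := by gcongr
    have s1 : (J (d * 4) - (a : ℝ) / Sc) ^ 2 ≤ (1 / 2 ^ 40) ^ 2 := by
      rw [← sq_abs]
      gcongr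
    have s2 : (Jn 1 (d * 4) - ((b / 4 : ℤ) : ℝ) / (Sc * d)) ^ 2 ≤ (1 / 2 ^ 38) ^ 2 := by
      rw [← sq_abs]
      gcongr
    calc _ ≤ ((1 : ℝ) / 2 ^ 40) ^ 2 + (1 / 2 ^ 38) ^ 2 := add_le_add s1 s2
      _ ≤ (1 / 2 ^ 30) ^ 2 := by norm_num

end Ini_aux

open Ini_aux in
theorem iniStmt : IniStmt := by
  intro hC hD hO hT v₀ K D L S hDL hA hK hini
  unfold ini at hini
  simp only at hini
  split_ifs at hini with hchk
  obtain rfl : (iniL L).1 = S := Option.some.inj hini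
  refine ⟨qv_iniL L, valid hC hD hO hT hDL, ?_⟩
  intro t ht0 ht4
  set w := (iniL L).2 with hw
  have hlen : w.length = 49 := length_iniL L
  have hne : w ≠ [] := by
    intro h
    rw [h] at hlen
    simp at hlen
  have hS := Sc_pos
  have hSv : (Sc : ℝ) = 2 ^ 60 := by norm_num [Sc]
  set A : ℝ := (L.map fun e => |(e.2 : ℝ)|).sum with hAdef
  set G : ℝ := (List.zipWith (fun d (e : ℤ × ℤ) => |(e.2 : ℝ)| * d ^ 2) D L).sum with hG
  have hchk' : chk (addC v₀ w) (16 * K * Sc) 12 2048 (2 ^ 11) = true := by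
    rw [show (2 : ℤ) ^ 11 = 2048 by norm_num]
    exact hchk
  obtain ⟨z, rfl⟩ : ∃ z, t = 4 * z := ⟨t / 4, by ring⟩
  have hz0 : 0 ≤ z := by linarith
  have hz1 : z ≤ 1 := by linarith
  obtain ⟨u', h, hu1, hu2, hh0, hh1, hzu, hmain⟩ := hC.1 (addC v₀ w) (16 * K * Sc) 12 11 2048 hchk'
    le_rfl (by norm_num) (by norm_num) z (by push_cast; norm_num; exact hz0)
    (by push_cast; norm_num; exact hz1)
  have hu0 : 0 ≤ u' := by
    norm_num at hu1
    exact hu1
  have hu4 : u' ≤ 4096 := by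
    norm_num at hu2
    exact hu2
  obtain ⟨hv1, hv2⟩ := hC.2 (addC v₀ w) u' (by rw [length_addC, hlen]) hu0 hu4
  set s : ℝ := (u' : ℝ) / 4096 with hs
  have hs0 : 0 ≤ s := by
    have : (0 : ℝ) ≤ u' := by exact_mod_cast hu0
    positivity
  have hs1 : s ≤ 1 := by
    have : (u' : ℝ) ≤ 4096 := by exact_mod_cast hu4
    rw [hs, div_le_iff₀ (by norm_num)]
    linarith
  obtain ⟨ha1, ha2⟩ := ev_addC s v₀ w hne 0 0
  rw [ha1] at hv1
  rw [ha2] at hv2
  obtain ⟨hap1, hap2⟩ := approx hD hO hT hs0 hs1 hDL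
  have hty := taylor hD hT s z hDL
  rw [← hw, ← hAdef] at hap1 hap2
  rw [← hG] at hty
  set p : ℤ := (hu u' (addC v₀ w) 0 0).1 with hp
  set r : ℤ := (hu u' (addC v₀ w) 0 0).2 with hr
  set P : ℝ := (ev s w 0 0).1 with hP
  set Q : ℝ := (ev s w 0 0).2 with hQ
  set Wz : ℝ := Wr D (L.map fun e => e.2) (4 * z) with hWz
  set Ws : ℝ := Wr D (L.map fun e => e.2) (4 * s) with hWs
  set V1 : ℝ := W1 D L s with hV1
  -- the check in real numbers
  have hm : |(r : ℝ)| * (h * 8192) + 16 * K * Sc * (h * h) ≤ (p - 2 * Sc) * 33554432 := by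
    have := (Int.cast_le (R := ℝ)).2 hmain
    push_cast at this
    exact this
  set η : ℝ := (h : ℝ) / 4096 with hη
  have hη0 : 0 ≤ η := by
    have : (0 : ℝ) ≤ h := by exact_mod_cast hh0
    positivity
  have hη1 : η ≤ 1 := by
    have : (h : ℝ) ≤ 2048 := by
      have h2 : h ≤ 2048 := by
        norm_num at hh1
        exact hh1
      exact_mod_cast h2
    rw [hη, div_le_iff₀ (by norm_num)]
    linarith
  have hm' : |(r : ℝ)| / Sc * η + 8 * K * η ^ 2 ≤ p / Sc - 2 := by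
    have e1 : |(r : ℝ)| / Sc * η + 8 * K * η ^ 2 =
        (|(r : ℝ)| * (h * 8192) + 16 * K * Sc * (h * h)) / (33554432 * Sc) := by
      rw [hη]
      field_simp
      ring
    have e2 : (p : ℝ) / Sc - 2 = ((p - 2 * Sc) * 33554432) / (33554432 * Sc) := by
      field_simp
    rw [e1, e2]
    gcongr
  have hA0 : 0 ≤ A := by
    rw [hAdef]
    apply List.sum_nonneg
    intro x hx
    obtain ⟨e, -, rfl⟩ := List.mem_map.1 hx
    exact abs_nonneg _
  -- errors
  have x1 : |Ws - P / Sc| ≤ 1 / 100 := by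
    refine hap1.trans ?_
    calc A * (1 / 2 ^ 45) ≤ 4 * 10 ^ 6 * (1 / 2 ^ 45) := by gcongr
      _ ≤ 1 / 100 := by norm_num
  have x2 : |V1 - Q / Sc| ≤ 1 / 100 := by
    refine hap2.trans ?_
    calc A * (1 / 2 ^ 41) ≤ 4 * 10 ^ 6 * (1 / 2 ^ 41) := by gcongr
      _ ≤ 1 / 100 := by norm_num
  have x3 : |(p : ℝ) / Sc - (P / Sc + v₀)| ≤ 1 / 100 := by
    have e1 : (p : ℝ) / Sc - (P / Sc + v₀) = (p - (P + v₀ * Sc)) / Sc := by
      field_simp
    rw [e1, abs_div, abs_of_pos hS, div_le_iff₀ hS, hSv]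
    rw [hSv] at hv1
    refine hv1.trans ?_
    norm_num
  have x4 : |(r : ℝ) / Sc - Q / Sc| ≤ 1 / 100 := by
    rw [← sub_div, abs_div, abs_of_pos hS, div_le_iff₀ hS, hSv]
    refine hv2.trans ?_
    norm_num
  have x5 : |V1| ≤ |(r : ℝ)| / Sc + 2 / 100 := by
    have e1 : V1 = (V1 - Q / Sc) - ((r : ℝ) / Sc - Q / Sc) + (r : ℝ) / Sc := by ring
    calc |V1| = |(V1 - Q / Sc) - ((r : ℝ) / Sc - Q / Sc) + (r : ℝ) / Sc| := by rw [← e1]
      _ ≤ |(V1 - Q / Sc) - ((r : ℝ) / Sc - Q / Sc)| + |(r : ℝ) / Sc| := abs_add_le _ _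
      _ ≤ |V1 - Q / Sc| + |(r : ℝ) / Sc - Q / Sc| + |(r : ℝ) / Sc| := by
        gcongr
        exact abs_sub _ _
      _ = |V1 - Q / Sc| + |(r : ℝ) / Sc - Q / Sc| + |(r : ℝ)| / Sc := by
        rw [abs_div, abs_of_pos hS]
      _ ≤ _ := by linarith
  have x6 : |V1 * (z - s)| ≤ |(r : ℝ)| / Sc * η + 2 / 100 := by
    rw [abs_mul]
    calc |V1| * |z - s| ≤ (|(r : ℝ)| / Sc + 2 / 100) * η := by gcongr
      _ = |(r : ℝ)| / Sc * η + 2 / 100 * η := by ring
      _ ≤ |(r : ℝ)| / Sc * η + 2 / 100 * 1 := by gcongr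
      _ = _ := by ring
  have x7 : G * (8 * (z - s) ^ 2) ≤ 8 * K * η ^ 2 := by
    have e1 : (z - s) ^ 2 ≤ η ^ 2 := by
      rw [← sq_abs (z - s)]
      gcongr
    have hK0 : 0 ≤ (K : ℝ) := by
      refine le_trans ?_ hK
      rw [hG]
      apply List.sum_nonneg
      intro x hx
      rw [List.mem_iff_getElem] at hx
      obtain ⟨i, hi, rfl⟩ := hx
      rw [List.getElem_zipWith]
      positivity
    calc G * (8 * (z - s) ^ 2) ≤ K * (8 * (z - s) ^ 2) := by gcongr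
      _ ≤ K * (8 * η ^ 2) := by gcongr
      _ = _ := by ring
  have y1 := abs_le.1 x1
  have y3 := abs_le.1 x3
  have y6 := abs_le.1 x6
  have yt := abs_le.1 (hty.trans x7)
  linarith [y1.1, y1.2, y3.1, y3.2, y6.1, y6.2, yt.1, yt.2]

end Dadc30.Rec
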