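import Pool.Agent.Lib.MP_dadc30_coR.Defs

set_option autoImplicit false

/-!
# Module JDer: the derivatives of the Bessel function `J_0`
-/

open MeasureTheory Filter Topology
open scoped Real ComplexConjugate

namespace Dadc30.Rec

open Dadc30.Gap

namespace JDer_aux

lemma cont_f (n : ℕ) (x : ℝ) :
    Continuous (fun φ : ℝ => Real.cos φ ^ n * Real.cos (x * Real.cos φ + n * (π / 2))) := by
  fun_prop

lemma abs_f (n : ℕ) (x φ : ℝ) :
    |Real.cos φ ^ n * Real.cos (x * Real.cos φ + n * (π / 2))| ≤ 1 := by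
  rw [abs_mul, abs_pow]
  exact mul_le_one₀ (pow_le_one₀ (abs_nonneg _) (Real.abs_cos_le_one φ)) (abs_nonneg _)
    (Real.abs_cos_le_one _)

lemma der_f (n : ℕ) (x φ : ℝ) :
    HasDerivAt (fun x : ℝ => Real.cos φ ^ n * Real.cos (x * Real.cos φ + n * (π / 2)))
      (Real.cos φ ^ (n + 1) * Real.cos (x * Real.cos φ + ((n + 1 : ℕ) : ℝ) * (π / 2))) x := by
  have h1 : HasDerivAt (fun x : ℝ => x * Real.cos φ + n * (π / 2)) (1 * Real.cos φ) x :=
    ((hasDerivAt_id x).mul_const _).add_const _
  have h2 := (h1.cos).const_mul (Real.cos φ ^ n)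
  refine h2.congr_deriv ?_
  have h3 : x * Real.cos φ + ((n + 1 : ℕ) : ℝ) * (π / 2) =
      (x * Real.cos φ + n * (π / 2)) + π / 2 := by
    push_cast
    ring
  rw [h3, Real.cos_add_pi_div_two]
  ring

end JDer_aux

open JDer_aux in
theorem jDerStmt : JDerStmt := by
  refine ⟨?_, ?_, ?_⟩
  · intro x
    unfold Jn J
    simp
  · intro n x
    have h := intervalIntegral.hasDerivAt_integral_of_dominated_loc_of_deriv_le
      (μ := volume) (a := 0) (b := 2 * π) (x₀ := x) (s := Set.univ) (bound := fun _ => (1 : ℝ))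
      (F := fun x φ => Real.cos φ ^ n * Real.cos (x * Real.cos φ + n * (π / 2)))
      (F' := fun x φ => Real.cos φ ^ (n + 1) *
        Real.cos (x * Real.cos φ + ((n + 1 : ℕ) : ℝ) * (π / 2)))
      Filter.univ_mem
      (Filter.Eventually.of_forall fun y => (cont_f n y).aestronglyMeasurable)
      ((cont_f n x).intervalIntegrable _ _)
      ((cont_f (n + 1) x).aestronglyMeasurable)
      (Filter.Eventually.of_forall fun φ _ y _ => by
        rw [Real.norm_eq_abs]
        exact abs_f (n + 1) y φ)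
      (intervalIntegrable_const)
      (Filter.Eventually.of_forall fun φ _ y _ => der_f n y φ)
    exact h.2.const_mul ((2 * π)⁻¹)
  · intro n x
    have h1 := cavg_mono (cont_f n x) continuous_const
      (fun φ => (abs_le.1 (abs_f n x φ)).2)
    have h2 := cavg_mono continuous_const (cont_f n x)
      (fun φ => (abs_le.1 (abs_f n x φ)).1)
    rw [cavg_const] at h1 h2
    exact abs_le.2 ⟨h2, h1⟩

end Dadc30.Rec
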