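import Pool.Agent.Lib.MP_dadc30_coR.Defs

set_option autoImplicit false
set_option linter.all false

/-!
# MP_dadc30_co, Theorem R, module JEnergy
-/

open MeasureTheory Filter Topology
open scoped Real ComplexConjugate

namespace Dadc30.Rec

open Dadc30.Gap

namespace JEnergy_aux

/-- the pointwise estimate for the derivative of the energy -/
theorem bound {x y y1 y2 q ρ κ s : ℝ} (hx : 0 < x) (hκ : 0 < κ) (hs : 0 < s)
    (hρ : 0 ≤ ρ) (hE : y ^ 2 + y1 ^ 2 = s ^ 2) (hr : |q| ≤ ρ) (h : y2 = -(y1 / x) - y - q) :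
    2 * y * y1 + 2 * y1 * y2 < 2 * s * (ρ + κ) := by
  have h1 : |y1| ≤ s := by
    refine abs_le_of_sq_le_sq ?_ hs.le
    nlinarith [sq_nonneg y]
  have h2 : 0 ≤ y1 ^ 2 / x := by positivity
  have h3 : 2 * y * y1 + 2 * y1 * y2 = -2 * (y1 ^ 2 / x) - 2 * (y1 * q) := by
    rw [h]
    field_simp
    ring
  have h4 : -(y1 * q) ≤ s * ρ := by
    have h5 : |y1 * q| ≤ s * ρ := by
      rw [abs_mul]
      exact mul_le_mul h1 hr (abs_nonneg _) hs.le
    exact (neg_le_abs _).trans h5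
  rw [h3]
  nlinarith [mul_pos hs hκ]

end JEnergy_aux

theorem jEnergyStmt : JEnergyStmt := by
  intro hDer hOde p p' p'' x₀ x₁ ε ρ hx₀ hx hε hρ hp hp' hode hinit
  obtain ⟨hB, -⟩ := hOde hDer
  obtain ⟨hJ0, hJd, -⟩ := hDer
  rw [← hJ0 x₀] at hinit
  rw [← hJ0 x₁]
  -- the energy
  have hderiv : ∀ x ∈ Set.Icc x₀ x₁, HasDerivAt
      (fun x => (Jn 0 x - p x) ^ 2 + (Jn 1 x - p' x) ^ 2)
      (2 * (Jn 0 x - p x) * (Jn 1 x - p' x) + 2 * (Jn 1 x - p' x) * (Jn 2 x - p'' x)) x := by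
    intro x hx'
    have h1 := ((hJd 0 x).sub (hp x hx')).pow 2
    have h2 := ((hJd 1 x).sub (hp' x hx')).pow 2
    have h3 := h1.add h2
    refine h3.congr_deriv ?_
    simp only [Pi.sub_apply, Nat.cast_ofNat, zero_add, Nat.reduceAdd, Nat.reduceSub, pow_one]
  have key : ∀ κ : ℝ, 0 < κ → (Jn 0 x₁ - p x₁) ^ 2 + (Jn 1 x₁ - p' x₁) ^ 2 ≤
      (ε + κ + (ρ + κ) * (x₁ - x₀)) ^ 2 := by
    intro κ hκ
    have hBd : ∀ x, HasDerivAt (fun x => (ε + κ + (ρ + κ) * (x - x₀)) ^ 2)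
        (2 * (ε + κ + (ρ + κ) * (x - x₀)) * (ρ + κ)) x := by
      intro x
      have h1 : HasDerivAt (fun x => ε + κ + (ρ + κ) * (x - x₀)) ((ρ + κ) * 1) x :=
        ((((hasDerivAt_id x).sub_const x₀).const_mul (ρ + κ))).const_add (ε + κ)
      have h2 := h1.pow 2
      refine h2.congr_deriv ?_
      simp only [Nat.cast_ofNat, Nat.reduceSub, pow_one, mul_one]
    refine image_le_of_deriv_right_lt_deriv_boundary
      (f := fun x => (Jn 0 x - p x) ^ 2 + (Jn 1 x - p' x) ^ 2)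
      (B := fun x => (ε + κ + (ρ + κ) * (x - x₀)) ^ 2)
      (fun x hx' => (hderiv x hx').continuousAt.continuousWithinAt)
      (fun x hx' => (hderiv x ⟨hx'.1, hx'.2.le⟩).hasDerivWithinAt) ?_ hBd ?_ ⟨hx, le_rfl⟩
    · change (Jn 0 x₀ - p x₀) ^ 2 + (Jn 1 x₀ - p' x₀) ^ 2 ≤ (ε + κ + (ρ + κ) * (x₀ - x₀)) ^ 2
      rw [sub_self, mul_zero, add_zero]
      nlinarith
    · intro x hx' hEq
      have hx'' : x ∈ Set.Icc x₀ x₁ := ⟨hx'.1, hx'.2.le⟩
      have hxpos : 0 < x := hx₀.trans_le hx'.1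
      have hspos : 0 < ε + κ + (ρ + κ) * (x - x₀) := by
        have h1 : 0 ≤ (ρ + κ) * (x - x₀) :=
          mul_nonneg (by linarith) (by linarith [hx'.1])
        linarith
      refine JEnergy_aux.bound hxpos hκ hspos hρ hEq (hode x hx'') ?_
      have h2 := hB x
      have h3 : Jn 2 x = -(Jn 1 x / x) - Jn 0 x := by
        field_simp
        linarith
      rw [h3]
      ring
  have hlim : Tendsto (fun κ : ℝ => (ε + κ + (ρ + κ) * (x₁ - x₀)) ^ 2) (𝓝[>] 0)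
      (𝓝 ((ε + ρ * (x₁ - x₀)) ^ 2)) := by
    have h1 : Continuous (fun κ : ℝ => (ε + κ + (ρ + κ) * (x₁ - x₀)) ^ 2) := by fun_prop
    have h2 := h1.tendsto 0
    simp only [add_zero] at h2
    exact h2.mono_left nhdsWithin_le_nhds
  exact ge_of_tendsto hlim (Filter.eventually_of_mem self_mem_nhdsWithin fun κ hκ => key κ hκ)

end Dadc30.Rec
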