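import Pool.Agent.Lib.MP_dadc30_coR.Defs

set_option autoImplicit false

/-!
# Module JOde: the equation of Bessel and its derivatives
-/

open MeasureTheory Filter Topology
open scoped Real ComplexConjugate

namespace Dadc30.Rec

open Dadc30.Gap

namespace JOde_aux

/-- the average of a derivative of a periodic function is zero -/
lemma cavg_der {g g' : ℝ → ℝ} (hg : ∀ φ, HasDerivAt g (g' φ) φ) (hc : Continuous g')
    (hp : g (2 * π) = g 0) : cavg g' = 0 := by
  unfold cavg
  rw [intervalIntegral.integral_eq_sub_of_hasDerivAt (fun φ _ => hg φ)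
    (hc.intervalIntegrable _ _), hp, sub_self, mul_zero]

lemma jn1 (x : ℝ) : Jn 1 x = cavg fun φ => -(Real.cos φ * Real.sin (x * Real.cos φ)) := by
  unfold Jn
  congr 1
  funext φ
  rw [Nat.cast_one, one_mul, Real.cos_add_pi_div_two]
  ring

lemma jn2 (x : ℝ) : Jn 2 x = cavg fun φ => -(Real.cos φ ^ 2 * Real.cos (x * Real.cos φ)) := by
  unfold Jn
  congr 1
  funext φ
  have h : ((2 : ℕ) : ℝ) * (π / 2) = π := by push_cast; ring
  rw [h, Real.cos_add_pi]
  ring

lemma jn0 (x : ℝ) : Jn 0 x = cavg fun φ => Real.cos (x * Real.cos φ) := by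
  unfold Jn
  congr 1
  funext φ
  rw [Nat.cast_zero, zero_mul, add_zero, pow_zero, one_mul]

lemma first (x : ℝ) : x * Jn 2 x + Jn 1 x + x * Jn 0 x = 0 := by
  rw [jn0, jn1, jn2, ← cavg_mul, ← cavg_mul, ← cavg_add (by fun_prop) (by fun_prop),
    ← cavg_add (by fun_prop) (by fun_prop)]
  have hd : ∀ φ : ℝ, HasDerivAt (fun φ => -(Real.sin φ * Real.sin (x * Real.cos φ)))
      (x * -(Real.cos φ ^ 2 * Real.cos (x * Real.cos φ)) +
        -(Real.cos φ * Real.sin (x * Real.cos φ)) + x * Real.cos (x * Real.cos φ)) φ := by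
    intro φ
    have h1 : HasDerivAt (fun φ => Real.sin (x * Real.cos φ))
        (Real.cos (x * Real.cos φ) * (x * -Real.sin φ)) φ :=
      ((Real.hasDerivAt_cos φ).const_mul x).sin
    have h2 := ((Real.hasDerivAt_sin φ).mul h1).neg
    refine h2.congr_deriv ?_
    have h3 := Real.sin_sq φ
    linear_combination (x * Real.cos (x * Real.cos φ)) * h3
  exact cavg_der hd (by fun_prop) (by simp)

end JOde_aux

open JOde_aux in
theorem jOdeStmt : JOdeStmt := by
  rintro ⟨-, hD, -⟩
  refine ⟨first, ?_⟩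
  intro n
  induction n with
  | zero =>
    intro x
    have h1 : HasDerivAt (fun x => x * Jn 2 x + Jn 1 x + x * Jn 0 x)
        ((1 * Jn 2 x + x * Jn 3 x) + Jn 2 x + (1 * Jn 0 x + x * Jn 1 x)) x :=
      (((hasDerivAt_id x).mul (hD 2 x)).add (hD 1 x)).add ((hasDerivAt_id x).mul (hD 0 x))
    have h2 : (fun x => x * Jn 2 x + Jn 1 x + x * Jn 0 x) = fun _ => (0 : ℝ) := by
      funext y
      exact first y
    rw [h2] at h1
    have h3 := h1.unique (hasDerivAt_const x (0 : ℝ))
    simp only [Nat.cast_zero, zero_add]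
    linarith
  | succ n ih =>
    intro x
    have h1 : HasDerivAt (fun x => x * Jn (n + 3) x + ((n : ℝ) + 2) * Jn (n + 2) x +
        x * Jn (n + 1) x + ((n : ℝ) + 1) * Jn n x)
        ((1 * Jn (n + 3) x + x * Jn (n + 4) x) + ((n : ℝ) + 2) * Jn (n + 3) x +
          (1 * Jn (n + 1) x + x * Jn (n + 2) x) + ((n : ℝ) + 1) * Jn (n + 1) x) x :=
      ((((hasDerivAt_id x).mul (hD (n + 3) x)).add ((hD (n + 2) x).const_mul _)).add
        ((hasDerivAt_id x).mul (hD (n + 1) x))).add ((hD n x).const_mul _)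
    have h2 : (fun x => x * Jn (n + 3) x + ((n : ℝ) + 2) * Jn (n + 2) x +
        x * Jn (n + 1) x + ((n : ℝ) + 1) * Jn n x) = fun _ => (0 : ℝ) := by
      funext y
      exact ih y
    rw [h2] at h1
    have h3 := h1.unique (hasDerivAt_const x (0 : ℝ))
    have e1 : n + 1 + 3 = n + 4 := by ring
    have e2 : n + 1 + 2 = n + 3 := by ring
    have e3 : n + 1 + 1 = n + 2 := by ring
    rw [e1, e2, e3]
    push_cast
    linarith

end Dadc30.Rec
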