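import Pool.Agent.Lib.MP_dadc30_coR.Defs

set_option autoImplicit false

open MeasureTheory Filter Topology
open scoped Real ComplexConjugate

namespace Dadc30.Rec

namespace JTay_aux

theorem deriv_sum (m N : ℕ) (x s t : ℝ) :
    HasDerivAt (fun t : ℝ => ∑ k ∈ Finset.range (N + 1), Jn (m + k) x * (s * t) ^ k / k.factorial)
      (s * ∑ k ∈ Finset.range N, Jn (m + 1 + k) x * (s * t) ^ k / k.factorial) t := by
  have h1 : ∀ k : ℕ, HasDerivAt (fun t : ℝ => Jn (m + (k + 1)) x * (s * t) ^ (k + 1) /
      (k + 1).factorial) (s * (Jn (m + 1 + k) x * (s * t) ^ k / k.factorial)) t := by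
    intro k
    have h2 : HasDerivAt (fun t : ℝ => s * t) s t := by
      simpa using (hasDerivAt_id t).const_mul s
    have h3 := ((h2.pow (k + 1)).const_mul (Jn (m + (k + 1)) x)).div_const
      ((k + 1).factorial : ℝ)
    have h4 : ((k + 1).factorial : ℝ) = (k + 1) * k.factorial := by
      rw [Nat.factorial_succ]
      push_cast
      ring
    have h5 : (k.factorial : ℝ) ≠ 0 := by exact_mod_cast k.factorial_ne_zero
    have h6 : (k : ℝ) + 1 ≠ 0 := by positivity
    have h7 : m + (k + 1) = m + 1 + k := by ring
    refine h3.congr_deriv ?_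
    rw [h7, h4]
    push_cast
    field_simp
  have h8 : (fun t : ℝ => ∑ k ∈ Finset.range (N + 1), Jn (m + k) x * (s * t) ^ k / k.factorial) =
      fun t : ℝ => ∑ k ∈ Finset.range N, Jn (m + (k + 1)) x * (s * t) ^ (k + 1) /
        (k + 1).factorial + Jn m x := by
    funext t
    rw [Finset.sum_range_succ']
    simp
  rw [h8, Finset.mul_sum]
  exact (HasDerivAt.fun_sum fun k _ => h1 k).add_const _

theorem main (hD : JDerStmt) (N : ℕ) : ∀ (m : ℕ) (x s t : ℝ), |s| = 1 → 0 ≤ t →
    |Jn m (x + s * t) - ∑ k ∈ Finset.range N, Jn (m + k) x * (s * t) ^ k / k.factorial| ≤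
      t ^ N / N.factorial := by
  obtain ⟨-, hd, hb⟩ := hD
  induction N with
  | zero =>
    intro m x s t hs ht
    simpa using hb m (x + s * t)
  | succ N ih =>
    intro m x s t hs ht
    have hder : ∀ t : ℝ, HasDerivAt (fun t : ℝ => Jn m (x + s * t) -
        ∑ k ∈ Finset.range (N + 1), Jn (m + k) x * (s * t) ^ k / k.factorial)
        (s * (Jn (m + 1) (x + s * t) -
          ∑ k ∈ Finset.range N, Jn (m + 1 + k) x * (s * t) ^ k / k.factorial)) t := by
      intro t
      have h2 : HasDerivAt (fun t : ℝ => x + s * t) s t := by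
        simpa using ((hasDerivAt_id t).const_mul s).const_add x
      have h3 := (hd m (x + s * t)).comp t h2
      have h4 := h3.sub (deriv_sum m N x s t)
      refine h4.congr_deriv ?_
      ring
    have hB : ∀ t : ℝ, HasDerivAt (fun t : ℝ => t ^ (N + 1) / ((N + 1).factorial : ℝ))
        (t ^ N / (N.factorial : ℝ)) t := by
      intro t
      have h3 := (hasDerivAt_pow (N + 1) t).div_const ((N + 1).factorial : ℝ)
      have h4 : ((N + 1).factorial : ℝ) = (N + 1) * N.factorial := by
        rw [Nat.factorial_succ]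
        push_cast
        ring
      have h5 : (N.factorial : ℝ) ≠ 0 := by exact_mod_cast N.factorial_ne_zero
      have h6 : (N : ℝ) + 1 ≠ 0 := by positivity
      refine h3.congr_deriv ?_
      rw [h4]
      push_cast
      field_simp
    have key := image_norm_le_of_norm_deriv_right_le_deriv_boundary
      (f := fun t : ℝ => Jn m (x + s * t) -
        ∑ k ∈ Finset.range (N + 1), Jn (m + k) x * (s * t) ^ k / k.factorial)
      (f' := fun t : ℝ => s * (Jn (m + 1) (x + s * t) -
          ∑ k ∈ Finset.range N, Jn (m + 1 + k) x * (s * t) ^ k / k.factorial))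
      (a := 0) (b := t) (B := fun t : ℝ => t ^ (N + 1) / ((N + 1).factorial : ℝ))
      (B' := fun t : ℝ => t ^ N / (N.factorial : ℝ))
      (fun t _ => (hder t).continuousAt.continuousWithinAt)
      (fun t _ => (hder t).hasDerivWithinAt)
      (by
        rw [Finset.sum_range_succ']
        simp) hB
      (by
        intro u hu
        rw [Real.norm_eq_abs, abs_mul, hs, one_mul]
        exact ih (m + 1) x s u hs hu.1)
    have h := key (show t ∈ Set.Icc (0 : ℝ) t from ⟨ht, le_rfl⟩)
    rwa [Real.norm_eq_abs] at h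

end JTay_aux

open JTay_aux in
theorem jTayStmt : JTayStmt := by
  intro hD m N x h
  rcases le_total 0 h with h0 | h0
  · have := main hD N m x 1 h (by norm_num) h0
    rw [one_mul] at this
    rwa [abs_of_nonneg h0]
  · have := main hD N m x (-1) (-h) (by norm_num) (by linarith)
    rw [neg_one_mul, neg_neg] at this
    rwa [abs_of_nonpos h0]

end Dadc30.Rec
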