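import Pool.Agent.Lib.MP_dadc30_coR.Num

set_option linter.all false

open MeasureTheory Filter Topology
open scoped Real

namespace Dadc30.Rec

open Dadc30.Gap

namespace Run_aux

theorem ev_addL (s : ℝ) (v : ℤ) : ∀ (l w : List ℤ), l.length = w.length → ∀ a b a' b' : ℝ,
    ev s (addL v l w) ((v : ℝ) * a + a') ((v : ℝ) * b + b') =
      ((v : ℝ) * (ev s l a b).1 + (ev s w a' b').1,
        (v : ℝ) * (ev s l a b).2 + (ev s w a' b').2) := by
  intro l
  induction l with
  | nil =>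
    intro w hw a b a' b'
    cases w with
    | nil => simp [addL, ev]
    | cons x w => simp at hw
  | cons c l ih =>
    intro w hw a b a' b'
    cases w with
    | nil => simp at hw
    | cons x w =>
      have hl : l.length = w.length := by simpa using hw
      simp only [addL, ev]
      rw [← ih w hl (c + a * s) (a + b * s) (x + a' * s) (a' + b' * s)]
      congr 1 <;> push_cast <;> ring

theorem ev_addL0 (s : ℝ) (v : ℤ) (l w : List ℤ) (h : l.length = w.length) :
    ev s (addL v l w) 0 0 = ((v : ℝ) * (ev s l 0 0).1 + (ev s w 0 0).1,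
        (v : ℝ) * (ev s l 0 0).2 + (ev s w 0 0).2) := by
  have := ev_addL s v l w h 0 0 0 0
  simpa using this

theorem length_addL (v : ℤ) : ∀ (l w : List ℤ), l.length = w.length →
    (addL v l w).length = w.length := by
  intro l
  induction l with
  | nil =>
    intro w hw
    cases w with
    | nil => simp [addL]
    | cons x w => simp at hw
  | cons c l ih =>
    intro w hw
    cases w with
    | nil => simp at hw
    | cons x w =>
      have hl : l.length = w.length := by simpa using hw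
      simp [addL, ih w hl]

theorem length_cfA (q k : ℤ) : ∀ (m : ℕ) (n p c r : ℤ) (l : List ℤ),
    (cfA q k m n p c r l).length = m + l.length := by
  intro m
  induction m with
  | zero => intro n p c r l; simp [cfA]
  | succ m ih =>
    intro n p c r l
    simp only [cfA, ih, List.length_cons]
    ring

theorem length_cf (q k a b : ℤ) : (cf q k a b).length = 19 := by
  simp [cf, length_cfA]

theorem ev_rep (s : ℝ) : ∀ m : ℕ, ev s (List.replicate m 0) 0 0 = (0, 0) := by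
  intro m
  induction m with
  | zero => simp [ev]
  | succ m ih =>
    rw [List.replicate_succ]
    simp only [ev, Int.cast_zero, zero_mul, add_zero]
    exact ih

theorem ev_addC (s : ℝ) (v₀ : ℤ) : ∀ (l : List ℤ), l ≠ [] → ∀ a b : ℝ,
    ev s (addC v₀ l) a b = ((ev s l a b).1 + (v₀ : ℝ) * (Sc : ℝ), (ev s l a b).2) := by
  intro l
  induction l with
  | nil => intro h; exact absurd rfl h
  | cons c l ih =>
    intro _ a b
    cases l with
    | nil =>
      simp only [addC, ev]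
      ext <;> push_cast <;> ring
    | cons x l =>
      rw [show addC v₀ (c :: x :: l) = c :: addC v₀ (x :: l) by simp [addC]]
      simp only [ev]
      exact ih (by simp) _ _

theorem length_addC (v₀ : ℤ) : ∀ (l : List ℤ), (addC v₀ l).length = l.length := by
  intro l
  induction l with
  | nil => simp [addC]
  | cons c l ih =>
    cases l with
    | nil => simp [addC]
    | cons x l =>
      rw [show addC v₀ (c :: x :: l) = c :: addC v₀ (x :: l) by simp [addC]]
      simp [ih]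

theorem Wr_eq (D : List ℝ) (V : List ℤ) (t : ℝ) :
    Wr D V t = (List.zipWith (fun (d : ℝ) (v : ℤ) => (v : ℝ) * J (d * t)) D V).sum := by
  unfold Wr
  simp only [bind_pure_comp, List.map_eq_map, List.zipWith_map_right]

/-- the derivative of `Wr` -/
noncomputable def Wd (D : List ℝ) (V : List ℤ) (t : ℝ) : ℝ :=
  (List.zipWith (fun (d : ℝ) (v : ℤ) => (v : ℝ) * (d * Jn 1 (d * t))) D V).sum

theorem Sc_pos : (0 : ℝ) < (Sc : ℝ) := by norm_num [Sc]

/-- one cell, all distances -/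
theorem cell (hS : StepStmt) (h1 : JDerStmt) (h2 : JOdeStmt) (h3 : JEnergyStmt) (k : ℕ) (ε : ℝ)
    (hk : 8 ≤ k) (hε : 0 ≤ ε) (hε' : ε ≤ 1 / 2) :
    ∀ (S : List Rc) (D : List ℝ) (r : List Rc × List ℤ), Valid D S (k / 2) ε →
    stL (k : ℤ) S = some r →
    qv r.1 = qv S ∧ Valid D r.1 ((k + 1) / 2) (ε + 1 / 2 ^ 32) ∧ r.2.length = 19 ∧
    ∀ s : ℝ, 0 ≤ s → s ≤ 1 / 2 →
      |Wr D (S.map fun e => e.2.1) (k / 2 + s) - (ev s r.2 0 0).1 / (Sc : ℝ)| ≤
        (S.map fun e => |(e.2.1 : ℝ)|).sum * (ε + 1 / 2 ^ 33) ∧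
      |Wd D (S.map fun e => e.2.1) (k / 2 + s) - (ev s r.2 0 0).2 / (Sc : ℝ)| ≤
        2 * ((S.map fun e => |(e.2.1 : ℝ)|).sum * (ε + 1 / 2 ^ 33)) := by
  intro S
  induction S with
  | nil =>
    intro D r hV hr
    have hD : D = [] := by
      unfold Valid at hV
      simpa using hV
    subst hD
    simp only [stL, Option.some.injEq] at hr
    subst hr
    refine ⟨rfl, ?_, by simp, ?_⟩
    · simp [Valid]
    · intro s _ _
      simp only [ev_rep]
      simp [Wr_eq, Wd]
  | cons e L ih =>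
    intro D r hV hr
    unfold Valid at hV
    cases hV with
    | cons hd hV =>
      rename_i d D
      obtain ⟨hdq, her⟩ := hd
      simp only [stL] at hr
      cases hL : stL (k : ℤ) L with
      | none => rw [hL] at hr; simp at hr
      | some r' =>
        rw [hL] at hr
        simp only at hr
        split_ifs at hr with htop
        simp only [Option.some.injEq] at hr
        obtain ⟨hq, hV', hlen, hev⟩ := ih D r' hV hL
        obtain ⟨hst1, hst2⟩ := hS h1 h2 h3 k d ε e.1 e.2.2.1 e.2.2.2 hk hε hε' hdq htop her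
        subst hr
        have hlen2 : (cf e.1 (k : ℤ) e.2.2.1 e.2.2.2).length = r'.2.length := by
          rw [length_cf, hlen]
        refine ⟨?_, ?_, ?_, ?_⟩
        · simp only [qv, List.map_cons] at hq ⊢
          rw [hq]
        · unfold Valid
          exact List.Forall₂.cons ⟨hdq, hst2⟩ hV'
        · simp only
          rw [length_addL _ _ _ hlen2, hlen]
        · intro s hs0 hs1
          obtain ⟨hw1, hw2⟩ := hev s hs0 hs1
          have hE := hst1 s hs0 hs1
          unfold Er at hE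
          have hd0 : 0 < d := lt_of_lt_of_le (by norm_num) hdq.2.1
          have hd2 : d ≤ 2 := hdq.2.2
          have hε2 : 0 ≤ ε + 1 / 2 ^ 33 := by positivity
          have ha : |J (d * (k / 2 + s)) - (ev s (cf e.1 k e.2.2.1 e.2.2.2) 0 0).1 / (Sc : ℝ)| ≤
              ε + 1 / 2 ^ 33 := by
            apply abs_le_of_sq_le_sq _ hε2
            nlinarith [sq_nonneg (Jn 1 (d * (k / 2 + s)) -
              (ev s (cf e.1 k e.2.2.1 e.2.2.2) 0 0).2 / ((Sc : ℝ) * d))]
          have hb : |Jn 1 (d * (k / 2 + s)) -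
              (ev s (cf e.1 k e.2.2.1 e.2.2.2) 0 0).2 / ((Sc : ℝ) * d)| ≤ ε + 1 / 2 ^ 33 := by
            apply abs_le_of_sq_le_sq _ hε2
            nlinarith [sq_nonneg (J (d * (k / 2 + s)) -
              (ev s (cf e.1 k e.2.2.1 e.2.2.2) 0 0).1 / (Sc : ℝ))]
          have hb' : |d * Jn 1 (d * (k / 2 + s)) -
              (ev s (cf e.1 k e.2.2.1 e.2.2.2) 0 0).2 / (Sc : ℝ)| ≤ 2 * (ε + 1 / 2 ^ 33) := by
            have : d * Jn 1 (d * (k / 2 + s)) -
              (ev s (cf e.1 k e.2.2.1 e.2.2.2) 0 0).2 / (Sc : ℝ) = d * (Jn 1 (d * (k / 2 + s)) -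
              (ev s (cf e.1 k e.2.2.1 e.2.2.2) 0 0).2 / ((Sc : ℝ) * d)) := by
              have := Sc_pos.ne'
              field_simp
            rw [this, abs_mul, abs_of_pos hd0]
            exact mul_le_mul hd2 hb (abs_nonneg _) (by norm_num)
          rw [ev_addL0 _ _ _ _ hlen2]
          simp only [List.map_cons, List.sum_cons, Wr_eq, Wd, List.zipWith_cons_cons] at hw1 hw2 ⊢
          constructor
          · have h5 := mul_le_mul_of_nonneg_left ha (abs_nonneg (e.2.1 : ℝ))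
            rw [← abs_mul] at h5
            calc _ = |(e.2.1 : ℝ) * (J (d * (k / 2 + s)) -
                (ev s (cf e.1 k e.2.2.1 e.2.2.2) 0 0).1 / (Sc : ℝ)) +
                ((List.zipWith (fun (d : ℝ) (v : ℤ) => (v : ℝ) * J (d * (k / 2 + s))) D
                  (List.map (fun e => e.2.1) L)).sum - (ev s r'.2 0 0).1 / (Sc : ℝ))| := by
                  congr 1; ring
              _ ≤ _ := abs_add_le _ _
              _ ≤ |(e.2.1 : ℝ)| * (ε + 1 / 2 ^ 33) +
                (L.map fun e => |(e.2.1 : ℝ)|).sum * (ε + 1 / 2 ^ 33) := add_le_add h5 hw1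
              _ = _ := by ring
          · have h5 := mul_le_mul_of_nonneg_left hb' (abs_nonneg (e.2.1 : ℝ))
            rw [← abs_mul] at h5
            calc _ = |(e.2.1 : ℝ) * (d * Jn 1 (d * (k / 2 + s)) -
                (ev s (cf e.1 k e.2.2.1 e.2.2.2) 0 0).2 / (Sc : ℝ)) +
                ((List.zipWith (fun (d : ℝ) (v : ℤ) => (v : ℝ) * (d * Jn 1 (d * (k / 2 + s)))) D
                  (List.map (fun e => e.2.1) L)).sum - (ev s r'.2 0 0).2 / (Sc : ℝ))| := by
                  congr 1; ring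
              _ ≤ _ := abs_add_le _ _
              _ ≤ |(e.2.1 : ℝ)| * (2 * (ε + 1 / 2 ^ 33)) +
                2 * ((L.map fun e => |(e.2.1 : ℝ)|).sum * (ε + 1 / 2 ^ 33)) := add_le_add h5 hw2
              _ = _ := by ring

theorem tay1 (h1 : JDerStmt) (h6 : JTayStmt) (d t t' : ℝ) :
    |J (d * t) - J (d * t') - (t - t') * (d * Jn 1 (d * t'))| ≤ d ^ 2 * ((t - t') ^ 2 / 2) := by
  have h := h6 h1 0 2 (d * t') (d * (t - t'))
  simp only [Finset.sum_range_succ, Finset.range_zero, Finset.sum_empty, zero_add, pow_zero,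
    mul_one, Nat.factorial, Nat.cast_one, div_one, pow_one] at h
  rw [show d * t' + d * (t - t') = d * t by ring, h1.1, h1.1, sq_abs] at h
  have e1 : J (d * t) - J (d * t') - (t - t') * (d * Jn 1 (d * t')) =
    J (d * t) - (J (d * t') + Jn 1 (d * t') * (d * (t - t'))) := by ring
  rw [e1]
  refine le_trans ?_ (le_trans h (le_of_eq ?_))
  · apply le_of_eq
    congr 2
  · push_cast
    ring

theorem taylor (h1 : JDerStmt) (h6 : JTayStmt) (t t' : ℝ) : ∀ (D : List ℝ) (S : List Rc),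
    |Wr D (S.map fun e => e.2.1) t - Wr D (S.map fun e => e.2.1) t' -
      (t - t') * Wd D (S.map fun e => e.2.1) t'| ≤
      (List.zipWith (fun d (e : Rc) => |(e.2.1 : ℝ)| * d ^ 2) D S).sum * ((t - t') ^ 2 / 2) ∧
    0 ≤ (List.zipWith (fun d (e : Rc) => |(e.2.1 : ℝ)| * d ^ 2) D S).sum := by
  intro D
  induction D with
  | nil => intro S; simp [Wr_eq, Wd]
  | cons d D ih =>
    intro S
    cases S with
    | nil => simp [Wr_eq, Wd]
    | cons e S =>
      obtain ⟨ha, hb⟩ := ih S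
      have h := mul_le_mul_of_nonneg_left (tay1 h1 h6 d t t') (abs_nonneg (e.2.1 : ℝ))
      rw [← abs_mul] at h
      simp only [List.map_cons, List.sum_cons, Wr_eq, Wd, List.zipWith_cons_cons] at ha ⊢
      refine ⟨?_, by positivity⟩
      calc _ = |(e.2.1 : ℝ) * (J (d * t) - J (d * t') - (t - t') * (d * Jn 1 (d * t'))) +
          ((List.zipWith (fun (d : ℝ) (v : ℤ) => (v : ℝ) * J (d * t)) D
            (List.map (fun e => e.2.1) S)).sum -
          (List.zipWith (fun (d : ℝ) (v : ℤ) => (v : ℝ) * J (d * t')) D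
            (List.map (fun e => e.2.1) S)).sum -
          (t - t') * (List.zipWith (fun (d : ℝ) (v : ℤ) => (v : ℝ) * (d * Jn 1 (d * t'))) D
            (List.map (fun e => e.2.1) S)).sum)| := by
            congr 1; ring
        _ ≤ _ := abs_add_le _ _
        _ ≤ _ := add_le_add h ha
        _ = _ := by ring

theorem sumabs_nonneg : ∀ S : List Rc, 0 ≤ (S.map fun e => |(e.2.1 : ℝ)|).sum := by
  intro S
  induction S with
  | nil => simp
  | cons e S ih => simp only [List.map_cons, List.sum_cons]; positivity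

/-- positivity in one cell -/
theorem posCell (hS : StepStmt) (hC : Chk1Stmt) (h1 : JDerStmt) (h2 : JOdeStmt) (h3 : JEnergyStmt)
    (h6 : JTayStmt) (v₀ K : ℤ) (k : ℕ) (ε : ℝ) (hk : 8 ≤ k) (hε : 0 ≤ ε)
    (hε' : ε + 1 / 2 ^ 32 ≤ 1 / 2 ^ 22)
    (S : List Rc) (D : List ℝ) (r : List Rc × List ℤ) (hV : Valid D S (k / 2) ε)
    (hr : stL (k : ℤ) S = some r)
    (hv : (S.map fun e => |(e.2.1 : ℝ)|).sum ≤ 4 * 10 ^ 6)
    (hK : (List.zipWith (fun d (e : Rc) => |(e.2.1 : ℝ)| * d ^ 2) D S).sum ≤ (K : ℝ))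
    (hchk : chk (addC v₀ r.2) (K * Sc) 9 1024 1024 = true) (t : ℝ) (ht0 : (k : ℝ) / 2 ≤ t)
    (ht1 : t ≤ ((k : ℝ) + 1) / 2) : 0 < (v₀ : ℝ) + Wr D (S.map fun e => e.2.1) t := by
  have hε1 : ε ≤ 1 / 2 := by
    have : (1 : ℝ) / 2 ^ 22 ≤ 1 / 2 := by norm_num
    have : (0 : ℝ) ≤ 1 / 2 ^ 32 := by norm_num
    linarith
  obtain ⟨-, -, hlen, hev⟩ := cell hS h1 h2 h3 k ε hk hε hε1 S D r hV hr
  have hne : r.2 ≠ [] := by
    intro h; rw [h] at hlen; simp at hlen
  have hchk' : chk (addC v₀ r.2) (K * Sc) 9 1024 (2 ^ 10) = true := by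
    have : (2 : ℤ) ^ 10 = 1024 := by norm_num
    rw [this]; exact hchk
  obtain ⟨u', h, hu1, hu2, hh0, hh1, hz, hmain⟩ := hC.1 (addC v₀ r.2) (K * Sc) 9 10 1024 hchk'
    (by norm_num) (by norm_num) (by norm_num) (t - k / 2)
    (by push_cast; norm_num; linarith) (by push_cast; norm_num; linarith)
  have hu0 : 0 ≤ u' := by norm_num at hu1; exact hu1
  have hu2' : u' ≤ 2048 := by norm_num at hu2; exact hu2
  have hh1' : h ≤ 1024 := by norm_num at hh1; exact hh1
  obtain ⟨hA, hB⟩ := hC.2 (addC v₀ r.2) u' (by rw [length_addC, hlen]; norm_num) hu0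
    (by linarith)
  set s' : ℝ := (u' : ℝ) / 4096 with hs'
  have hs0 : 0 ≤ s' := by
    have : (0 : ℝ) ≤ (u' : ℝ) := by exact_mod_cast hu0
    positivity
  have hs1 : s' ≤ 1 / 2 := by
    have : (u' : ℝ) ≤ 2048 := by exact_mod_cast hu2'
    rw [hs']; linarith
  obtain ⟨hw1, hw2⟩ := hev s' hs0 hs1
  rw [ev_addC _ _ _ hne] at hA hB
  simp only at hA hB
  set A : ℤ := (hu u' (addC v₀ r.2) 0 0).1 with hAdef
  set B : ℤ := (hu u' (addC v₀ r.2) 0 0).2 with hBdef
  set E1 : ℝ := (ev s' r.2 0 0).1 with hE1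
  set E2 : ℝ := (ev s' r.2 0 0).2 with hE2
  obtain ⟨hT, hQ⟩ := taylor h1 h6 t (k / 2 + s') D S
  set Q : ℝ := (List.zipWith (fun d (e : Rc) => |(e.2.1 : ℝ)| * d ^ 2) D S).sum with hQdef
  set V : ℝ := (S.map fun e => |(e.2.1 : ℝ)|).sum with hVdef
  have hV0 : 0 ≤ V := sumabs_nonneg S
  set W0 : ℝ := Wr D (S.map fun e => e.2.1) t
  set W1 : ℝ := Wr D (S.map fun e => e.2.1) (k / 2 + s')
  set W2 : ℝ := Wd D (S.map fun e => e.2.1) (k / 2 + s')
  set η : ℝ := (h : ℝ) / 4096 with hη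
  have hη0 : 0 ≤ η := by
    have : (0 : ℝ) ≤ (h : ℝ) := by exact_mod_cast hh0
    positivity
  have hη1 : η ≤ 1 / 4 := by
    have : (h : ℝ) ≤ 1024 := by exact_mod_cast hh1'
    rw [hη]; linarith
  have hd : |t - (k / 2 + s')| ≤ η := by
    have : t - (k / 2 + s') = t - k / 2 - s' := by ring
    rw [this]; exact hz
  -- the checked inequality
  have hm : |(B : ℝ)| * η + (K : ℝ) * (Sc : ℝ) * (η ^ 2 / 2) ≤ (A : ℝ) - 2 * (Sc : ℝ) := by
    have h7 : (((B.natAbs : ℤ) * (h * 8192) + K * Sc * (h * h) : ℤ) : ℝ) ≤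
        (((A - 2 * Sc) * 33554432 : ℤ) : ℝ) := by exact_mod_cast hmain
    rw [Int.natCast_natAbs] at h7
    push_cast at h7
    have hh : (h : ℝ) = 4096 * η := by rw [hη]; ring
    rw [hh] at h7
    nlinarith [h7]
  have hεV : V * (ε + 1 / 2 ^ 33) ≤ 954 / 1000 := by
    have h8 : ε + 1 / 2 ^ 33 ≤ 1 / 2 ^ 22 := by
      have : (1 : ℝ) / 2 ^ 33 ≤ 1 / 2 ^ 32 := by norm_num
      linarith
    have h9 : V * (ε + 1 / 2 ^ 33) ≤ (4 * 10 ^ 6) * (1 / 2 ^ 22) :=
      mul_le_mul hv h8 (by positivity) (by norm_num)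
    refine le_trans h9 (by norm_num)
  have hScp := Sc_pos
  -- bounds in units of Sc
  have hW1 : E1 - 954 / 1000 * Sc ≤ W1 * Sc := by
    have h10 := (abs_le.mp (le_trans hw1 hεV)).1
    have h11 : E1 / Sc * Sc = E1 := div_mul_cancel₀ _ hScp.ne'
    have h12 := mul_le_mul_of_nonneg_right h10 hScp.le
    linarith [h12, h11, show (W1 - E1 / (Sc : ℝ)) * Sc = W1 * Sc - E1 / Sc * Sc by ring]
  have hW2 : |W2| * Sc ≤ |E2| + 2 * (954 / 1000) * Sc := by
    have h10 : |W2 - E2 / Sc| ≤ 2 * (954 / 1000) := le_trans hw2 (by linarith)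
    have h11 : |W2| ≤ |E2 / Sc| + |W2 - E2 / Sc| := by
      have := abs_add_le (E2 / Sc) (W2 - E2 / Sc)
      simpa using this
    rw [abs_div, abs_of_pos hScp] at h11
    have h12 : |E2| / Sc * Sc = |E2| := div_mul_cancel₀ _ hScp.ne'
    have h13 := mul_le_mul_of_nonneg_right (le_trans h11 (add_le_add_right h10 _)) hScp.le
    linarith [h13, h12, show (|E2| / (Sc : ℝ) + 2 * (954 / 1000)) * Sc =
      |E2| / Sc * Sc + 2 * (954 / 1000) * Sc by ring]
  have hE2B : |E2| ≤ |(B : ℝ)| + 2401 := by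
    have := abs_sub_abs_le_abs_sub E2 (B : ℝ)
    rw [abs_sub_comm] at this
    linarith
  have hE1A : (A : ℝ) - 49 ≤ E1 + (v₀ : ℝ) * Sc := by
    have := (abs_le.mp hA).2
    linarith
  have hT2 : W1 - |W2| * η - Q * (η ^ 2 / 2) ≤ W0 := by
    have h14 := (abs_le.mp hT).1
    have h15 : (t - (k / 2 + s')) ^ 2 ≤ η ^ 2 := by
      rw [← sq_abs]; exact pow_le_pow_left₀ (abs_nonneg _) hd 2
    have h16 : Q * ((t - (k / 2 + s')) ^ 2 / 2) ≤ Q * (η ^ 2 / 2) :=
      mul_le_mul_of_nonneg_left (by linarith) hQ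
    have h17 : |(t - (k / 2 + s')) * W2| ≤ |W2| * η := by
      rw [abs_mul, mul_comm]
      exact mul_le_mul_of_nonneg_left hd (abs_nonneg _)
    have h18 := (abs_le.mp h17).1
    linarith
  have hQK : Q * (η ^ 2 / 2) ≤ K * (η ^ 2 / 2) := mul_le_mul_of_nonneg_right hK (by positivity)
  have hfin : 0 < ((v₀ : ℝ) + W0) * Sc := by
    have h19 : |W2| * Sc * η ≤ (|(B : ℝ)| + 2401 + 2 * (954 / 1000) * Sc) * η :=
      mul_le_mul_of_nonneg_right (by linarith) hη0
    have h20 : (2401 + 2 * (954 / 1000) * (Sc : ℝ)) * η ≤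
        (2401 + 2 * (954 / 1000) * (Sc : ℝ)) * (1 / 4) :=
      mul_le_mul_of_nonneg_left hη1 (by positivity)
    have h21 : (W1 - |W2| * η - Q * (η ^ 2 / 2)) * Sc ≤ W0 * Sc :=
      mul_le_mul_of_nonneg_right hT2 hScp.le
    have h22 : Q * (η ^ 2 / 2) * Sc ≤ K * (η ^ 2 / 2) * Sc :=
      mul_le_mul_of_nonneg_right hQK hScp.le
    have hScbig : (10000 : ℝ) < Sc := by norm_num [Sc]
    have h23 : ((v₀ : ℝ) + W0) * Sc = v₀ * Sc + W0 * Sc := by ring
    have h24 : (W1 - |W2| * η - Q * (η ^ 2 / 2)) * Sc =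
      W1 * Sc - |W2| * Sc * η - Q * (η ^ 2 / 2) * Sc := by ring
    have h25 : (|(B : ℝ)| + 2401 + 2 * (954 / 1000) * Sc) * η = |(B : ℝ)| * η +
      (2401 + 2 * (954 / 1000) * (Sc : ℝ)) * η := by ring
    have h26 : (K : ℝ) * (Sc : ℝ) * (η ^ 2 / 2) = K * (η ^ 2 / 2) * Sc := by ring
    linarith
  exact (mul_pos_iff_of_pos_right hScp).mp hfin

theorem qv_abs (S : List Rc) : (S.map fun e => |(e.2.1 : ℝ)|) = (qv S).map fun p => |(p.2 : ℝ)| := by
  simp [qv, List.map_map, Function.comp_def]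

theorem qv_snd (S : List Rc) : (S.map fun e => e.2.1) = (qv S).map fun p => p.2 := by
  simp [qv, List.map_map, Function.comp_def]

theorem qv_zip (D : List ℝ) (S : List Rc) :
    List.zipWith (fun d (e : Rc) => |(e.2.1 : ℝ)| * d ^ 2) D S =
      List.zipWith (fun d (p : ℤ × ℤ) => |(p.2 : ℝ)| * d ^ 2) D (qv S) := by
  simp [qv, List.zipWith_map_right]

theorem main (hS : StepStmt) (hC : Chk1Stmt) (h1 : JDerStmt) (h2 : JOdeStmt) (h3 : JEnergyStmt)
    (h6 : JTayStmt) (v₀ K : ℤ) : ∀ (n k : ℕ) (D : List ℝ) (S S' : List Rc) (ε : ℝ), 8 ≤ k → 0 ≤ ε →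
    ε + n / 2 ^ 32 ≤ 1 / 2 ^ 22 → Valid D S (k / 2) ε →
    (S.map fun e => |(e.2.1 : ℝ)|).sum ≤ 4 * 10 ^ 6 →
    (List.zipWith (fun d (e : Rc) => |(e.2.1 : ℝ)| * d ^ 2) D S).sum ≤ (K : ℝ) →
    run v₀ K n k S = some S' →
    qv S' = qv S ∧ Valid D S' ((k + n) / 2) (ε + n / 2 ^ 32) ∧
    ∀ t : ℝ, k / 2 ≤ t → t ≤ (k + n) / 2 → 0 < n →
      0 < (v₀ : ℝ) + Wr D (S.map fun e => e.2.1) t := by
  intro n
  induction n with
  | zero =>
    intro k D S S' ε hk hε hε' hV hv hK hrun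
    simp only [run, Option.some.injEq] at hrun
    subst hrun
    refine ⟨rfl, by simpa using hV, ?_⟩
    intro t _ _ h; exact absurd h (lt_irrefl 0)
  | succ n ih =>
    intro k D S S' ε hk hε hε' hV hv hK hrun
    simp only [run] at hrun
    cases hst : stL (k : ℤ) S with
    | none => rw [hst] at hrun; simp at hrun
    | some r =>
      rw [hst] at hrun
      simp only at hrun
      split_ifs at hrun with hchk
      have hn0 : (0 : ℝ) ≤ (n : ℝ) / 2 ^ 32 := by positivity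
      push_cast at hε'
      have hε2 : ε + 1 / 2 ^ 32 ≤ 1 / 2 ^ 22 := by
        have : ε + (n + 1) / 2 ^ 32 = ε + 1 / 2 ^ 32 + n / 2 ^ 32 := by ring
        linarith
      have hε1 : ε ≤ 1 / 2 := by
        have : (1 : ℝ) / 2 ^ 22 ≤ 1 / 2 := by norm_num
        have : (0 : ℝ) ≤ 1 / 2 ^ 32 := by norm_num
        linarith
      obtain ⟨hq, hV', -, -⟩ := cell hS h1 h2 h3 k ε hk hε hε1 S D r hV hst
      have hpos := posCell hS hC h1 h2 h3 h6 v₀ K k ε hk hε hε2 S D r hV hst hv hK hchk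
      obtain ⟨a1, a2, a3⟩ := ih (k + 1) D r.1 S' (ε + 1 / 2 ^ 32) (by omega) (by positivity)
        (by
          have : ε + (n + 1) / 2 ^ 32 = ε + 1 / 2 ^ 32 + n / 2 ^ 32 := by ring
          linarith)
        (by push_cast; exact hV')
        (by rw [qv_abs, hq, ← qv_abs]; exact hv)
        (by rw [qv_zip, hq, ← qv_zip]; exact hK)
        (by push_cast; exact hrun)
      refine ⟨a1.trans hq, ?_, ?_⟩
      · have e1 : ((k : ℝ) + ((n + 1 : ℕ) : ℝ)) / 2 = (((k + 1 : ℕ) : ℝ) + n) / 2 := by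
          push_cast; ring
        have e2 : ε + ((n + 1 : ℕ) : ℝ) / 2 ^ 32 = ε + 1 / 2 ^ 32 + n / 2 ^ 32 := by
          push_cast; ring
        rw [e1, e2]
        exact a2
      · intro t ht0 ht1 _
        rcases le_or_gt t (((k : ℝ) + 1) / 2) with h | h
        · exact hpos t ht0 h
        · have hn : 0 < n := by
            rcases Nat.eq_zero_or_pos n with h0 | h0
            · subst h0
              push_cast at ht1
              norm_num at ht1
              linarith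
            · exact h0
          have h5 := a3 t (by push_cast; exact h.le) (by push_cast at ht1 ⊢; linarith) hn
          rw [qv_snd, hq, ← qv_snd] at h5
          exact h5

end Run_aux

open Run_aux

/-- `RunStmt` with the positivity clause for `0 < n` (for `n = 0` nothing has been checked and
`RunStmt` of `Num.lean` is false). -/
def RunStmt' : Prop := StepStmt → Chk1Stmt → JDerStmt → JOdeStmt → JEnergyStmt → JTayStmt →
  ∀ (v₀ K : ℤ) (n k : ℕ) (D : List ℝ) (S S' : List Rc) (ε : ℝ), 8 ≤ k → 0 ≤ ε →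
  ε + n / 2 ^ 32 ≤ 1 / 2 ^ 22 → Valid D S (k / 2) ε →
  (S.map fun e => |(e.2.1 : ℝ)|).sum ≤ 4 * 10 ^ 6 →
  (List.zipWith (fun d (e : Rc) => |(e.2.1 : ℝ)| * d ^ 2) D S).sum ≤ (K : ℝ) →
  run v₀ K n k S = some S' →
  qv S' = qv S ∧ Valid D S' ((k + n) / 2) (ε + n / 2 ^ 32) ∧
  ∀ t : ℝ, k / 2 ≤ t → t ≤ (k + n) / 2 → 0 < n → 0 < (v₀ : ℝ) + Wr D (S.map fun e => e.2.1) t

theorem runStmt' : RunStmt' := fun hS hC h1 h2 h3 h6 v₀ K n k D S S' ε hk hε hε' hV hv hK hrun =>
  main hS hC h1 h2 h3 h6 v₀ K n k D S S' ε hk hε hε' hV hv hK hrun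

/-- `Wr` is the expected sum (its definition elaborates with a coercion of lists). -/
theorem wr_eq (D : List ℝ) (V : List ℤ) (t : ℝ) :
    Wr D V t = (List.zipWith (fun (d : ℝ) (v : ℤ) => (v : ℝ) * J (d * t)) D V).sum :=
  Wr_eq D V t

end Dadc30.Rec
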