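import Pool.Agent.Lib.MP_dadc30_coR.Num

set_option linter.all false

/-!
# MP_dadc30_co, Theorem R, module Step

One distance, one cell of the computation: the Taylor step for Bessel's equation in integer arithmetic.
The list `cf q k a b` is `[C 18, ..., C 0]` for the sequence `C` (`co`); the residual of the polynomial
is bounded coefficientwise; `JEnergyStmt` gives the error; `hz` is Horner's scheme with rounding.
-/

open MeasureTheory Filter Topology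
open scoped Real

namespace Dadc30.Rec

open Dadc30.Gap

namespace Step_aux

/-! ## 1. The list of coefficients -/

/-- the next coefficient -/
def nx (q k n p c r : ℤ) : ℤ :=
  -(2 * ((n + 1) * (n + 1)) * r + q * (k * c + 2 * p) / Sc) / ((n + 1) * (n + 2) * k)

/-- `(c_{n-1}, c_n, c_{n+1})` -/
def co (q k a b : ℤ) : ℕ → ℤ × ℤ × ℤ
  | 0 => (0, a, b)
  | n + 1 => ((co q k a b n).2.1, (co q k a b n).2.2,
      nx q k n (co q k a b n).1 (co q k a b n).2.1 (co q k a b n).2.2)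

/-- `[C (n-1), ..., C 0]` -/
def rl (C : ℕ → ℤ) : ℕ → List ℤ
  | 0 => []
  | n + 1 => C n :: rl C n

theorem cfA_eq (q k a b : ℤ) : ∀ (m n : ℕ), cfA q k m n (co q k a b n).1 (co q k a b n).2.1
    (co q k a b n).2.2 (rl (fun j => (co q k a b j).2.1) (n + 2)) =
    rl (fun j => (co q k a b j).2.1) (n + m + 2) := by
  intro m
  induction m with
  | zero => intro n; rfl
  | succ m ih =>
    intro n
    have h := ih (n + 1)
    rw [show n + 1 + m + 2 = n + (m + 1) + 2 from by ring] at h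
    rw [← h]
    push_cast
    rfl

theorem cf_eq (q k a b : ℤ) : cf q k a b = rl (fun j => (co q k a b j).2.1) 19 := by
  have h := cfA_eq q k a b 17 0
  exact h

/-! ## 2. Horner -/

theorem ev_eq (C : ℕ → ℤ) (s : ℝ) : ∀ (N : ℕ) (v w : ℝ),
    (ev s (rl C N) v w).1 = v * s ^ N + ∑ n ∈ Finset.range N, (C n : ℝ) * s ^ n ∧
    (ev s (rl C N) v w).2 = w * s ^ N + N * v * s ^ (N - 1) +
      ∑ n ∈ Finset.range N, (n : ℝ) * (C n : ℝ) * s ^ (n - 1) := by
  intro N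
  induction N with
  | zero => intro v w; simp [rl, ev]
  | succ N ih =>
    intro v w
    have h := ih ((C N : ℝ) + v * s) (v + w * s)
    have hs : (N : ℝ) * s * s ^ (N - 1) = N * s ^ N := by
      rcases N with _ | N
      · simp
      · simp [pow_succ]; ring
    refine ⟨?_, ?_⟩
    · show (ev s (rl C N) ((C N : ℝ) + v * s) (v + w * s)).1 = _
      rw [h.1, Finset.sum_range_succ]
      ring
    · show (ev s (rl C N) ((C N : ℝ) + v * s) (v + w * s)).2 = _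
      rw [h.2, Finset.sum_range_succ]
      simp only [Nat.add_sub_cancel]
      push_cast
      linear_combination v * hs

theorem sum_der (c : ℕ → ℝ) (N : ℕ) (s : ℝ) :
    HasDerivAt (fun s : ℝ => ∑ n ∈ Finset.range N, c n * s ^ n)
      (∑ n ∈ Finset.range N, (n : ℝ) * c n * s ^ (n - 1)) s := by
  apply HasDerivAt.fun_sum
  intro n _
  have h := (hasDerivAt_pow n s).const_mul (c n)
  refine h.congr_deriv ?_
  ring

theorem sum_der2 (c : ℕ → ℝ) (N : ℕ) (s : ℝ) :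
    HasDerivAt (fun s : ℝ => ∑ n ∈ Finset.range N, (n : ℝ) * c n * s ^ (n - 1))
      (∑ n ∈ Finset.range N, ((n - 1 : ℕ) : ℝ) * ((n : ℝ) * c n) * s ^ (n - 2)) s := by
  apply HasDerivAt.fun_sum
  intro n _
  have h := (hasDerivAt_pow (n - 1) s).const_mul ((n : ℝ) * c n)
  refine h.congr_deriv ?_
  rw [show n - 1 - 1 = n - 2 from rfl]
  ring

/-! ## 3. The residual -/

theorem resid (c pm : ℕ → ℝ) (h0 : pm 0 = 0) (hp : ∀ n, pm (n + 1) = c n) (t s D : ℝ) : ∀ N : ℕ,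
    (t + s) * (∑ n ∈ Finset.range (N + 2), ((n - 1 : ℕ) : ℝ) * ((n : ℝ) * c n) * s ^ (n - 2) +
      D * ∑ n ∈ Finset.range (N + 2), c n * s ^ n) +
      ∑ n ∈ Finset.range (N + 2), (n : ℝ) * c n * s ^ (n - 1) =
    ∑ n ∈ Finset.range N, (t * ((n + 1) * (n + 2)) * c (n + 2) + (n + 1) ^ 2 * c (n + 1) +
      D * (t * c n + pm n)) * s ^ n +
    ((N + 1) ^ 2 * c (N + 1) + D * (t * c N + pm N)) * s ^ N +
    D * (t * c (N + 1) + c N) * s ^ (N + 1) + D * c (N + 1) * s ^ (N + 2) := by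
  intro N
  induction N with
  | zero =>
    simp [Finset.sum_range_succ, h0]
    ring
  | succ N ih =>
    rw [Finset.sum_range_succ _ (N + 1 + 1), Finset.sum_range_succ _ (N + 1 + 1),
      Finset.sum_range_succ _ (N + 1 + 1), Finset.sum_range_succ _ N, hp N]
    have e1 : N + 1 + 1 - 1 = N + 1 := rfl
    have e2 : N + 1 + 1 - 2 = N := rfl
    rw [e1, e2]
    push_cast
    rw [show N + 1 + 1 = N + 2 from rfl]
    linear_combination ih

/-! ## 4. Bounds of the coefficients -/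

theorem Sc_val : (Sc : ℝ) = 2 ^ 60 := by norm_num [Sc]

/-- the rounding error of the recursion -/
theorem nx_err (q k p c r : ℤ) (n : ℕ) (d : ℝ) (hk : 8 ≤ k)
    (hq : |d ^ 2 * (Sc : ℝ) - (q : ℝ)| ≤ 2) :
    |(k : ℝ) * ((n + 1) * (n + 2)) * (nx q k n p c r : ℝ) + 2 * (n + 1) ^ 2 * (r : ℝ) +
      d ^ 2 * (k * c + 2 * p)| ≤
      (n + 1) * (n + 2) * k + 1 + 2 * |(k : ℝ) * c + 2 * p| / 2 ^ 60 := by
  have hS : (0 : ℤ) < Sc := by norm_num [Sc]
  have hk0 : (0 : ℤ) < k := by omega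
  obtain ⟨X, hX⟩ : ∃ X : ℤ, X = q * (k * c + 2 * p) / Sc := ⟨_, rfl⟩
  have hX1 : X * Sc ≤ q * (k * c + 2 * p) := by rw [hX]; exact Int.ediv_mul_le _ hS.ne'
  have hX2 : q * (k * c + 2 * p) < (X + 1) * Sc := by
    rw [hX]; exact Int.lt_ediv_add_one_mul_self _ hS
  have hD : (0 : ℤ) < ((n : ℤ) + 1) * (n + 2) * k := by positivity
  have hx : nx q k n p c r = -(2 * (((n : ℤ) + 1) * (n + 1)) * r + X) /
      (((n : ℤ) + 1) * (n + 2) * k) := by rw [hX]; rfl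
  obtain ⟨x, hxx⟩ : ∃ x : ℤ, x = nx q k n p c r := ⟨_, rfl⟩
  have hx1 : x * (((n : ℤ) + 1) * (n + 2) * k) ≤ -(2 * (((n : ℤ) + 1) * (n + 1)) * r + X) := by
    rw [hxx, hx]; exact Int.ediv_mul_le _ hD.ne'
  have hx2 : -(2 * (((n : ℤ) + 1) * (n + 1)) * r + X) < (x + 1) * (((n : ℤ) + 1) * (n + 2) * k) := by
    rw [hxx, hx]; exact Int.lt_ediv_add_one_mul_self _ hD
  rw [← hxx]
  have hX1' : (X : ℝ) * Sc ≤ q * (k * c + 2 * p) := by exact_mod_cast hX1
  have hX2' : (q : ℝ) * (k * c + 2 * p) < (X + 1) * Sc := by exact_mod_cast hX2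
  have hx1' : (x : ℝ) * (((n : ℝ) + 1) * (n + 2) * k) ≤
      -(2 * (((n : ℝ) + 1) * (n + 1)) * r + X) := by exact_mod_cast hx1
  have hx2' : -(2 * (((n : ℝ) + 1) * (n + 1)) * r + X) <
      ((x : ℝ) + 1) * (((n : ℝ) + 1) * (n + 2) * k) := by exact_mod_cast hx2
  obtain ⟨T, hT⟩ : ∃ T : ℝ, T = (k : ℝ) * c + 2 * p := ⟨_, rfl⟩
  rw [← hT] at hX1' hX2' ⊢
  have h1 : |(d ^ 2 * (Sc : ℝ) - q) * T| ≤ 2 * |T| := by
    rw [abs_mul]
    exact mul_le_mul_of_nonneg_right hq (abs_nonneg _)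
  rw [Sc_val] at hX1' hX2' h1
  have h2 := abs_le.1 h1
  rw [abs_le]
  constructor
  · have : 2 * |T| / 2 ^ 60 * 2 ^ 60 = 2 * |T| := by norm_num
    nlinarith [h2.1, h2.2]
  · have : 2 * |T| / 2 ^ 60 * 2 ^ 60 = 2 * |T| := by norm_num
    nlinarith [h2.1, h2.2]

/-- growth of the coefficients -/
theorem co_bd (q k a b : ℤ) (d : ℝ) (hk : 8 ≤ k) (hq : |d ^ 2 * (Sc : ℝ) - (q : ℝ)| ≤ 2)
    (hd : d ^ 2 ≤ 4) (ha : |(a : ℝ)| ≤ 2 ^ 62) (hb : |(b : ℝ)| ≤ 2 ^ 63) : ∀ n : ℕ,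
    |((co q k a b n).1 : ℝ)| ≤ 2 ^ n * 2 ^ 61 ∧ |((co q k a b n).2.1 : ℝ)| ≤ 2 ^ n * 2 ^ 62 ∧
    |((co q k a b n).2.2 : ℝ)| ≤ 2 ^ n * 2 ^ 63 := by
  intro n
  induction n with
  | zero =>
    refine ⟨?_, ?_, ?_⟩
    · simp [co]
    · simpa [co] using ha
    · simpa [co] using hb
  | succ n ih =>
    obtain ⟨h1, h2, h3⟩ := ih
    refine ⟨?_, ?_, ?_⟩
    · show |((co q k a b n).2.1 : ℝ)| ≤ _
      rw [pow_succ]; linarith
    · show |((co q k a b n).2.2 : ℝ)| ≤ _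
      rw [pow_succ]; linarith
    · show |(nx q k n (co q k a b n).1 (co q k a b n).2.1 (co q k a b n).2.2 : ℝ)| ≤ _
      generalize (co q k a b n).1 = p at *
      generalize (co q k a b n).2.1 = c at *
      generalize (co q k a b n).2.2 = r at *
      have he := nx_err q k p c r n d hk hq
      generalize (nx q k n p c r : ℝ) = x at *
      have hK : (8 : ℝ) ≤ k := by exact_mod_cast hk
      generalize (k : ℝ) = K at *
      generalize (c : ℝ) = c at *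
      generalize (p : ℝ) = p at *
      generalize (r : ℝ) = r at *
      obtain ⟨B, hB⟩ : ∃ B : ℝ, B = 2 ^ n * 2 ^ 62 := ⟨_, rfl⟩
      have hB1 : (2 : ℝ) ^ 62 ≤ B := by
        rw [hB]
        have : (1 : ℝ) ≤ 2 ^ n := one_le_pow₀ (by norm_num)
        linarith
      have h1' : |p| ≤ B / 2 := by rw [hB]; linarith
      have h2' : |c| ≤ B := by rw [hB]; linarith
      have h3' : |r| ≤ 2 * B := by rw [hB]; linarith
      have hT : |K * c + 2 * p| ≤ (K + 1) * B := by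
        calc |K * c + 2 * p| ≤ |K * c| + |2 * p| := abs_add_le _ _
          _ = K * |c| + 2 * |p| := by
            rw [abs_mul, abs_mul, abs_of_pos (by linarith : (0 : ℝ) < K)]; norm_num
          _ ≤ (K + 1) * B := by nlinarith
      generalize hTT : K * c + 2 * p = T at *
      obtain ⟨M, hM⟩ : ∃ M : ℝ, M = ((n : ℝ) + 1) * (n + 2) := ⟨_, rfl⟩
      have hn : (0 : ℝ) ≤ n := Nat.cast_nonneg n
      have hM2 : 2 ≤ M := by rw [hM]; nlinarith
      have hMn : ((n : ℝ) + 1) ^ 2 ≤ M := by rw [hM]; nlinarith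
      rw [← hM] at he
      have hKM : 0 < K * M := by positivity
      have hx : |K * M * x| ≤ M * K + 1 + 2 * |T| / 2 ^ 60 + 2 * M * |r| + 4 * |T| := by
        have e : K * M * x = (K * M * x + 2 * (n + 1) ^ 2 * r + d ^ 2 * T) +
          (-(2 * (n + 1) ^ 2 * r) + -(d ^ 2 * T)) := by ring
        rw [e]
        have a1 := abs_add_le (K * M * x + 2 * (n + 1) ^ 2 * r + d ^ 2 * T)
          (-(2 * (n + 1) ^ 2 * r) + -(d ^ 2 * T))
        have a2 := abs_add_le (-(2 * (n + 1) ^ 2 * r)) (-(d ^ 2 * T))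
        have a3 : |-(2 * ((n : ℝ) + 1) ^ 2 * r)| ≤ 2 * M * |r| := by
          rw [abs_neg, abs_mul, abs_of_nonneg (by positivity : (0 : ℝ) ≤ 2 * ((n : ℝ) + 1) ^ 2)]
          exact mul_le_mul_of_nonneg_right (by linarith) (abs_nonneg _)
        have a4 : |-(d ^ 2 * T)| ≤ 4 * |T| := by
          rw [abs_neg, abs_mul, abs_of_nonneg (by positivity : (0 : ℝ) ≤ d ^ 2)]
          exact mul_le_mul_of_nonneg_right hd (abs_nonneg _)
        linarith
      rw [abs_mul, abs_of_pos hKM] at hx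
      have hfin : K * M * |x| ≤ K * M * (4 * B) := by
        have b1 : 2 * M * |r| ≤ M * (4 * B) := by nlinarith
        have b2 : M * (4 * B) ≤ K * M * B / 2 := by
          have : 0 ≤ M * B := by positivity
          nlinarith
        have b3 : (K + 1) * B ≤ 9 / 16 * (K * M * B) := by
          have : 0 ≤ K * B := by positivity
          have c1 : (K + 1) * B ≤ 9 / 8 * (K * B) := by nlinarith
          nlinarith
        have b4 : M * K + 1 ≤ K * M * B / 100 := by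
          have : (1 : ℝ) ≤ K * M := by nlinarith
          nlinarith
        have b5 : 2 * |T| / 2 ^ 60 ≤ |T| / 100 := by
          have := abs_nonneg T
          linarith
        nlinarith
      have := le_of_mul_le_mul_left hfin hKM
      rw [pow_succ]
      rw [hB] at this
      linarith

/-! ## 5. The residual is small -/

theorem nn_bd : ∀ n : ℕ, n < 17 → ((n : ℝ) + 1) * (n + 2) ≤ 3 * 2 ^ n := by
  intro n hn
  have : (n + 1) * (n + 2) ≤ 3 * 2 ^ n := by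
    interval_cases n <;> norm_num
  exact_mod_cast this

theorem top_bd (q k a b : ℤ) (h : top3 (cf q k a b) = true) :
    |((co q k a b 18).2.1 : ℝ)| ≤ 2 ^ 34 ∧ |((co q k a b 17).2.1 : ℝ)| ≤ 2 ^ 34 ∧
    |((co q k a b 16).2.1 : ℝ)| ≤ 2 ^ 34 := by
  rw [cf_eq] at h
  have h' : (decide ((co q k a b 18).2.1.natAbs ≤ 17179869184) &&
    decide ((co q k a b 17).2.1.natAbs ≤ 17179869184) &&
      decide ((co q k a b 16).2.1.natAbs ≤ 17179869184)) = true := h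
  simp only [Bool.and_eq_true, decide_eq_true_eq] at h'
  have key : ∀ z : ℤ, z.natAbs ≤ 17179869184 → |(z : ℝ)| ≤ 2 ^ 34 := by
    intro z hz
    have h1 : |z| ≤ 17179869184 := by
      rw [Int.abs_eq_natAbs]; exact_mod_cast hz
    have h2 : |(z : ℝ)| ≤ 17179869184 := by exact_mod_cast h1
    norm_num at h2 ⊢
    exact h2
  exact ⟨key _ h'.1.1, key _ h'.1.2, key _ h'.2⟩

/-- the polynomial, and its first and second derivative -/
noncomputable def P0 (q k a b : ℤ) (s : ℝ) : ℝ :=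
  ∑ n ∈ Finset.range 19, ((co q k a b n).2.1 : ℝ) * s ^ n

noncomputable def P1 (q k a b : ℤ) (s : ℝ) : ℝ :=
  ∑ n ∈ Finset.range 19, (n : ℝ) * ((co q k a b n).2.1 : ℝ) * s ^ (n - 1)

noncomputable def P2 (q k a b : ℤ) (s : ℝ) : ℝ :=
  ∑ n ∈ Finset.range 19, ((n - 1 : ℕ) : ℝ) * ((n : ℝ) * ((co q k a b n).2.1 : ℝ)) * s ^ (n - 2)

theorem res_bd (q k a b : ℤ) (d s : ℝ) (hk : 8 ≤ k) (hq : |d ^ 2 * (Sc : ℝ) - (q : ℝ)| ≤ 2)
    (hd : d ^ 2 ≤ 4) (ha : |(a : ℝ)| ≤ 2 ^ 62) (hb : |(b : ℝ)| ≤ 2 ^ 63)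
    (ht : top3 (cf q k a b) = true) (hs0 : 0 ≤ s) (hs1 : s ≤ 1 / 2) :
    |((k : ℝ) / 2 + s) * (P2 q k a b s + d ^ 2 * P0 q k a b s) + P1 q k a b s| ≤
      2 ^ 24 * ((k : ℝ) / 2 + s) := by
  have hr := resid (fun n => ((co q k a b n).2.1 : ℝ)) (fun n => ((co q k a b n).1 : ℝ))
    (by simp [co]) (fun n => rfl) ((k : ℝ) / 2) s (d ^ 2) 17
  have hbd := co_bd q k a b d hk hq hd ha hb
  obtain ⟨t18, t17, t16⟩ := top_bd q k a b ht
  unfold P0 P1 P2
  rw [hr]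
  have hK : (8 : ℝ) ≤ k := by exact_mod_cast hk
  -- the main sum
  have hterm : ∀ n ∈ Finset.range 17, |((k : ℝ) / 2 * ((n + 1) * (n + 2)) *
      ((co q k a b (n + 2)).2.1 : ℝ) + (n + 1) ^ 2 * ((co q k a b (n + 1)).2.1 : ℝ) +
      d ^ 2 * ((k : ℝ) / 2 * ((co q k a b n).2.1 : ℝ) + ((co q k a b n).1 : ℝ))) * s ^ n| ≤
      13 / 2 * (k : ℝ) := by
    intro n hn
    have hn' : n < 17 := Finset.mem_range.1 hn
    obtain ⟨h1, h2, h3⟩ := hbd n
    have he := nx_err q k (co q k a b n).1 (co q k a b n).2.1 (co q k a b n).2.2 n d hk hq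
    have e2 : (co q k a b (n + 2)).2.1 =
      nx q k n (co q k a b n).1 (co q k a b n).2.1 (co q k a b n).2.2 := rfl
    have e1 : (co q k a b (n + 1)).2.1 = (co q k a b n).2.2 := rfl
    rw [e2, e1]
    generalize (nx q k n (co q k a b n).1 (co q k a b n).2.1 (co q k a b n).2.2 : ℝ) = x at *
    generalize ((co q k a b n).1 : ℝ) = p at *
    generalize ((co q k a b n).2.1 : ℝ) = c at *
    generalize ((co q k a b n).2.2 : ℝ) = r at *
    generalize (k : ℝ) = K at *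
    have hM := nn_bd n hn'
    obtain ⟨E, hE⟩ : ∃ E : ℝ, E = 2 ^ n := ⟨_, rfl⟩
    have hE1 : 1 ≤ E := by rw [hE]; exact one_le_pow₀ (by norm_num)
    rw [← hE] at h1 h2 h3 hM
    have hT : |K * c + 2 * p| ≤ (K + 1) * (E * 2 ^ 62) := by
      calc |K * c + 2 * p| ≤ |K * c| + |2 * p| := abs_add_le _ _
        _ = K * |c| + 2 * |p| := by
          rw [abs_mul, abs_mul, abs_of_pos (by linarith : (0 : ℝ) < K)]; norm_num
        _ ≤ (K + 1) * (E * 2 ^ 62) := by nlinarith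
    have hx : |K / 2 * ((n + 1) * (n + 2)) * x + (n + 1) ^ 2 * r + d ^ 2 * (K / 2 * c + p)| ≤
        13 / 2 * K * E := by
      have e : K / 2 * ((n + 1) * (n + 2)) * x + (n + 1) ^ 2 * r + d ^ 2 * (K / 2 * c + p) =
        (1 / 2) * (K * ((n + 1) * (n + 2)) * x + 2 * (n + 1) ^ 2 * r + d ^ 2 * (K * c + 2 * p)) := by
        ring
      rw [e, abs_mul, abs_of_pos (by norm_num : (0 : ℝ) < 1 / 2)]
      have hT' : 2 * |K * c + 2 * p| / 2 ^ 60 ≤ 8 * ((K + 1) * E) := by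
        rw [div_le_iff₀ (by positivity)]
        nlinarith
      have hMK : (n + 1) * (n + 2) * K ≤ 3 * E * K :=
        mul_le_mul_of_nonneg_right hM (by linarith)
      nlinarith
    rw [abs_mul, abs_of_nonneg (by positivity : (0 : ℝ) ≤ s ^ n)]
    have hsE : s ^ n * E ≤ 1 := by
      rw [hE, ← mul_pow]
      exact pow_le_one₀ (by positivity) (by linarith)
    have hs' : 0 ≤ s ^ n := by positivity
    calc _ ≤ 13 / 2 * K * E * s ^ n := mul_le_mul_of_nonneg_right hx hs'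
      _ = 13 / 2 * K * (s ^ n * E) := by ring
      _ ≤ 13 / 2 * K * 1 := mul_le_mul_of_nonneg_left hsE (by positivity)
      _ = 13 / 2 * K := by ring
  have hsum := (Finset.abs_sum_le_sum_abs _ _).trans (Finset.sum_le_card_nsmul _ _ _ hterm)
  rw [Finset.card_range, nsmul_eq_mul] at hsum
  -- the three top terms
  have pw : ∀ m : ℕ, s ^ m ≤ (1 / 2) ^ m := fun m => pow_le_pow_left₀ hs0 hs1 m
  have pw0 : ∀ m : ℕ, 0 ≤ s ^ m := fun m => pow_nonneg hs0 m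
  have hd0 : 0 ≤ d ^ 2 := by positivity
  have lin : ∀ x y : ℝ, |x| ≤ 2 ^ 34 → |y| ≤ 2 ^ 34 →
      |d ^ 2 * ((k : ℝ) / 2 * x + y)| ≤ 4 * (((k : ℝ) / 2 + 1) * 2 ^ 34) := by
    intro x y hx hy
    rw [abs_mul, abs_of_nonneg hd0]
    have h1 : |(k : ℝ) / 2 * x + y| ≤ ((k : ℝ) / 2 + 1) * 2 ^ 34 := by
      calc |(k : ℝ) / 2 * x + y| ≤ |(k : ℝ) / 2 * x| + |y| := abs_add_le _ _
        _ = (k : ℝ) / 2 * |x| + |y| := by
          rw [abs_mul, abs_of_pos (by linarith : (0 : ℝ) < (k : ℝ) / 2)]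
        _ ≤ ((k : ℝ) / 2 + 1) * 2 ^ 34 := by nlinarith
    exact mul_le_mul hd h1 (abs_nonneg _) (by norm_num)
  have h17 : |((17 + 1) ^ 2 * ((co q k a b (17 + 1)).2.1 : ℝ) + d ^ 2 * ((k : ℝ) / 2 *
      ((co q k a b 17).2.1 : ℝ) + ((co q k a b 17).1 : ℝ))) * s ^ 17| ≤
      (324 + 4 * ((k : ℝ) / 2 + 1)) * 2 ^ 17 := by
    rw [abs_mul, abs_of_nonneg (pw0 17)]
    have e16 : ((co q k a b 17).1 : ℝ) = ((co q k a b 16).2.1 : ℝ) := rfl
    have l1 := lin _ _ t17 t16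
    have l2 := abs_add_le ((17 + 1) ^ 2 * ((co q k a b (17 + 1)).2.1 : ℝ)) (d ^ 2 * ((k : ℝ) / 2 *
      ((co q k a b 17).2.1 : ℝ) + ((co q k a b 16).2.1 : ℝ)))
    have l3 : |(17 + 1) ^ 2 * ((co q k a b (17 + 1)).2.1 : ℝ)| ≤ 324 * 2 ^ 34 := by
      rw [abs_mul, abs_of_pos (by norm_num : (0 : ℝ) < (17 + 1) ^ 2)]
      have : |((co q k a b (17 + 1)).2.1 : ℝ)| ≤ 2 ^ 34 := t18
      nlinarith
    have l4 := pw 17
    rw [e16]
    calc _ ≤ (324 * 2 ^ 34 + 4 * (((k : ℝ) / 2 + 1) * 2 ^ 34)) * (1 / 2) ^ 17 :=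
          mul_le_mul (l2.trans (add_le_add l3 l1)) l4 (pw0 17) (by positivity)
      _ = (324 + 4 * ((k : ℝ) / 2 + 1)) * 2 ^ 17 := by norm_num; ring
  have h18 : |d ^ 2 * ((k : ℝ) / 2 * ((co q k a b (17 + 1)).2.1 : ℝ) +
      ((co q k a b 17).2.1 : ℝ)) * s ^ (17 + 1)| ≤ 4 * ((k : ℝ) / 2 + 1) * 2 ^ 16 := by
    rw [abs_mul, abs_of_nonneg (pw0 _)]
    have l1 := lin _ _ t18 t17
    calc _ ≤ (4 * (((k : ℝ) / 2 + 1) * 2 ^ 34)) * (1 / 2) ^ 18 :=
          mul_le_mul l1 (pw 18) (pw0 _) (by positivity)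
      _ = 4 * ((k : ℝ) / 2 + 1) * 2 ^ 16 := by norm_num; ring
  have h19 : |d ^ 2 * ((co q k a b (17 + 1)).2.1 : ℝ) * s ^ (17 + 2)| ≤ 4 * 2 ^ 15 := by
    rw [abs_mul, abs_of_nonneg (pw0 _), abs_mul, abs_of_nonneg hd0]
    have l1 : d ^ 2 * |((co q k a b (17 + 1)).2.1 : ℝ)| ≤ 4 * 2 ^ 34 :=
      mul_le_mul hd t18 (abs_nonneg _) (by norm_num)
    calc _ ≤ (4 * 2 ^ 34) * (1 / 2) ^ 19 :=
          mul_le_mul l1 (pw 19) (pw0 _) (by positivity)
      _ = 4 * 2 ^ 15 := by norm_num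
  generalize (∑ n ∈ Finset.range 17, ((k : ℝ) / 2 * ((n + 1) * (n + 2)) *
      ((co q k a b (n + 2)).2.1 : ℝ) + (n + 1) ^ 2 * ((co q k a b (n + 1)).2.1 : ℝ) +
      d ^ 2 * ((k : ℝ) / 2 * ((co q k a b n).2.1 : ℝ) + ((co q k a b n).1 : ℝ))) * s ^ n) = A at *
  have hN : ((17 : ℕ) : ℝ) = 17 := by norm_num
  rw [hN] at hsum ⊢
  have m1 := abs_add_le (A + ((17 + 1) ^ 2 * ((co q k a b (17 + 1)).2.1 : ℝ) + d ^ 2 *
    ((k : ℝ) / 2 * ((co q k a b 17).2.1 : ℝ) + ((co q k a b 17).1 : ℝ))) * s ^ 17 +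
    d ^ 2 * ((k : ℝ) / 2 * ((co q k a b (17 + 1)).2.1 : ℝ) + ((co q k a b 17).2.1 : ℝ)) *
    s ^ (17 + 1)) (d ^ 2 * ((co q k a b (17 + 1)).2.1 : ℝ) * s ^ (17 + 2))
  have m2 := abs_add_le (A + ((17 + 1) ^ 2 * ((co q k a b (17 + 1)).2.1 : ℝ) + d ^ 2 *
    ((k : ℝ) / 2 * ((co q k a b 17).2.1 : ℝ) + ((co q k a b 17).1 : ℝ))) * s ^ 17)
    (d ^ 2 * ((k : ℝ) / 2 * ((co q k a b (17 + 1)).2.1 : ℝ) + ((co q k a b 17).2.1 : ℝ)) *
    s ^ (17 + 1))
  have m3 := abs_add_le A (((17 + 1) ^ 2 * ((co q k a b (17 + 1)).2.1 : ℝ) + d ^ 2 *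
    ((k : ℝ) / 2 * ((co q k a b 17).2.1 : ℝ) + ((co q k a b 17).1 : ℝ))) * s ^ 17)
  refine m1.trans ?_
  refine (add_le_add (m2.trans (add_le_add (m3.trans (add_le_add hsum h17)) h18)) h19).trans ?_
  norm_num
  linarith

/-! ## 6. The error of the cell -/

theorem ev_P (q k a b : ℤ) (s : ℝ) : (ev s (cf q k a b) 0 0).1 = P0 q k a b s ∧
    (ev s (cf q k a b) 0 0).2 = P1 q k a b s := by
  rw [cf_eq]
  have h := ev_eq (fun j => (co q k a b j).2.1) s 19 0 0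
  refine ⟨?_, ?_⟩
  · rw [h.1]; simp [P0]
  · rw [h.2]; simp [P1]

theorem P0_der (q k a b : ℤ) (s : ℝ) : HasDerivAt (P0 q k a b) (P1 q k a b s) s :=
  sum_der _ 19 s

theorem P1_der (q k a b : ℤ) (s : ℝ) : HasDerivAt (P1 q k a b) (P2 q k a b s) s :=
  sum_der2 _ 19 s

theorem P0_zero (q k a b : ℤ) : P0 q k a b 0 = a := by
  simp [P0, Finset.sum_range_succ, co]

theorem P1_zero (q k a b : ℤ) : P1 q k a b 0 = b := by
  simp [P1, Finset.sum_range_succ, co]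

theorem energy (hJ : JDerStmt) (hO : JOdeStmt) (hE : JEnergyStmt) (k : ℕ) (d ε : ℝ) (q a b : ℤ)
    (hk : 8 ≤ k) (he : 0 ≤ ε) (hD : Dq d q) (ht : top3 (cf q k a b) = true)
    (ha : |(a : ℝ)| ≤ 2 ^ 62) (hb : |(b : ℝ)| ≤ 2 ^ 63) (hEr : Er d (k / 2) ε a b)
    (s : ℝ) (hs0 : 0 ≤ s) (hs1 : s ≤ 1 / 2) :
    Er d (k / 2 + s) (ε + 1 / 2 ^ 33) (P0 q k a b s) (P1 q k a b s) := by
  obtain ⟨hq, hd1, hd2⟩ := hD
  have hd : 0 < d := by linarith
  have hk' : (8 : ℤ) ≤ (k : ℤ) := by exact_mod_cast hk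
  have hkr : (8 : ℝ) ≤ (k : ℝ) := by exact_mod_cast hk
  have hS : (0 : ℝ) < (Sc : ℝ) := by rw [Sc_val]; positivity
  have hd4 : d ^ 2 ≤ 4 := by nlinarith
  have hdx : ∀ x : ℝ, HasDerivAt (fun x : ℝ => x / d - k / 2) (1 / d) x := fun x =>
    ((hasDerivAt_id x).div_const d).sub_const _
  have h := hE hJ hO (fun x => P0 q k a b (x / d - k / 2) / Sc)
    (fun x => P1 q k a b (x / d - k / 2) / (Sc * d))
    (fun x => P2 q k a b (x / d - k / 2) / (Sc * d ^ 2)) (d * (k / 2)) (d * (k / 2 + s)) ε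
    (1 / 2 ^ 36 / d ^ 2) (by positivity) (by nlinarith) he (by positivity)
    (fun x _ => by
      have h1 := ((P0_der q k a b (x / d - k / 2)).comp x (hdx x)).div_const (Sc : ℝ)
      refine h1.congr_deriv ?_
      field_simp)
    (fun x _ => by
      have h1 := ((P1_der q k a b (x / d - k / 2)).comp x (hdx x)).div_const ((Sc : ℝ) * d)
      refine h1.congr_deriv ?_
      field_simp)
    (fun x hx => by
      obtain ⟨σ, hσ⟩ : ∃ σ : ℝ, σ = x / d - k / 2 := ⟨_, rfl⟩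
      have hxσ : x = d * (k / 2 + σ) := by rw [hσ]; field_simp; ring
      have hσ0 : 0 ≤ σ := by
        have := hx.1
        rw [hxσ] at this
        have := le_of_mul_le_mul_left this hd
        linarith
      have hσs : σ ≤ s := by
        have := hx.2
        rw [hxσ] at this
        have := le_of_mul_le_mul_left this hd
        linarith
      have hr := res_bd q k a b d σ hk' hq hd4 ha hb ht hσ0 (by linarith)
      rw [Int.cast_natCast] at hr
      have hpos : (0 : ℝ) < k / 2 + σ := by positivity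
      show |P2 q k a b (x / d - k / 2) / (Sc * d ^ 2) +
        P1 q k a b (x / d - k / 2) / (Sc * d) / x + P0 q k a b (x / d - k / 2) / Sc| ≤ _
      rw [← hσ, hxσ]
      generalize P0 q k a b σ = p0 at *
      generalize P1 q k a b σ = p1 at *
      generalize P2 q k a b σ = p2 at *
      have e : p2 / (Sc * d ^ 2) + p1 / (Sc * d) / (d * (k / 2 + σ)) + p0 / Sc =
        (((k : ℝ) / 2 + σ) * (p2 + d ^ 2 * p0) + p1) / (Sc * d ^ 2 * ((k : ℝ) / 2 + σ)) := by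
        generalize (k : ℝ) / 2 + σ = t at *
        field_simp
        ring
      rw [e, abs_div, abs_of_pos (by positivity : (0 : ℝ) < Sc * d ^ 2 * ((k : ℝ) / 2 + σ)),
        div_le_iff₀ (by positivity)]
      refine hr.trans (le_of_eq ?_)
      rw [Sc_val]
      generalize (k : ℝ) / 2 + σ = t at *
      field_simp)
    (by
      show (J (d * (k / 2)) - P0 q k a b (d * (k / 2) / d - k / 2) / Sc) ^ 2 +
        (Jn 1 (d * (k / 2)) - P1 q k a b (d * (k / 2) / d - k / 2) / (Sc * d)) ^ 2 ≤ ε ^ 2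
      rw [mul_div_cancel_left₀ _ hd.ne', sub_self, P0_zero, P1_zero]
      exact hEr)
  have h' : (J (d * (k / 2 + s)) - P0 q k a b (d * (k / 2 + s) / d - k / 2) / Sc) ^ 2 +
        (Jn 1 (d * (k / 2 + s)) - P1 q k a b (d * (k / 2 + s) / d - k / 2) / (Sc * d)) ^ 2 ≤
        (ε + 1 / 2 ^ 36 / d ^ 2 * (d * (k / 2 + s) - d * (k / 2))) ^ 2 := h
  rw [mul_div_cancel_left₀ _ hd.ne', add_sub_cancel_left] at h'
  refine h'.trans ?_
  have e1 : 1 / 2 ^ 36 / d ^ 2 * (d * (k / 2 + s) - d * (k / 2)) = 1 / 2 ^ 36 * (s / d) := by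
    field_simp
    ring
  have e2 : s / d ≤ 8 := by
    rw [div_le_iff₀ hd]; linarith
  have e3 : 0 ≤ s / d := by positivity
  rw [e1]
  apply pow_le_pow_left₀ (by positivity)
  have : 1 / 2 ^ 36 * (s / d) ≤ 1 / 2 ^ 36 * 8 := mul_le_mul_of_nonneg_left e2 (by positivity)
  have e4 : (1 : ℝ) / 2 ^ 36 * 8 = 1 / 2 ^ 33 := by norm_num
  linarith

/-! ## 7. Rounding in Horner's scheme -/

theorem hz_err : ∀ (l : List ℤ) (v w : ℤ) (v' w' : ℝ), |(v : ℝ) - v'| ≤ 2 → |(w : ℝ) - w'| ≤ 6 →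
    |((hz l v w).1 : ℝ) - (ev (1 / 2) l v' w').1| ≤ 2 ∧
    |((hz l v w).2 : ℝ) - (ev (1 / 2) l v' w').2| ≤ 6 := by
  intro l
  induction l with
  | nil => intro v w v' w' h1 h2; exact ⟨h1, h2⟩
  | cons c l ih =>
    intro v w v' w' h1 h2
    have key : ∀ z : ℤ, (z : ℝ) / 2 - 1 ≤ ((z / 2 : ℤ) : ℝ) ∧ ((z / 2 : ℤ) : ℝ) ≤ (z : ℝ) / 2 := by
      intro z
      have a1 : z / 2 * 2 ≤ z := Int.ediv_mul_le _ (by norm_num)
      have a2 : z < (z / 2 + 1) * 2 := Int.lt_ediv_add_one_mul_self _ (by norm_num)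
      have a1' : ((z / 2 : ℤ) : ℝ) * 2 ≤ z := by exact_mod_cast a1
      have a2' : (z : ℝ) < (((z / 2 : ℤ) : ℝ) + 1) * 2 := by exact_mod_cast a2
      constructor <;> linarith
    have k1 := key v
    have k2 := key w
    have b1 := abs_le.1 h1
    have b2 := abs_le.1 h2
    apply ih (c + v / 2) (v + w / 2) (c + v' * (1 / 2)) (v' + w' * (1 / 2))
    · rw [Int.cast_add, abs_le]
      constructor <;> linarith
    · rw [Int.cast_add, abs_le]
      constructor <;> linarith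

theorem tri2 (A B x y e f : ℝ) (h : A ^ 2 + B ^ 2 ≤ e ^ 2) (he : 0 ≤ e) (hf : 0 ≤ f)
    (hxy : x ^ 2 + y ^ 2 ≤ f ^ 2) : (A + x) ^ 2 + (B + y) ^ 2 ≤ (e + f) ^ 2 := by
  have h1 : A * x + B * y ≤ e * f := by
    apply le_of_sq_le_sq _ (by positivity)
    nlinarith [sq_nonneg (A * y - B * x), mul_le_mul h hxy (by positivity) (by positivity)]
  nlinarith

end Step_aux

open Step_aux

/-- MODULE Step: one distance, one cell -/
theorem stepStmt : StepStmt := by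
  intro hJ hO hE k d ε q a b hk he he2 hD ht hEr
  have hD' := hD
  obtain ⟨hq, hd1, hd2⟩ := hD'
  have hd : 0 < d := by linarith
  have hS : (Sc : ℝ) = 2 ^ 60 := Sc_val
  -- sizes of `a` and `b`
  have hEr' : (J (d * (k / 2)) - a / (Sc : ℝ)) ^ 2 +
    (Jn 1 (d * (k / 2)) - b / ((Sc : ℝ) * d)) ^ 2 ≤ ε ^ 2 := hEr
  have hA : |J (d * (k / 2)) - a / (Sc : ℝ)| ≤ ε := by
    apply abs_le_of_sq_le_sq _ he
    nlinarith [sq_nonneg (Jn 1 (d * (k / 2)) - b / ((Sc : ℝ) * d))]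
  have hB : |Jn 1 (d * (k / 2)) - b / ((Sc : ℝ) * d)| ≤ ε := by
    apply abs_le_of_sq_le_sq _ he
    nlinarith [sq_nonneg (J (d * (k / 2)) - a / (Sc : ℝ))]
  have hJ0 : |J (d * (k / 2))| ≤ 1 := by
    rw [← hJ.1]; exact hJ.2.2 0 _
  have hJ1 : |Jn 1 (d * (k / 2))| ≤ 1 := hJ.2.2 1 _
  have ha : |(a : ℝ)| ≤ 2 ^ 62 := by
    have h1 : |(a : ℝ) / 2 ^ 60| ≤ 3 / 2 := by
      rw [hS] at hA
      have := abs_le.1 hA
      have := abs_le.1 hJ0
      rw [abs_le]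
      constructor <;> linarith
    rw [abs_div, abs_of_pos (by positivity : (0 : ℝ) < 2 ^ 60), div_le_iff₀ (by positivity)] at h1
    refine h1.trans ?_
    norm_num
  have hb : |(b : ℝ)| ≤ 2 ^ 63 := by
    have h1 : |(b : ℝ) / (2 ^ 60 * d)| ≤ 3 / 2 := by
      rw [hS] at hB
      have := abs_le.1 hB
      have := abs_le.1 hJ1
      rw [abs_le]
      constructor <;> linarith
    rw [abs_div, abs_of_pos (by positivity : (0 : ℝ) < 2 ^ 60 * d), div_le_iff₀ (by positivity)] at h1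
    refine h1.trans ?_
    have : (3 : ℝ) / 2 * (2 ^ 60 * d) ≤ 3 / 2 * (2 ^ 60 * 2) := by
      have : (2 : ℝ) ^ 60 * d ≤ 2 ^ 60 * 2 := mul_le_mul_of_nonneg_left hd2 (by positivity)
      linarith
    refine this.trans ?_
    norm_num
  have hen := energy hJ hO hE k d ε q a b hk he hD ht ha hb hEr
  refine ⟨fun s hs0 hs1 => ?_, ?_⟩
  · rw [(ev_P q k a b s).1, (ev_P q k a b s).2]
    exact hen s hs0 hs1
  · have h1 := hen (1 / 2) (by norm_num) (by norm_num)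
    rw [← (ev_P q k a b (1 / 2)).1, ← (ev_P q k a b (1 / 2)).2] at h1
    obtain ⟨r1, r2⟩ := hz_err (cf q k a b) 0 0 0 0 (by norm_num) (by norm_num)
    rw [show (k : ℝ) / 2 + 1 / 2 = (k + 1) / 2 by ring] at h1
    unfold Er at h1 ⊢
    generalize ((hz (cf q k a b) 0 0).1 : ℝ) = u at *
    generalize ((hz (cf q k a b) 0 0).2 : ℝ) = v at *
    generalize (ev (1 / 2) (cf q k a b) 0 0).1 = u' at *
    generalize (ev (1 / 2) (cf q k a b) 0 0).2 = v' at *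
    have h2 := tri2 _ _ ((u' - u) / (Sc : ℝ)) ((v' - v) / ((Sc : ℝ) * d)) (ε + 1 / 2 ^ 33)
      (1 / 2 ^ 33) h1 (by positivity) (by positivity) (by
        have c1 : ((u' - u) / (Sc : ℝ)) ^ 2 ≤ (2 / 2 ^ 60) ^ 2 := by
          rw [sq_le_sq, abs_div, abs_div, hS, abs_sub_comm]
          rw [abs_of_pos (by norm_num : (0 : ℝ) < 2), abs_of_pos (by positivity : (0 : ℝ) < 2 ^ 60)]
          exact div_le_div_of_nonneg_right r1 (by positivity)
        have c2 : ((v' - v) / ((Sc : ℝ) * d)) ^ 2 ≤ (72 / 2 ^ 60) ^ 2 := by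
          rw [sq_le_sq, abs_div, abs_div, hS, abs_sub_comm]
          rw [abs_of_pos (by norm_num : (0 : ℝ) < 72), abs_of_pos (by positivity : (0 : ℝ) < 2 ^ 60),
            abs_of_pos (by positivity : (0 : ℝ) < 2 ^ 60 * d)]
          rw [div_le_div_iff₀ (by positivity) (by positivity)]
          have : (6 : ℝ) ≤ 72 * d := by linarith
          calc |v - v'| * 2 ^ 60 ≤ 6 * 2 ^ 60 := mul_le_mul_of_nonneg_right r2 (by positivity)
            _ ≤ (72 * d) * 2 ^ 60 := mul_le_mul_of_nonneg_right this (by positivity)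
            _ = 72 * (2 ^ 60 * d) := by ring
        refine (add_le_add c1 c2).trans ?_
        norm_num)
    have e1 : J (d * ((k + 1) / 2)) - u' / (Sc : ℝ) + (u' - u) / (Sc : ℝ) =
      J (d * ((k + 1) / 2)) - u / (Sc : ℝ) := by ring
    have e2 : Jn 1 (d * ((k + 1) / 2)) - v' / ((Sc : ℝ) * d) + (v' - v) / ((Sc : ℝ) * d) =
      Jn 1 (d * ((k + 1) / 2)) - v / ((Sc : ℝ) * d) := by ring
    rw [e1, e2] at h2
    refine h2.trans (le_of_eq ?_)
    have e3 : ε + 1 / 2 ^ 33 + 1 / 2 ^ 33 = ε + 1 / 2 ^ 32 := by ring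
    rw [e3]

end Dadc30.Rec
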