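import Pool.Agent.Lib.MP_dadc30_coR.Num

set_option linter.all false

/-!
# MP_dadc30_co, Theorem R: the tail `t ≥ 300`
-/

open MeasureTheory Filter Topology
open scoped Real

namespace Dadc30.Rec

open Dadc30.Gap

namespace Tail_aux

/-- one distance -/
theorem one (g x₀ : ℝ) (hx₀ : 0 < x₀) (hJ : ∀ x : ℝ, x₀ ≤ x → x * J x ^ 2 ≤ g) (d r t : ℝ)
    (ht : 300 ≤ t) (hd : 0 < d) (hr : 0 ≤ r) (hx : x₀ ≤ 300 * d) (hg : g ≤ r ^ 2 * (300 * d)) :
    |J (d * t)| ≤ r := by
  have h1 : 300 * d ≤ d * t := by nlinarith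
  have h2 : x₀ ≤ d * t := hx.trans h1
  have h3 := hJ _ h2
  have hpos : 0 < d * t := lt_of_lt_of_le hx₀ h2
  have h4 : d * t * J (d * t) ^ 2 ≤ d * t * r ^ 2 := by
    have : r ^ 2 * (300 * d) ≤ r ^ 2 * (d * t) := mul_le_mul_of_nonneg_left h1 (sq_nonneg r)
    linarith
  have h5 : J (d * t) ^ 2 ≤ r ^ 2 := le_of_mul_le_mul_left h4 hpos
  exact abs_le_of_sq_le_sq h5 hr

/-- the sum is at least minus the sum of the bounds -/
theorem low (g x₀ : ℝ) (hx₀ : 0 < x₀) (hJ : ∀ x : ℝ, x₀ ≤ x → x * J x ^ 2 ≤ g) (t : ℝ)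
    (ht : 300 ≤ t) : ∀ (D R : List ℝ) (V : List ℤ),
    D.length = V.length →
    List.Forall₂ (fun d r => 0 < d ∧ 0 ≤ r ∧ x₀ ≤ 300 * d ∧ g ≤ r ^ 2 * (300 * d)) D R →
    -(List.zipWith (fun (v : ℤ) r => |(v : ℝ)| * r) V R).sum ≤ Wr D V t := by
  intro D R V hl h
  induction h generalizing V with
  | nil =>
    cases V with
    | nil => simp [Wr]
    | cons v V => simp at hl
  | @cons d r D' R' h1 h2 ih =>
    cases V with
    | nil => simp at hl
    | cons v V =>
      have hl' : D'.length = V.length := by simpa using hl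
      have h3 := ih V hl'
      have h4 := one g x₀ hx₀ hJ d r t ht h1.1 h1.2.1 h1.2.2.1 h1.2.2.2
      have h5 : -(|(v : ℝ)| * r) ≤ (v : ℝ) * J (d * t) := by
        have h6 : |(v : ℝ) * J (d * t)| ≤ |(v : ℝ)| * r := by
          rw [abs_mul]
          exact mul_le_mul_of_nonneg_left h4 (abs_nonneg _)
        exact (abs_le.mp h6).1
      unfold Wr at h3 ⊢
      simp only [List.bind_eq_flatMap, List.pure_def, List.flatMap_cons, List.singleton_append,
        List.zipWith_cons_cons, List.sum_cons] at h3 ⊢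
      linarith

end Tail_aux

theorem tailStmt : TailStmt := by
  intro g x₀ hx₀ hJ v₀ D R V h1 h2 h3 h4 t ht
  have := Tail_aux.low g x₀ hx₀ hJ t ht D R V h2 h3
  linarith

end Dadc30.Rec
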