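import Pool.Agent.Lib.MP_dadc30_coR.Asm
import Pool.Agent.Lib.MP_dadc30_coR.Chk1
import Pool.Agent.Lib.MP_dadc30_coR.Step
import Pool.Agent.Lib.MP_dadc30_coR.Run
import Pool.Agent.Lib.MP_dadc30_coR.Ini
import Pool.Agent.Lib.MP_dadc30_coR.Tail
import Pool.Agent.Lib.MP_dadc30_coR.JDer
import Pool.Agent.Lib.MP_dadc30_coR.JOde
import Pool.Agent.Lib.MP_dadc30_coR.JTay
import Pool.Agent.Lib.MP_dadc30_coR.JEnergy

set_option linter.all false

/-!
# MP_dadc30_co, Theorem R: explicit decay of the Bessel function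
-/

open MeasureTheory Filter Topology
open scoped Real

namespace Dadc30.Rec

open Dadc30.Gap

theorem runStmt : RunStmt := runStmt'

/-- the code of the distance one -/
theorem rd_416 : rd 416 = 1 := by
  rw [rd]; norm_num

/-- the data for `J` alone -/
def L1 : List (ℕ × ℤ × ℤ) := [(416, 1, 1152921504606846976)]

theorem l1_ok : okL 2 L1 = true := by decide +kernel

theorem l1_ini : ini 10 2 (LL L1) =
    some [(1152921504606846976, 1, -457882556342550116, 76142773114153775)] := by decide +kernel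

theorem l1_run : run 10 2 42 8
    [(1152921504606846976, 1, -457882556342550116, 76142773114153775)] =
    some [(1152921504606846976, 1, 110988044618178866, 144518998348951632)] := by decide +kernel

theorem j25 : |J 25 - 110988044618178866 / 1152921504606846976| ≤ 1 / 2 ^ 22 ∧
    |Jn 1 25 - 144518998348951632 / 1152921504606846976| ≤ 1 / 2 ^ 22 := by
  have h1 := inv_start iniStmt chk1Stmt jDerStmt (jOdeStmt) (jTayStmt) l1_ok l1_ini
  have h2 := inv_step runStmt stepStmt chk1Stmt jDerStmt jOdeStmt jEnergyStmt jTayStmt l1_ok h1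
    (n := 42) (by norm_num) (by norm_num) l1_run
  obtain ⟨h, -, -, -⟩ := h2
  unfold LD L1 Valid at h
  rw [List.map_cons, List.map_nil, List.forall₂_cons] at h
  obtain ⟨⟨-, h⟩, -⟩ := h
  have e50 : (((8 + 42 : ℕ) : ℝ) / 2) = 25 := by norm_num
  rw [e50] at h
  unfold Er at h
  rw [rd_416] at h
  have hS : (Sc : ℝ) = 1152921504606846976 := by unfold Sc; norm_num
  rw [hS, one_mul, mul_one] at h
  push_cast at h
  have he : (0 : ℝ) ≤ 1 / 2 ^ 30 + (8 + 42 - 8) / 2 ^ 32 := by norm_num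
  have he2 : (1 : ℝ) / 2 ^ 30 + (8 + 42 - 8) / 2 ^ 32 ≤ 1 / 2 ^ 22 := by norm_num
  have hq : (1 / 2 ^ 30 + (8 + 42 - 8) / 2 ^ 32 : ℝ) ^ 2 = (1 / 2 ^ 30 + (50 - 8) / 2 ^ 32) ^ 2 := by
    norm_num
  have h3 : (J 25 - 110988044618178866 / 1152921504606846976) ^ 2 ≤
      (1 / 2 ^ 30 + (8 + 42 - 8) / 2 ^ 32) ^ 2 := by
    have := sq_nonneg (Jn 1 25 - 144518998348951632 / 1152921504606846976)
    rw [hq] at *
    linarith
  have h4 : (Jn 1 25 - 144518998348951632 / 1152921504606846976) ^ 2 ≤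
      (1 / 2 ^ 30 + (8 + 42 - 8) / 2 ^ 32) ^ 2 := by
    have := sq_nonneg (J 25 - 110988044618178866 / 1152921504606846976)
    rw [hq] at *
    linarith
  obtain ⟨a1, a2⟩ := abs_le_of_sq_le_sq' h3 he
  obtain ⟨b1, b2⟩ := abs_le_of_sq_le_sq' h4 he
  constructor
  · rw [abs_le]
    constructor
    · linarith
    · linarith
  · rw [abs_le]
    constructor
    · linarith
    · linarith

/-- `x J(x)² ≤ 0.63676` for `x ≥ 25` (the limit of the mean is `1/π`, of the maxima `2/π`) -/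
theorem gB (x : ℝ) (hx : 25 ≤ x) : x * J x ^ 2 ≤ 63676 / 100000 := by
  have h := jTailStmt jDerStmt jOdeStmt 25 x (by norm_num) hx
  obtain ⟨h1, h2⟩ := j25
  rw [abs_le] at h1 h2
  obtain ⟨a1, a2⟩ := h1
  obtain ⟨b1, b2⟩ := h2
  have c1 : J 25 ≤ 962671 / 10000000 := by norm_num at a2 ⊢; linarith
  have c2 : 0 ≤ J 25 := by norm_num at a1 ⊢; linarith
  have c3 : Jn 1 25 ≤ 1253505 / 10000000 := by norm_num at b2 ⊢; linarith
  have c4 : 0 ≤ Jn 1 25 := by norm_num at b1 ⊢; linarith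
  refine h.trans ?_
  have d1 : J 25 ^ 2 ≤ (962671 / 10000000) ^ 2 := pow_le_pow_left₀ c2 c1 2
  have d2 : Jn 1 25 ^ 2 ≤ (1253505 / 10000000) ^ 2 := pow_le_pow_left₀ c4 c3 2
  have d3 : J 25 * Jn 1 25 ≤ 962671 / 10000000 * (1253505 / 10000000) :=
    mul_le_mul c1 c3 c4 (by norm_num)
  norm_num at d1 d2 d3 ⊢
  linarith

end Dadc30.Rec
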