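import Pool.Agent.Lib.MP_dadc30_coR.Grp

/-!
# Quick keys of the triples: the codes of the distances are read from one packed number
-/

set_option autoImplicit false

namespace Dadc30.Rec

/-- packed table of the codes of the distances -/
def kt (N i j : ℕ) : ℕ := Nat.land (Nat.shiftRight N (Nat.mul 12 (Nat.add (Nat.mul 64 i) j))) 4095

/-- keys of the triples from the table -/
def ky3' (N : ℕ) (ta : List (ℕ × ℕ × ℕ × ℤ)) : List (ℕ × ℤ) :=
  ta.map fun e => (srt (kt N e.1 e.2.1) (kt N e.1 e.2.2.1) (kt N e.2.1 e.2.2.1), e.2.2.2)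

/-- keys of the pairs from the table -/
def ky2' (N : ℕ) (be : List (ℕ × ℕ × ℤ)) : List (ℕ × ℤ) :=
  be.map fun e => (kt N e.1 e.2.1, e.2.2)

/-- check of the table -/
def okN (L : List Lp) (N n : ℕ) : Bool :=
  (List.range n).all fun i => (List.range n).all fun j => Nat.beq (kt N i j) (kd (gp L i) (gp L j))

/-- indices are small -/
def okI3 (n : ℕ) (ta : List (ℕ × ℕ × ℕ × ℤ)) : Bool :=
  ta.all fun e => Nat.blt e.1 n && (Nat.blt e.2.1 n && Nat.blt e.2.2.1 n)

/-- indices are small -/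
def okI2 (n : ℕ) (be : List (ℕ × ℕ × ℤ)) : Bool :=
  be.all fun e => Nat.blt e.1 n && Nat.blt e.2.1 n

theorem kt_eq {L : List Lp} {N n : ℕ} (h : okN L N n = true) {i j : ℕ} (hi : i < n) (hj : j < n) :
    kt N i j = kd (gp L i) (gp L j) := by
  rw [okN, List.all_eq_true] at h
  have h1 := h i (List.mem_range.mpr hi)
  rw [List.all_eq_true] at h1
  exact Nat.eq_of_beq_eq_true (h1 j (List.mem_range.mpr hj))

theorem blt_iff {a b : ℕ} : Nat.blt a b = true ↔ a < b := by
  unfold Nat.blt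
  rw [Nat.ble_eq]
  exact Nat.succ_le_iff

theorem ky3_eq {L : List Lp} {N n : ℕ} (h : okN L N n = true) {ta : List (ℕ × ℕ × ℕ × ℤ)}
    (ht : okI3 n ta = true) : ky3 L ta = ky3' N ta := by
  unfold ky3 ky3'
  refine List.map_congr_left (fun e he => ?_)
  rw [okI3, List.all_eq_true] at ht
  have h1 := ht e he
  rw [Bool.and_eq_true, Bool.and_eq_true, blt_iff, blt_iff, blt_iff] at h1
  unfold k3
  rw [kt_eq h h1.1 h1.2.1, kt_eq h h1.1 h1.2.2, kt_eq h h1.2.1 h1.2.2]

theorem ky2_eq {L : List Lp} {N n : ℕ} (h : okN L N n = true) {be : List (ℕ × ℕ × ℤ)}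
    (ht : okI2 n be = true) : ky2 L be = ky2' N be := by
  unfold ky2 ky2'
  refine List.map_congr_left (fun e he => ?_)
  rw [okI2, List.all_eq_true] at ht
  have h1 := ht e he
  rw [Bool.and_eq_true, blt_iff, blt_iff] at h1
  rw [kt_eq h h1.1 h1.2]

end Dadc30.Rec
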