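/-!
# MP_dadc30_co, Theorem R: numerical part, computable functions

This file does not import Mathlib, so that the data modules are cheap.
-/

set_option linter.all false

namespace Dadc30.Rec

/-! ## A. Computable functions -/

/-- fixed point scale `2^60` -/
def Sc : Int := 1152921504606846976

/-- record `(q, v, a, b)`: `q ≈ d² Sc`, `v` the coefficient, `a ≈ J(dt) Sc`, `b ≈ d J'(dt) Sc` -/
abbrev Rc := Int × Int × Int × Int

/-- Taylor coefficients of a solution of `t g'' + g' + (q/Sc) t g = 0` at `t = k/2`: from
`c_{n-1}, c_n, c_{n+1}` (arguments `n p c r`) push `m` more coefficients `c_{n+2}, ...` on the list -/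
def cfA (q k : Int) : Nat → Int → Int → Int → Int → List Int → List Int
  | 0, _, _, _, _, l => l
  | m + 1, n, p, c, r, l =>
    let s := -(2 * ((n + 1) * (n + 1)) * r + q * (k * c + 2 * p) / Sc) / ((n + 1) * (n + 2) * k)
    cfA q k m (n + 1) c r s (s :: l)

/-- `[c_18, ..., c_1, c_0]` -/
def cf (q k a b : Int) : List Int := cfA q k 17 0 0 a b [b, a]

/-- the three leading coefficients are small -/
def top3 : List Int → Bool
  | x :: y :: z :: _ => decide (x.natAbs ≤ 17179869184) && decide (y.natAbs ≤ 17179869184) &&
      decide (z.natAbs ≤ 17179869184)
  | _ => false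

/-- value and derivative at `1/2` (Horner, integer division) -/
def hz : List Int → Int → Int → Int × Int
  | [], v, w => (v, w)
  | c :: l, v, w => hz l (c + v / 2) (v + w / 2)

/-- value and derivative at `u/4096` -/
def hu (u : Int) : List Int → Int → Int → Int × Int
  | [], v, w => (v, w)
  | c :: l, v, w => hu u l (c + v * u / 4096) (v + w * u / 4096)

/-- `v * l + w` -/
def addL (v : Int) : List Int → List Int → List Int
  | c :: l, x :: w => (v * c + x) :: addL v l w
  | _, _ => []

/-- positivity of the polynomial `w` on `[(u-η)/4096, (u+η)/4096]`, by subdivision; `KK` bounds the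
second derivative -/
def chk (w : List Int) (KK : Int) : Nat → Int → Int → Bool
  | 0, _, _ => false
  | f + 1, u, η =>
    let p := hu u w 0 0
    if (p.2.natAbs : Int) * (η * 8192) + KK * (η * η) ≤ (p.1 - 2 * Sc) * 33554432 then true
    else chk w KK f (u - η / 2) (η / 2) && chk w KK f (u + η / 2) (η / 2)

/-- one step for all records; returns the new records and the sum of the polynomials -/
def stL (k : Int) : List Rc → Option (List Rc × List Int)
  | [] => some ([], List.replicate 19 0)
  | e :: L =>
    match stL k L with
    | none => none
    | some r =>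
      let l := cf e.1 k e.2.2.1 e.2.2.2
      if top3 l then
        let z := hz l 0 0
        some ((e.1, e.2.1, z.1, z.2) :: r.1, addL e.2.1 l r.2)
      else none

/-- add a constant to the last (degree 0) coefficient -/
def addC (v₀ : Int) : List Int → List Int
  | [] => []
  | [c] => [c + v₀ * Sc]
  | c :: l => c :: addC v₀ l

/-- `n` steps, with the positivity check in each cell -/
def run (v₀ K : Int) : Nat → Int → List Rc → Option (List Rc)
  | 0, _, S => some S
  | n + 1, k, S =>
    match stL k S with
    | none => none
    | some r => if chk (addC v₀ r.2) (K * Sc) 9 1024 1024 then run v₀ K n (k + 1) r.1 else none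

/-- power series of `J(4 d s)`: coefficients `c_m` of `s^(2m)`, zeros in between -/
def ps (q : Int) : Nat → Int → Int → List Int → List Int
  | 0, _, _, l => l
  | f + 1, m, c, l =>
    let s := -(c * (4 * q) / Sc) / ((m + 1) * (m + 1))
    ps q f (m + 1) s (s :: 0 :: l)

/-- `[c_24, 0, c_23, 0, ..., 0, c_0]`, 49 entries -/
def psc (q : Int) : List Int := ps q 24 0 Sc [Sc]

/-- initial records at `t = 4` and the polynomial in `s = t/4`, from the list of pairs `(q, v)` -/
def iniL : List (Int × Int) → List Rc × List Int
  | [] => ([], List.replicate 49 0)
  | e :: L =>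
    let r := iniL L
    let l := psc e.1
    let z := hu 4096 l 0 0
    ((e.1, e.2, z.1, z.2 / 4) :: r.1, addL e.2 l r.2)

/-- the whole computation on `0 ≤ t ≤ 4` -/
def ini (v₀ K : Int) (L : List (Int × Int)) : Option (List Rc) :=
  let r := iniL L
  if chk (addC v₀ r.2) (16 * K * Sc) 12 2048 2048 then some r.1 else none

/-- decoding of `n` records `(q, v, a, b)` (64, 32, 64, 64 bits, the last three with an offset) -/
def dS : Nat → Nat → List Rc
  | 0, _ => []
  | n + 1, N =>
    (((N % 18446744073709551616 : Nat) : Int),
      ((N / 18446744073709551616 % 4294967296 : Nat) : Int) - 2147483648,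
      ((N / 79228162514264337593543950336 % 18446744073709551616 : Nat) : Int) - 9223372036854775808,
      ((N / 1461501637330902918203684832716283019655932542976 % 18446744073709551616 : Nat) : Int) -
        9223372036854775808) ::
      dS n (N / 26959946667150639794667015087019630673637144422540572481103610249216)

end Dadc30.Rec
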