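import Pool.Agent.Lib.MP_dadc30_coR.Defs
import Pool.Agent.Lib.MP_dadc30_coR.NumC

set_option linter.all false

/-!
# MP_dadc30_co, Theorem R: numerical part, definitions and statements

`W(t) = ∑ v_i J(d_i t)` with integers `v_i` and `d_i = √((N_i + M_i √33)/6)`, `1/12 ≤ d_i ≤ 2` (and one
constant term, `d = 0`, kept apart as the integer `v₀`).  We show `v₀ + W(t) > 0` for `0 ≤ t ≤ 300` with
Taylor polynomials in integer arithmetic (scale `Sc = 2^60`), evaluated by the kernel: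
* `0 ≤ t ≤ 4`: power series in `s = t/4` (`IniStmt`);
* `4 ≤ t`: cells `[k/2, (k+1)/2]`, Taylor coefficients of `J(d t)` at `k/2` from the values
  `a/Sc ≈ J(d k/2)`, `b/Sc ≈ d J'(d k/2)` by Bessel's recursion (`StepStmt`, `RunStmt`).
All coefficient lists are REVERSED: highest degree first.
-/

open MeasureTheory Filter Topology
open scoped Real

namespace Dadc30.Rec

open Dadc30.Gap

/-! ## B. Real objects -/

/-- value and derivative of the polynomial with the reversed coefficient list `l` at `s` -/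
noncomputable def ev (s : ℝ) : List ℤ → ℝ → ℝ → ℝ × ℝ
  | [], v, w => (v, w)
  | c :: l, v, w => ev s l (c + v * s) (v + w * s)

/-- `d` belongs to `q` -/
def Dq (d : ℝ) (q : ℤ) : Prop := |d ^ 2 * (Sc : ℝ) - (q : ℝ)| ≤ 2 ∧ 1 / 12 ≤ d ∧ d ≤ 2

/-- the pair `(a, b)` approximates `(J(dt), d J'(dt)) Sc` with error `ε` -/
def Er (d t ε : ℝ) (a b : ℝ) : Prop :=
  (J (d * t) - a / (Sc : ℝ)) ^ 2 + (Jn 1 (d * t) - b / ((Sc : ℝ) * d)) ^ 2 ≤ ε ^ 2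

/-- the records `S` are valid at `t` for the distances `D` -/
def Valid (D : List ℝ) (S : List Rc) (t ε : ℝ) : Prop :=
  List.Forall₂ (fun d e => Dq d e.1 ∧ Er d t ε (e.2.2.1 : ℝ) (e.2.2.2 : ℝ)) D S

/-- `∑ v_i J(d_i t)` -/
noncomputable def Wr (D : List ℝ) (V : List ℤ) (t : ℝ) : ℝ :=
  (List.zipWith (fun d v => (v : ℝ) * J (d * t)) D V).sum

/-- the pairs `(q, v)` of a list of records -/
def qv (S : List Rc) : List (ℤ × ℤ) := S.map fun e => (e.1, e.2.1)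

/-- MODULE Step.  One distance, one cell.  `l = cf q k a b = [c_18, ..., c_0]`, `t₀ = k/2 ≥ 4`.
Let `p(s) = ∑ c_n s^n / Sc` (`= (ev s l 0 0).1 / Sc`).  For `0 ≤ s ≤ 1/2`
`(t₀+s)(p'' + d² p) + p' = Sc⁻¹ ∑_{n=0}^{19} R_n s^n`,
`R_n = t₀(n+1)(n+2)c_{n+2} + (n+1)²c_{n+1} + d²(t₀ c_n + c_{n-1})` (`c_n = 0` for `n < 0` or `n > 18`).
For `n ≤ 16` the definition of `c_{n+2}` by integer division gives
`|R_n| ≤ t₀(n+1)(n+2) + 1 + 2(t₀|c_n| + |c_{n-1}|)/Sc`; for `n = 17, 18, 19` use `top3`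
(`2^34` each): `|R_17| ≤ 324·2^34 + 4(t₀+1)2^34`, `|R_18| ≤ 4(t₀+1)2^34`, `|R_19| ≤ 4·2^34`.
Hence the residual `ρ = sup |p'' + p'/(t₀+s) + d² p| ≤ 2^(-36)`, with much room (a crude bound of the
`c_n`, e.g. `|c_n| ≤ 2^n · 2^62` by induction from `|a| ≤ 2^61`, `|b| ≤ 2^62`, is enough for the rounding
terms; these two follow from `Er`, `|Jn| ≤ 1`, `ε ≤ 1/2`, `d ≤ 2`).
`JEnergyStmt` for `x = d t`, polynomial `x ↦ p(x/d - t₀)`, residual `ρ/d²`, length `d s`: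
error `≤ ε + ρ s/d ≤ ε + 12·2^(-37) ≤ ε + 2^(-33)`.  The new pair is the value at `s = 1/2` up to
rounding errors of at most `2` (value) and `6` (derivative) units: `hz` is Horner's scheme with integer
division (each division has an error in `[0,1)`). -/
def StepStmt : Prop := JDerStmt → JOdeStmt → JEnergyStmt →
  ∀ (k : ℕ) (d ε : ℝ) (q a b : ℤ), 8 ≤ k → 0 ≤ ε → ε ≤ 1 / 2 → Dq d q →
  top3 (cf q k a b) = true → Er d (k / 2) ε a b →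
  (∀ s : ℝ, 0 ≤ s → s ≤ 1 / 2 →
    Er d (k / 2 + s) (ε + 1 / 2 ^ 33) (ev s (cf q k a b) 0 0).1 (ev s (cf q k a b) 0 0).2) ∧
  Er d ((k + 1) / 2) (ε + 1 / 2 ^ 32) ((hz (cf q k a b) 0 0).1 : ℝ) ((hz (cf q k a b) 0 0).2 : ℝ)

/-- MODULE Chk1.  Soundness of the positivity check for a polynomial.  First part: induction on `f`.
Second part: `hu` is Horner's scheme with integer division (errors in `[0, 1)`), so for a list `w` of
length `≤ 49` and `0 ≤ u ≤ 4096` its two values differ from the exact ones by at most `49` resp. `2401`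
units. -/
def Chk1Stmt : Prop := (∀ (w : List ℤ) (KK : ℤ) (f m : ℕ) (u : ℤ), chk w KK f u (2 ^ m) = true →
    f ≤ m + 1 → 0 ≤ u - 2 ^ m → u + 2 ^ m ≤ 4096 → ∀ z : ℝ, ((u : ℝ) - 2 ^ m) / 4096 ≤ z →
    z ≤ ((u : ℝ) + 2 ^ m) / 4096 → ∃ u' h : ℤ, u - 2 ^ m ≤ u' ∧ u' ≤ u + 2 ^ m ∧ 0 ≤ h ∧ h ≤ 2 ^ m ∧
      |z - (u' : ℝ) / 4096| ≤ (h : ℝ) / 4096 ∧
      ((hu u' w 0 0).2.natAbs : ℤ) * (h * 8192) + KK * (h * h) ≤
        ((hu u' w 0 0).1 - 2 * Sc) * 33554432) ∧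
  (∀ (w : List ℤ) (u : ℤ), w.length ≤ 49 → 0 ≤ u → u ≤ 4096 →
    |((hu u w 0 0).1 : ℝ) - (ev ((u : ℝ) / 4096) w 0 0).1| ≤ 49 ∧
    |((hu u w 0 0).2 : ℝ) - (ev ((u : ℝ) / 4096) w 0 0).2| ≤ 2401)

/-- MODULE Run.  (uses Step, Chk1) All distances, `n` cells (induction on `n`).  In one cell: for
`t = k/2 + s`, `|W(t) - (ev s w 0 0).1 / Sc| ≤ (∑ |v_i|) ε` and
`|W'(t) - (ev s w 0 0).2 / Sc| ≤ (∑ |v_i| d_i) ε`, where `w` is the second component of `stL k S`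
(`addL` is linear for lists of equal length, all lists have length 19, `ev` is additive) and
`W' = ∑ v_i d_i Jn 1 (d_i t)`; `addC` adds `v₀`.  With the point `u'` of Chk1 (`m = 10`,
`t' = k/2 + u'/4096`): `W(t) ≥ W(t') - |W'(t')| |t - t'| - (∑ |v_i| d_i²)(t - t')²/2` (`JTayStmt`,
`m = 0`, `N = 2`, for each `J(d_i t)`).  As `ε ≤ 2^(-22)`, `∑ |v_i| ≤ 4·10^6`, `d_i ≤ 2`,
`|t - t'| ≤ 1/4`, all errors together are `< 1 + 1/2 + 10^(-9) < 2`. -/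
def RunStmt : Prop := StepStmt → Chk1Stmt → JDerStmt → JOdeStmt → JEnergyStmt → JTayStmt →
  ∀ (v₀ K : ℤ) (n k : ℕ) (D : List ℝ) (S S' : List Rc) (ε : ℝ), 8 ≤ k → 0 ≤ ε →
  ε + n / 2 ^ 32 ≤ 1 / 2 ^ 22 → Valid D S (k / 2) ε →
  (S.map fun e => |(e.2.1 : ℝ)|).sum ≤ 4 * 10 ^ 6 →
  (List.zipWith (fun d (e : Rc) => |(e.2.1 : ℝ)| * d ^ 2) D S).sum ≤ (K : ℝ) →
  run v₀ K n k S = some S' →
  qv S' = qv S ∧ Valid D S' ((k + n) / 2) (ε + n / 2 ^ 32) ∧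
  ∀ t : ℝ, k / 2 ≤ t → t ≤ (k + n) / 2 → 0 < n → 0 < (v₀ : ℝ) + Wr D (S.map fun e => e.2.1) t

/-- MODULE Ini.  (uses Chk1) The interval `[0, 4]`, `t = 4 s`.  `Jn (2m) 0 = (-1)^m (2m)!/(4^m m!²)`,
`Jn (2m+1) 0 = 0` (from `JOdeStmt` at `x = 0`: `(n+2) Jn (n+2) 0 = -(n+1) Jn n 0`), so by `JTayStmt` at
`0` (`N = 50`) `|J(x) - ∑_{m ≤ 24} (-x²/4)^m/m!²| ≤ 8^50/50!` for `|x| ≤ 8`, and the same for
`J' = Jn 1` with the derivative of the polynomial (`N = 49`).  `psc q` computes the coefficients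
`c_m = (-4d²)^m/m!² · Sc` of `s^(2m)` in `J(4 d s)`; rounding: `|c_m| ≤ 2^7 Sc` for the exact ones
(`16^m/m!² ≤ 114`), the error `e_m` of `c_m` satisfies `e_{m+1} ≤ (16.1 e_m + 8 |c_m|/Sc + 2)/(m+1)² + 1`,
so `e_m ≤ 2^10` for all `m` (the bounds are `0, 11, 78, 198, 258, 204, ...`, then decreasing).  State: `a = ∑ c_m`, `b = (∑ 2m c_m)/4`, up to rounding.  Positivity as in Run with
`s = t/4`: `|d²/ds² J(4 d s)| ≤ 16 d²`; all errors are tiny. -/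
def IniStmt : Prop := Chk1Stmt → JDerStmt → JOdeStmt → JTayStmt →
  ∀ (v₀ K : ℤ) (D : List ℝ) (L : List (ℤ × ℤ)) (S : List Rc),
  List.Forall₂ (fun d e => Dq d e.1) D L → (L.map fun e => |(e.2 : ℝ)|).sum ≤ 4 * 10 ^ 6 →
  (List.zipWith (fun d (e : ℤ × ℤ) => |(e.2 : ℝ)| * d ^ 2) D L).sum ≤ (K : ℝ) →
  ini v₀ K L = some S → qv S = L ∧ Valid D S 4 (1 / 2 ^ 30) ∧
  ∀ t : ℝ, 0 ≤ t → t ≤ 4 → 0 < (v₀ : ℝ) + Wr D (L.map fun e => e.2) t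

/-! ## C. Zero frequency, tail -/

/-- MODULE SpZ.  As `SpecStmt`, but with the mass `δ²` at the frequency `0`: the weights of the spectral
representation are `a k = |f^(k)|²` for `f = 1_B`, with `ξ 0 = 0`, `a 0 = δ²`, and `ξ k ≠ 0` for
`k ≠ 0` if `T ≠ 0` (repeat the proof of `speStmt`, file `MP_dadc30_coG/Spe.lean`, with this extra
information, and of `Av1`); for `T = 0` a unit-free set is empty.  So for `W(t) = ∑ v_i J(d_i t) ≥ 0`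
for `t > 0` and `y ≤ W(0) = ∑ v_i`: `∑ v_i F2(d_i) = ∑ a k W(‖ξ k‖) ≥ a 0 W(0) ≥ y δ²`. -/
def SpZStmt : Prop := ∀ (T : ℝ) (B : Set Tor), MeasurableSet B → UF T B →
  ∀ (L : List (ℝ × ℝ)) (y : ℝ),
  (∀ t : ℝ, 0 < t → 0 ≤ (L.map fun e => e.1 * J (e.2 * t)).sum) → y ≤ (L.map fun e => e.1).sum →
  y * (haarT B).toReal ^ 2 ≤ (L.map fun e => e.1 * F2 T B e.2).sum

/-- MODULE Tail.  `t ≥ 300`.  `R` is a list of nonnegative rationals with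
`g ≤ (R_i)² · 300 d_i` where `x J(x)² ≤ g` for all `x ≥ x₀` and `x₀ ≤ 300 d_i`. Then
`|J(d_i t)| ≤ R_i`, so `v₀ + W(t) ≥ v₀ - ∑ |v_i| R_i`. -/
def TailStmt : Prop := ∀ (g x₀ : ℝ), 0 < x₀ → (∀ x : ℝ, x₀ ≤ x → x * J x ^ 2 ≤ g) →
  ∀ (v₀ : ℤ) (D R : List ℝ) (V : List ℤ), D.length = R.length → D.length = V.length →
  List.Forall₂ (fun d r => 0 < d ∧ 0 ≤ r ∧ x₀ ≤ 300 * d ∧ g ≤ r ^ 2 * (300 * d)) D R →
  (List.zipWith (fun (v : ℤ) r => |(v : ℝ)| * r) V R).sum < (v₀ : ℝ) →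
  ∀ t : ℝ, 300 ≤ t → 0 < (v₀ : ℝ) + Wr D V t

end Dadc30.Rec
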