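import Pool.Agent.Lib.MP_dadc30_coR.Defs
import Pool.Agent.Lib.MP_dadc30_coG.Spe
import Pool.Agent.Lib.MP_dadc30_coG.Cir
import Pool.Agent.Lib.MP_dadc30_coG.Hsc
import Pool.Agent.Lib.MP_dadc30_coG.Av1

set_option linter.all false

/-!
# MP_dadc30_co, Theorem R, module Spec: positivity of the spectral combination
-/

open MeasureTheory Filter Topology
open scoped Real ComplexConjugate

namespace Dadc30.Rec

open Dadc30.Gap

private theorem spec_hasSum (T : ℝ) (B : Set Tor) (a : (Fin 2 → ℤ) → ℝ) (ξ : (Fin 2 → ℤ) → ℂ)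
    (hS : Spc (cor T B) a ξ) (t : ℝ) :
    HasSum (fun k => a k * J (t * ‖ξ k‖)) (F2 T B t) := by
  have h0 : HasSum a (cor T B 0) := by
    have := hS.2 0
    simpa [ip] using this
  have h := hscStmt a (fun k φ => Real.cos (ip (ξ k) (t * uu φ)))
    (fun φ => cor T B (t * uu φ)) hS.1 h0.summable (fun k => Av1_cont (ξ k) t)
    (fun k φ => Real.abs_cos_le_one _) (fun φ => hS.2 _)
  have he : ∀ k, cavg (fun φ => Real.cos (ip (ξ k) (t * uu φ))) = J (t * ‖ξ k‖) := by
    intro k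
    have h1 := cirStmt (ξ k) t 0
    simp only [add_zero, Real.cos_zero, mul_one] at h1
    exact h1
  simp only [he] at h
  exact h

theorem specStmt : SpecStmt := by
  intro T B hB m v d hW
  obtain ⟨a, ξ, hS⟩ := speStmt T B hB
  have hs : HasSum (fun k => ∑ i, v i * (a k * J (d i * ‖ξ k‖))) (∑ i, v i * F2 T B (d i)) :=
    hasSum_sum (fun i _ => (spec_hasSum T B a ξ hS (d i)).mul_left (v i))
  refine hs.nonneg ?_
  intro k
  have h1 := hW ‖ξ k‖ (norm_nonneg _)
  have h2 : ∑ i, v i * (a k * J (d i * ‖ξ k‖)) = a k * ∑ i, v i * J (d i * ‖ξ k‖) := by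
    rw [Finset.mul_sum]
    refine Finset.sum_congr rfl fun i _ => ?_
    ring
  rw [h2]
  exact mul_nonneg (hS.1 k) h1

end Dadc30.Rec
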